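import Pool.Agent.Work.MP_b5285d_nt.Bd.B02

/-!
# MP_b5285d_nt, P5: the coset form and the covering form
-/

namespace OddCov

open Finset

theorem stmtCoset : StmtCoset := by
  classical
  rintro s m hm hinj ⟨x, hx⟩
  refine ⟨fun k => if h : ∃ i, m i = k then -((x h.choose).val : ℤ) else 0, ?_⟩
  intro z
  obtain ⟨i, hi⟩ := hx (z • (1 : (i : Fin s) → ZMod (m i)))
    (AddSubgroup.zsmul_mem_zmultiples _ _)
  refine ⟨m i, Finset.mem_image_of_mem _ (Finset.mem_univ i), ?_⟩
  have hex : ∃ j, m j = m i := ⟨i, rfl⟩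
  have hch : hex.choose = i := hinj hex.choose_spec
  have e : (if h : ∃ j, m j = m i then -((x h.choose).val : ℤ) else 0) = -((x i).val : ℤ) := by
    rw [dif_pos hex, hch]
  change z ≡ (if h : ∃ j, m j = m i then -((x h.choose).val : ℤ) else 0) [ZMOD (m i : ℤ)]
  rw [e, ← ZMod.intCast_eq_intCast_iff]
  have : NeZero (m i) := ⟨by have := hm i; omega⟩
  have hi' : x i + (z : ZMod (m i)) = 0 := by
    simpa using hi
  rw [Int.cast_neg, Int.cast_natCast, ZMod.natCast_zmod_val]
  exact eq_neg_of_add_eq_zero_right hi'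

end OddCov
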