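import Pool.Agent.Work.MP_b5285d_nt.Bd.B02

/-!
# Item P1 for MP_b5285d_nt: the terminal step at 3, bound of the growth by the table
-/

namespace OddCov

open Finset

namespace Growth3Aux

theorem tail (q M : ℝ) (G : ℕ → ℝ) (hq0 : 0 ≤ q) (hq : q ≤ 1 / 3) (hM : 0 ≤ M)
    (hG : ∀ m : ℕ, G m ≤ M * (m : ℝ) ^ 2) (n : ℕ) :
    ∑ j ∈ Icc 1 (12 + n), q ^ j * (G (j + 1) - G j) +
        q ^ (12 + n) * (M * ((12 + n + 1 : ℕ) : ℝ) ^ 2 - G (12 + n + 1)) +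
        M * q ^ (12 + n) * (((12 + n : ℕ) : ℝ) + 2) ≤
      (-(q * G 1) + (q - q ^ 2) * G 2 + (q ^ 2 - q ^ 3) * G 3 + (q ^ 3 - q ^ 4) * G 4 +
        (q ^ 4 - q ^ 5) * G 5 + (q ^ 5 - q ^ 6) * G 6 + (q ^ 6 - q ^ 7) * G 7 +
        (q ^ 7 - q ^ 8) * G 8 + (q ^ 8 - q ^ 9) * G 9 + (q ^ 9 - q ^ 10) * G 10 +
        (q ^ 10 - q ^ 11) * G 11 + (q ^ 11 - q ^ 12) * G 12) + 184 * (M * q ^ 12) := by
  induction n with
  | zero =>
    have h0 : 0 ≤ M * q ^ 12 := mul_nonneg hM (pow_nonneg hq0 12)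
    have e : ∑ j ∈ Icc 1 (12 + 0), q ^ j * (G (j + 1) - G j) =
        (-(q * G 1) + (q - q ^ 2) * G 2 + (q ^ 2 - q ^ 3) * G 3 + (q ^ 3 - q ^ 4) * G 4 +
        (q ^ 4 - q ^ 5) * G 5 + (q ^ 5 - q ^ 6) * G 6 + (q ^ 6 - q ^ 7) * G 7 +
        (q ^ 7 - q ^ 8) * G 8 + (q ^ 8 - q ^ 9) * G 9 + (q ^ 9 - q ^ 10) * G 10 +
        (q ^ 10 - q ^ 11) * G 11 + (q ^ 11 - q ^ 12) * G 12) + q ^ 12 * G 13 := by
      simp [Finset.sum_Icc_succ_top]
      ring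
    rw [e]
    norm_num
    nlinarith [h0]
  | succ n ih =>
    have e : ∑ j ∈ Icc 1 (12 + (n + 1)), q ^ j * (G (j + 1) - G j) =
        ∑ j ∈ Icc 1 (12 + n), q ^ j * (G (j + 1) - G j) +
          q ^ (12 + n + 1) * (G (12 + n + 2) - G (12 + n + 1)) := by
      rw [show 12 + (n + 1) = 12 + n + 1 from rfl, Finset.sum_Icc_succ_top (by omega)]
    rw [e]
    refine le_trans ?_ ih
    have hqn : 0 ≤ q ^ (12 + n) := pow_nonneg hq0 _
    have hd : 0 ≤ M * ((12 + n + 1 : ℕ) : ℝ) ^ 2 - G (12 + n + 1) := sub_nonneg.mpr (hG _)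
    rw [show 12 + (n + 1) = 12 + n + 1 from rfl, show 12 + n + 1 + 1 = 12 + n + 2 from rfl]
    set S := ∑ j ∈ Icc 1 (12 + n), q ^ j * (G (j + 1) - G j) with hS
    have hx : ((12 + n + 2 : ℕ) : ℝ) = ((12 + n : ℕ) : ℝ) + 2 := by push_cast; ring
    have hy : ((12 + n + 1 : ℕ) : ℝ) = ((12 + n : ℕ) : ℝ) + 1 := by push_cast; ring
    rw [hy] at hd
    rw [hx, hy, pow_succ q (12 + n)]
    set x : ℝ := ((12 + n : ℕ) : ℝ) with hxd
    have hx0 : 0 ≤ x := Nat.cast_nonneg _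
    set P := q ^ (12 + n) with hP
    have h1 : P * q * (M * (x + 1) ^ 2 - G (12 + n + 1)) ≤
        P * (M * (x + 1) ^ 2 - G (12 + n + 1)) := by
      apply mul_le_mul_of_nonneg_right _ hd
      nlinarith
    have h2 : M * P * q * (3 * x + 6) ≤ M * P * (x + 2) := by
      have h3 : 0 ≤ M * P := mul_nonneg hM hqn
      have h4 : q * (3 * x + 6) ≤ 1 / 3 * (3 * x + 6) := by
        apply mul_le_mul_of_nonneg_right hq
        positivity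
      calc M * P * q * (3 * x + 6) = M * P * (q * (3 * x + 6)) := by ring
        _ ≤ M * P * (1 / 3 * (3 * x + 6)) := mul_le_mul_of_nonneg_left h4 h3
        _ = M * P * (x + 2) := by ring
    have e2 : S + P * q * (G (12 + n + 2) - G (12 + n + 1)) +
          P * q * (M * (x + 2) ^ 2 - G (12 + n + 2)) +
          M * (P * q) * ((x + 1) + 2) =
        S + P * q * (M * (x + 1) ^ 2 - G (12 + n + 1)) + M * P * q * (3 * x + 6) := by
      ring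
    rw [e2]
    linarith

theorem bound (q M : ℝ) (G : ℕ → ℝ) (hq0 : 0 ≤ q) (hq : q ≤ 1 / 3) (hM : 0 ≤ M)
    (hG : ∀ m : ℕ, G m ≤ M * (m : ℝ) ^ 2) (hmono : Monotone G) (γ : ℕ) :
    ∑ j ∈ Icc 1 γ, q ^ j * (G (j + 1) - G j) ≤
      (-(q * G 1) + (q - q ^ 2) * G 2 + (q ^ 2 - q ^ 3) * G 3 + (q ^ 3 - q ^ 4) * G 4 +
        (q ^ 4 - q ^ 5) * G 5 + (q ^ 5 - q ^ 6) * G 6 + (q ^ 6 - q ^ 7) * G 7 +
        (q ^ 7 - q ^ 8) * G 8 + (q ^ 8 - q ^ 9) * G 9 + (q ^ 9 - q ^ 10) * G 10 +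
        (q ^ 10 - q ^ 11) * G 11 + (q ^ 11 - q ^ 12) * G 12) + 184 * (M * q ^ 12) := by
  have h1 := tail q M G hq0 hq hM hG γ
  have h2 : ∑ j ∈ Icc 1 γ, q ^ j * (G (j + 1) - G j) ≤
      ∑ j ∈ Icc 1 (12 + γ), q ^ j * (G (j + 1) - G j) := by
    apply Finset.sum_le_sum_of_subset_of_nonneg
    · exact Finset.Icc_subset_Icc_right (by omega)
    · intro j _ _
      exact mul_nonneg (pow_nonneg hq0 _) (sub_nonneg.mpr (hmono (Nat.le_succ j)))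
  have h3 : 0 ≤ q ^ (12 + γ) * (M * ((12 + γ + 1 : ℕ) : ℝ) ^ 2 - G (12 + γ + 1)) :=
    mul_nonneg (pow_nonneg hq0 _) (sub_nonneg.mpr (hG _))
  have h4 : 0 ≤ M * q ^ (12 + γ) * (((12 + γ : ℕ) : ℝ) + 2) := by positivity
  linarith

theorem xop (γ : ℕ) (Fh : ℕ → ℝ) :
    Xop 3 γ Fh 1 = ∑ j ∈ Icc 1 γ, (1 / 3 : ℝ) ^ j * (Fh (j + 1) - Fh j) := by
  unfold Xop
  refine Finset.sum_congr rfl fun j _ => ?_
  rw [mul_one, mul_one]
  norm_num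

end Growth3Aux

open Growth3Aux

theorem stmtGrowth3 : StmtGrowth3 := by
  intro γ Fh w K hF hw hK
  have hK0 : 0 ≤ K := by
    have h1 : Fh 0 ≤ Fh 1 := hF.mono (Nat.zero_le 1)
    have h2 := hK 1
    rw [hF.zero] at h1
    norm_num at h2
    linarith
  have hb := bound (1 / 3) K Fh (by norm_num) le_rfl hK0 hK hF.mono γ
  rw [← xop] at hb
  have g1 : Fh 1 ≤ w 0 0 := by simpa using hw 0 0
  have g2 : Fh 2 ≤ w 1 0 := by simpa using hw 1 0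
  have g3 : Fh 3 ≤ w 0 1 := by simpa using hw 0 1
  have g4 : Fh 4 ≤ w 2 0 := by simpa using hw 2 0
  have g6 : Fh 6 ≤ w 1 1 := by simpa using hw 1 1
  have g8 : Fh 8 ≤ w 3 0 := by simpa using hw 3 0
  have g9 : Fh 9 ≤ w 0 2 := by simpa using hw 0 2
  have g12 : Fh 12 ≤ w 2 1 := by simpa using hw 2 1
  have c5 := hF.conv 4
  have c7 := hF.conv 6
  have c10 := hF.conv 9
  have c11 := hF.conv 10
  unfold Lw3
  norm_num at hb c5 c7 c10 c11 ⊢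
  linarith

theorem stmtGrowth3Two : StmtGrowth3Two := by
  intro γ Fh w hγ hF hw
  have g1 : Fh 1 ≤ w 0 0 := by simpa using hw 0 0
  have g2 : Fh 2 ≤ w 1 0 := by simpa using hw 1 0
  have g3 : Fh 3 ≤ w 0 1 := by simpa using hw 0 1
  have m12 : Fh 1 ≤ Fh 2 := hF.mono (by norm_num)
  have m23 : Fh 2 ≤ Fh 3 := hF.mono (by norm_num)
  rw [xop]
  interval_cases γ
  · simp
    linarith
  · simp
    linarith
  · simp [Finset.sum_Icc_succ_top]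
    norm_num
    linarith

end OddCov
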