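import Pool.Agent.Work.MP_b5285d_nt.Defs

/-!
# Exact statements of the items for MP_b5285d_nt (odd covering systems, 45 ∣ lcm)

Each `StmtX` is a `Prop`; an item is a file with `theorem stmtX : StmtX`.
-/

namespace OddCov

open Finset

/-! ## Part A: convex sequences -/

/-- A1: chords of a convex sequence -/
def StmtChord : Prop :=
  ∀ f : ℕ → ℝ, Conv f → ∀ a b k n : ℕ, a ≤ b → k ≤ n →
    (f (a + k) - f a) * n ≤ k * (f (b + n) - f b)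

/-- A2: Jensen at integer points with integer mean -/
def StmtJensen : Prop :=
  ∀ f : ℕ → ℝ, Conv f → ∀ (j : ℕ) (n : ℕ → ℕ),
    ((j : ℝ) + 1) * f (∑ i ∈ range (j + 1), n i) ≤ ∑ i ∈ range (j + 1), f ((j + 1) * n i)

/-- A3: supporting line; `(1-θ) h(k) + θ h(k+1)` is the linear interpolation of `h` at `k + θ` -/
def StmtSupport : Prop :=
  ∀ h : ℕ → ℝ, Conv h → ∀ (γ : ℕ) (w : ℕ → ℝ) (n : ℕ → ℕ), (∀ i, 0 ≤ w i) →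
    ∑ i ∈ Icc 1 γ, w i ≤ 1 → ∀ (k : ℕ) (θ : ℝ), 0 ≤ θ → θ ≤ 1 →
    ∑ i ∈ Icc 1 γ, w i * n i = k + θ →
    (1 - θ) * h k + θ * h (k + 1) ≤ ∑ i ∈ Icc 1 γ, w i * h (n i)

/-! ## Part B: the fibre -/

/-- B1: the distorted measure on a fibre with `N` points, covered part `B` -/
def StmtMeasure : Prop :=
  ∀ (N : ℕ) (B : Finset ℕ) (α R : ℝ), 0 < N → B ⊆ range N → (B.card : ℝ) ≤ α * N → 1 ≤ R →
    ∃ μ : ℕ → ℝ, (∀ y, 0 ≤ μ y) ∧ ∑ y ∈ range N, μ y = 1 ∧ (∀ y, μ y ≤ R / N) ∧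
      ∑ y ∈ B, μ y ≤ max 0 (1 - (1 - α) * R)

/-- B2: a residue class modulo `p^j` in the fibre `range (p^γ)` -/
def StmtClassCard : Prop :=
  ∀ (p γ j : ℕ) (c : ℤ), 0 < p → j ≤ γ →
    ((range (p ^ γ)).filter fun y : ℕ => c ≡ (y : ℤ) [ZMOD ((p ^ j : ℕ) : ℤ)]).card = p ^ (γ - j)

/-- B3: the mean of a convex function of the number of classes through a point of the fibre -/
def StmtFibre : Prop :=
  ∀ (p γ : ℕ) (f : ℕ → ℝ) (L : ℕ → Multiset ℤ) (μ : ℕ → ℝ) (R : ℝ), 2 ≤ p → Conv f →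
    (∀ y, 0 ≤ μ y) → ∑ y ∈ range (p ^ γ), μ y ≤ 1 → (∀ y, μ y ≤ R / (p : ℝ) ^ γ) → 0 ≤ R →
    ∑ y ∈ range (p ^ γ), μ y *
        f (Multiset.card (∑ i ∈ range (γ + 1), pick (p ^ i) (y : ℤ) (L i))) ≤
      (∑ y ∈ range (p ^ γ), μ y) * f (Multiset.card (L 0)) +
        R * ∑ j ∈ Icc 1 γ, ((p : ℝ)⁻¹) ^ j *
          (f (∑ i ∈ range (j + 1), Multiset.card (L i)) - f (∑ i ∈ range j, Multiset.card (L i)))

/-- B4: splitting into the shares of the levels -/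
def StmtShare : Prop :=
  ∀ (p γ : ℕ) (f : ℕ → ℝ) (n : ℕ → ℕ) (R : ℝ), 2 ≤ p → 1 ≤ γ → Conv f → 0 ≤ R → R ≤ p →
    f (n 0) + R * ∑ j ∈ Icc 1 γ, ((p : ℝ)⁻¹) ^ j *
          (f (∑ i ∈ range (j + 1), n i) - f (∑ i ∈ range j, n i)) ≤
      f (n 0) + R * ∑ i ∈ range (γ + 1), xs p γ i f (n i)

/-! ## Part C: the functions `xs`, `vs`, `us`, `hp` -/

/-- C1 -/
def StmtXsMono : Prop :=
  ∀ (p γ i : ℕ) (f : ℕ → ℝ), 2 ≤ p → 1 ≤ γ → Conv f →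
    Monotone (xs p γ i f) ∧ xs p γ i f 0 = 0

/-- C2: sum of the shares -/
def StmtXsSum : Prop :=
  ∀ (p γ : ℕ) (f : ℕ → ℝ) (t : ℕ), 2 ≤ p → 1 ≤ γ →
    ∑ i ∈ range (γ + 1), xs p γ i f t = Xop p γ f t

/-- C3: the new potentials of the mixed classes, level `0` -/
def StmtConvZero : Prop :=
  ∀ (p γ : ℕ) (f : ℕ → ℝ) (R : ℕ → ℝ), 2 ≤ p → 1 ≤ γ → Conv f → Monotone R → (∀ t, 0 ≤ R t) →
    (∀ t, R t ≤ p) → Conv (fun t => f t + vs R (xs p γ 0 f) t)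

/-- C4: the new potentials of the mixed classes, level `i ≥ 1` -/
def StmtConvPos : Prop :=
  ∀ (p γ i : ℕ) (f : ℕ → ℝ) (R : ℕ → ℝ), 2 ≤ p → 1 ≤ γ → 1 ≤ i → Conv f → Monotone R →
    (∀ t, 0 ≤ R t) → Conv (vs R (xs p γ i f))

/-- C5: Monge-Kantorovich splitting of a product -/
def StmtMK : Prop :=
  ∀ (R x : ℕ → ℝ) (k t : ℕ) (θ S : ℝ), Monotone R → Monotone x → x 0 = 0 → 0 ≤ θ → θ ≤ 1 →
    S ≤ (1 - θ) * R k + θ * R (k + 1) →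
    S * x t ≤ vs R x t + ((1 - θ) * us R x k + θ * us R x (k + 1))

/-- C6: `rho` -/
def StmtRho : Prop :=
  ∀ p s0 : ℕ, s0 + 2 ≤ p → Monotone (rho p s0) ∧ (∀ t, 1 ≤ rho p s0 t) ∧ (∀ t, rho p s0 t ≤ p) ∧
    ∀ (k : ℕ) (θ : ℝ), 0 ≤ θ → θ ≤ 1 →
      ((p : ℝ) - 1) / ((p : ℝ) - 1 - min ((k : ℝ) + θ) s0) ≤
        (1 - θ) * rho p s0 k + θ * rho p s0 (k + 1)

/-- C7: the potential of the pure classes -/
def StmtHp : Prop :=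
  ∀ (p s0 : ℕ) (X : ℕ → ℝ), s0 + 2 ≤ p → Monotone X → X 0 = 0 →
    X (s0 - 1) ≤ ((p : ℝ) - s0) / ((p : ℝ) - 1) → Conv (hp p s0 X)

/-- C8: the total -/
def StmtTotal : Prop :=
  ∀ (p s0 : ℕ) (X : ℕ → ℝ) (t : ℕ), X 0 = 0 →
    vs (rho p s0) X t + hp p s0 X t = rho p s0 t * X t + hin p s0 t

/-- C9: interpolation of `hp` -/
def StmtHpInterp : Prop :=
  ∀ (p s0 : ℕ) (X : ℕ → ℝ) (k : ℕ) (θ : ℝ), s0 + 2 ≤ p → 0 ≤ θ → θ ≤ 1 →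
    ((1 - θ) * us (rho p s0) X (min k s0) + θ * us (rho p s0) X (min (k + 1) s0)) +
        max 0 (((k : ℝ) + θ - s0) / ((p : ℝ) - 1 - s0)) ≤
      (1 - θ) * hp p s0 X k + θ * hp p s0 X (k + 1)

/-! ## Part D: divisors and the Chinese remainder theorem -/

/-- D1 -/
def StmtDivSum : Prop :=
  ∀ (p γ Q : ℕ) (g : ℕ → ℝ), p.Prime → Nat.Coprime p Q → 0 < Q →
    ∑ m ∈ (p ^ γ * Q).divisors.erase 1, g m =
      ∑ i ∈ Icc 1 γ, g (p ^ i) + ∑ m ∈ Q.divisors.erase 1, ∑ i ∈ range (γ + 1), g (p ^ i * m)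

/-- D2: lifting from the fibre -/
def StmtLift : Prop :=
  ∀ (p γ Q : ℕ) (C : ℕ → Multiset ℤ) (y x' : ℤ), p.Prime → Nat.Coprime p Q → 0 < Q →
    (∀ i ∈ Icc 1 γ, ∀ c ∈ C (p ^ i), ¬ c ≡ y [ZMOD ((p ^ i : ℕ) : ℤ)]) →
    Avoids Q (fib p γ C y) x' → ∃ x : ℤ, Avoids (p ^ γ * Q) C x

/-- D3: monotonicity in `Q` -/
def StmtDvd : Prop :=
  ∀ (Q Q' : ℕ) (F : ℕ → ℝ), 0 < Q → Q' ∣ Q → Good Q F → Good Q' F

/-! ## Part E: the step -/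

/-- E1: the fibre step -/
def StmtStep : Prop :=
  ∀ (p γ s0 Q : ℕ) (F' F : ℕ → ℝ), p.Prime → Nat.Coprime p Q → 0 < Q → s0 + 2 ≤ p → Good Q F' →
    ∑ j ∈ Icc 1 γ, ((p : ℝ)⁻¹) ^ j * F' ((j + 1) * (s0 - 1)) ≤ ((p : ℝ) - s0) / ((p : ℝ) - 1) →
    (∀ t, F' t + rho p s0 t * Xop p γ F' t + hin p s0 t ≤ F t) →
    Good (p ^ γ * Q) F

/-- E2: uniform measure on the uncovered part of `Z_3 x Z_{5^γ}`. `Good Q F'`, `Q` coprime to 15. -/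
def StmtThreeFive : Prop :=
  ∀ (γ Q : ℕ) (F' : ℕ → ℝ) (r : ℕ → ℤ), 0 < Q → Nat.Coprime 15 Q → 1 ≤ γ → Good Q F' →
    0.4 * F' 1 + 0.6 * F' 2 + 0.8 * (Xop 5 γ F' 1 + Xop 5 γ F' 2) < 1 →
    ∃ x : ℤ, Avoids (3 * 5 ^ γ * Q) (fun m => {r m}) x

/-- E3: no 5 -/
def StmtNoFive : Prop :=
  ∀ (γ Q : ℕ) (F' : ℕ → ℝ) (r : ℕ → ℤ), 0 < Q → Nat.Coprime 3 Q → 1 ≤ γ → Good Q F' →
    F' 1 + 2 * Xop 3 γ F' 1 < 1 → 
    ∃ x : ℤ, Avoids (3 ^ γ * Q) (fun m => {r m}) x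

end OddCov
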