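import Pool.Agent.Work.MP_b5285d_nt.Stmts

/-!
# Numerical part for MP_b5285d_nt: statements

Tables live on the numbers `t = 2^i * 3^j`; values are naturals, scale `SC = 10^14`.
-/

namespace OddCov

open Finset

/-- all prime factors of `Q` are `≥ a` and not in the finite set `E` of excluded primes -/
def Rough (E : Finset ℕ) (a Q : ℕ) : Prop :=
  0 < Q ∧ ∀ p : ℕ, p.Prime → p ∣ Q → a ≤ p ∧ p ∉ E

/-- the primes in `[a,b)` which are not excluded -/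
def PrIn (E : Finset ℕ) (a b : ℕ) : Finset ℕ :=
  (Finset.Ico a b).filter fun p => p.Prime ∧ p ∉ E

/-- state of the recursion: `w i j` bounds the potential at `2^i 3^j`, `K t^2` bounds it everywhere -/
def St (Q : ℕ) (w : ℕ → ℕ → ℝ) (K : ℝ) : Prop :=
  ∃ Fh : ℕ → ℝ, Conv Fh ∧ Good Q Fh ∧ (∀ i j, Fh (2 ^ i * 3 ^ j) ≤ w i j) ∧
    ∀ t : ℕ, Fh t ≤ K * (t : ℝ) ^ 2

/-- growth operator of a prime `≥ a` on tables (coefficient of `ρ`) -/
noncomputable def Lw (a : ℕ) (w : ℕ → ℕ → ℝ) (K : ℝ) (i j : ℕ) : ℝ :=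
  - (w i j) / a + (1 / (a : ℝ) - 1 / (a : ℝ) ^ 2) * w (i + 1) j
    + (1 / (a : ℝ) ^ 2 - 1 / (a : ℝ) ^ 3) * w i (j + 1)
    + (1 / (a : ℝ) ^ 3 - 1 / (a : ℝ) ^ 4) * w (i + 2) j
    + (1 / (a : ℝ) ^ 4 - 1 / (a : ℝ) ^ 5) * ((w (i + 2) j + w (i + 1) (j + 1)) / 2)
    + (1 / (a : ℝ) ^ 5 - 1 / (a : ℝ) ^ 6) * w (i + 1) (j + 1)
    + 53 * K * ((2 : ℝ) ^ i * 3 ^ j) ^ 2 / (a : ℝ) ^ 6

/-- increment of a table entry caused by one prime `≥ a` -/
noncomputable def Inc (a s0 : ℕ) (w : ℕ → ℕ → ℝ) (K : ℝ) (i j : ℕ) : ℝ :=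
  rho a s0 (2 ^ i * 3 ^ j) * Lw a w K i j + hin a s0 (2 ^ i * 3 ^ j)

/-- increment of the quadratic bound caused by one prime `≥ a` -/
noncomputable def IncK (a s0 : ℕ) (K : ℝ) : ℝ :=
  K * (3 * a - 1) / (((a : ℝ) - 1) * ((a : ℝ) - 1 - s0)) + 1 / (4 * s0 * ((a : ℝ) - 1 - s0))

/-- side condition of the step -/
def Side (a s0 : ℕ) (K : ℝ) : Prop :=
  K * ((s0 - 1 : ℕ) : ℝ) ^ 2 * (4 * (a : ℝ) ^ 2 - 3 * a + 1) ≤ ((a : ℝ) - s0) * ((a : ℝ) - 1) ^ 2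

/-- N1: an exact convex total -/
def StmtExact : Prop :=
  ∀ (Q : ℕ) (F : ℕ → ℝ), Good Q F → ∃ Fh, Conv Fh ∧ (∀ t, Fh t ≤ F t) ∧ Good Q Fh

/-- N2: one prime `p ≥ a`, everything evaluated at `a` -/
def StmtOneP : Prop :=
  ∀ (a p γ s0 Q : ℕ) (Fh : ℕ → ℝ) (K : ℝ), 5 ≤ a → a ≤ p → p.Prime → Nat.Coprime p Q → 0 < Q →
    1 ≤ s0 → s0 + 2 ≤ a → Conv Fh → Good Q Fh → (∀ t : ℕ, Fh t ≤ K * (t : ℝ) ^ 2) → Side a s0 K →
    Good (p ^ γ * Q) (fun t => Fh t + rho a s0 t * Xop a γ Fh t + hin a s0 t)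

/-- N3: bound of the growth by the table -/
def StmtGrowth : Prop :=
  ∀ (a γ i j : ℕ) (Fh : ℕ → ℝ) (w : ℕ → ℕ → ℝ) (K R : ℝ), 5 ≤ a → Conv Fh →
    (∀ i j, Fh (2 ^ i * 3 ^ j) ≤ w i j) → (∀ t : ℕ, Fh t ≤ K * (t : ℝ) ^ 2) → 0 ≤ R → R ≤ a →
    Fh (2 ^ i * 3 ^ j) + R * Xop a γ Fh (2 ^ i * 3 ^ j) ≤ w i j + R * Lw a w K i j

/-- N4: the quadratic bound -/
def StmtQuad : Prop :=
  ∀ (a γ s0 t : ℕ) (Fh : ℕ → ℝ) (K : ℝ), 5 ≤ a → 1 ≤ s0 → s0 + 2 ≤ a → Conv Fh →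
    (∀ t : ℕ, Fh t ≤ K * (t : ℝ) ^ 2) →
    Fh t + rho a s0 t * Xop a γ Fh t + hin a s0 t ≤ (K + IncK a s0 K) * (t : ℝ) ^ 2

/-- N5: one prime on states; `(i,j)` is either in the table or bounded by `K' t^2` -/
def StmtStOne : Prop :=
  ∀ (a p γ s0 Q : ℕ) (w w' : ℕ → ℕ → ℝ) (K K' : ℝ), 5 ≤ a → a ≤ p → p.Prime →
    Nat.Coprime p Q → 0 < Q → 1 ≤ s0 → s0 + 2 ≤ a → St Q w K → Side a s0 K →
    K + IncK a s0 K ≤ K' →
    (∀ i j, w i j + Inc a s0 w K i j ≤ w' i j ∨ K' * ((2 : ℝ) ^ i * 3 ^ j) ^ 2 ≤ w' i j) →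
    St (p ^ γ * Q) w' K'

/-- N6: induction over the primes of a block -/
def StmtPath : Prop :=
  ∀ (E : Finset ℕ) (a b n : ℕ) (P : ℕ → ℕ → Prop), (∀ Q, Rough E b Q → P 0 Q) →
    (PrIn E a b).card ≤ n →
    (∀ k < n, ∀ Q p γ, p.Prime → a ≤ p → p < b → Nat.Coprime p Q → 0 < Q → P k Q →
      P (k + 1) (p ^ γ * Q)) →
    (∀ k < n, ∀ Q, P k Q → P (k + 1) Q) →
    ∀ Q, Rough E a Q → P n Q

/-- N7: a block with at most `n` primes -/
def StmtStBlock : Prop :=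
  ∀ (E : Finset ℕ) (a b n s0 : ℕ) (w w' : ℕ → ℕ → ℝ) (K K' : ℝ), 5 ≤ a → 1 ≤ s0 →
    s0 + 2 ≤ a → 1 ≤ n →
    (∀ Q, Rough E b Q → St Q w K) → (PrIn E a b).card ≤ n →
    0 ≤ K → K ≤ K' → Side a s0 K' →
    n * IncK a s0 K ≤ K' - K → (n = 1 ∨ n * IncK a s0 K' ≤ K' - K) →
    (∀ i j, (w i j ≤ w' i j ∧ n * Inc a s0 w K i j ≤ w' i j - w i j ∧
          (n = 1 ∨ n * Inc a s0 w' K' i j ≤ w' i j - w i j)) ∨
        (w i j = K * ((2 : ℝ) ^ i * 3 ^ j) ^ 2 ∧ w' i j = K' * ((2 : ℝ) ^ i * 3 ^ j) ^ 2)) →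
    ∀ Q, Rough E a Q → St Q w' K'

/-! ## The checker (natural numbers) -/

/-- scale -/
abbrev SC : ℕ := 100000000000000

/-- entry of a table; `0`-th row: powers of 3, `i`-th row: `2^i 3^j` -/
def ent (V : List (List ℕ)) (i j : ℕ) : Option ℕ := (V[i]?).bind fun r => r[j]?

/-- the real table given by a list table and a quadratic bound `K/SC` -/
noncomputable def wT (V : List (List ℕ)) (K : ℕ) (i j : ℕ) : ℝ :=
  (((ent V i j).getD (K * (2 ^ i * 3 ^ j) ^ 2) : ℕ) : ℝ) / SC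

def hd (x : ℕ) : List ℕ → ℕ
  | [] => x
  | y :: _ => y

/-- coefficients of a block with parameters `a, s0, n` -/
structure Co where
  (c1 c2 c3 c4 c6 cK ch D0 b1 s0 n : ℕ)

def mkCo (a n s0 : ℕ) : Co :=
  { c1 := 2 * (a - 1) * a ^ 5
    c2 := 2 * (a - 1) ^ 2 * a ^ 4
    c3 := 2 * (a - 1) ^ 2 * a ^ 3
    c4 := 2 * (a - 1) ^ 2 * a ^ 2 + (a - 1) ^ 2 * a
    c6 := (a - 1) ^ 2 * a + 2 * (a - 1) ^ 2
    cK := 106 * (a - 1)
    ch := 2 * SC * a ^ 6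
    D0 := 2 * a ^ 6
    b1 := a - 1
    s0 := s0
    n := n }

/-- numerator of `n * Inc` (truncated subtraction), `k = K t^2`; arguments: entries at
`t, 2t, 3t, 4t, 6t` -/
def num (c : Co) (t k w u2 u3 u4 u6 : ℕ) : ℕ :=
  c.n * (c.c2 * u2 + c.c3 * u3 + c.c4 * u4 + c.c6 * u6 + c.cK * k + c.ch * (t - c.s0) - c.c1 * w)

/-- denominator of `n * Inc` -/
def den (c : Co) (t : ℕ) : ℕ := c.D0 * (c.b1 - min t c.s0)

/-- one row: base row `v`, operator row `w` (row `i`), rows `u` (`i+1`) and `z` (`i+2`) -/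
def rowT (c : Co) (K : ℕ) : ℕ → List ℕ → List ℕ → List ℕ → List ℕ → List ℕ
  | t, v :: vs, w :: ws, u, z =>
      (v + num c t (K * (t * t)) w (hd (4 * (K * (t * t))) u) (hd (9 * (K * (t * t))) ws)
          (hd (16 * (K * (t * t))) z) (hd (36 * (K * (t * t))) u.tail) / den c t + 1) ::
        rowT c K (3 * t) vs ws u.tail z.tail
  | _, _, _, _, _ => []

/-- the table `V + n Inc(W) + 1` -/
def tabT (c : Co) (K : ℕ) : ℕ → List (List ℕ) → List (List ℕ) → List (List ℕ)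
  | t, v :: vs, w :: ws => rowT c K t v w (ws.headD []) (ws.tail.headD []) :: tabT c K (2 * t) vs ws
  | _, _, _ => []

/-- `V' = Vb + (Vb - Va)/2 + (Vb - V)/4096 + 1` -/
def rowF : List ℕ → List ℕ → List ℕ → List ℕ
  | v :: vs, a :: as, b :: bs => (b + (b - a) / 2 + (b - v) / 4096 + 1) :: rowF vs as bs
  | _, _, _ => []

def tabF : List (List ℕ) → List (List ℕ) → List (List ℕ) → List (List ℕ)
  | v :: vs, a :: as, b :: bs => rowF v a b :: tabF vs as bs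
  | _, _, _ => []

/-- check of `n Inc(W) ≤ V' - V` on a row -/
def rowC (c : Co) (K : ℕ) : ℕ → List ℕ → List ℕ → List ℕ → List ℕ → List ℕ → Bool
  | t, v :: vs, v' :: vs', w :: ws, u, z =>
      Nat.ble (num c t (K * (t * t)) w (hd (4 * (K * (t * t))) u) (hd (9 * (K * (t * t))) ws)
          (hd (16 * (K * (t * t))) z) (hd (36 * (K * (t * t))) u.tail)) ((v' - v) * den c t) &&
        Nat.ble v v' && rowC c K (3 * t) vs vs' ws u.tail z.tail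
  | _, [], [], [], _, _ => true
  | _, _, _, _, _, _ => false

def tabC (c : Co) (K : ℕ) : ℕ → List (List ℕ) → List (List ℕ) → List (List ℕ) → Bool
  | t, v :: vs, v' :: vs', w :: ws =>
      rowC c K t v v' w (ws.headD []) (ws.tail.headD []) && tabC c K (2 * t) vs vs' ws
  | _, [], [], [] => true
  | _, _, _, _ => false

/-- one block: `(a, n, s0)`; returns the new table and bound if all checks succeed -/
def blockStep (a n s0 : ℕ) (V : List (List ℕ)) (K : ℕ) : Option (List (List ℕ) × ℕ) :=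
  let c := mkCo a n s0
  let dK := 4 * s0 * (a - 1) * (a - 1 - s0)
  if n = 1 then
    let K' := K + (K * (3 * a - 1) * (4 * s0) + (a - 1) * SC) / dK + 1
    let V' := tabT c K 1 V V
    if 5 ≤ a ∧ 1 ≤ s0 ∧ s0 + 2 ≤ a ∧
        K' * (s0 - 1) ^ 2 * (4 * a ^ 2 - 3 * a + 1) ≤ SC * ((a - s0) * (a - 1) ^ 2) then
      some (V', K')
    else none
  else
    let K' := (K * dK + n * ((a - 1) * SC)) / (dK - 4 * n * s0 * (3 * a - 1)) + 1
    let Va := tabT c K 1 V V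
    let Vb := tabT c K' 1 V Va
    let V' := tabF V Va Vb
    if 5 ≤ a ∧ 1 ≤ n ∧ 1 ≤ s0 ∧ s0 + 2 ≤ a ∧ K ≤ K' ∧
        n * (K' * (3 * a - 1) * (4 * s0) + (a - 1) * SC) ≤ (K' - K) * dK ∧
        K' * (s0 - 1) ^ 2 * (4 * a ^ 2 - 3 * a + 1) ≤ SC * ((a - s0) * (a - 1) ^ 2) ∧
        tabC c K 1 V V' V = true ∧ tabC c K' 1 V V' V' = true then
      some (V', K')
    else none

/-- all blocks, in decreasing order of `a` -/
def runBlocks : List (ℕ × ℕ × ℕ) → List (List ℕ) → ℕ → Option (List (List ℕ) × ℕ)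
  | [], V, K => some (V, K)
  | (a, n, s0) :: bs, V, K =>
      match blockStep a n s0 V K with
      | none => none
      | some (V', K') => runBlocks bs V' K'

/-- N8: soundness of one block -/
def StmtBlockSound : Prop :=
  ∀ (E : Finset ℕ) (a b n s0 K K' : ℕ) (V V' : List (List ℕ)),
    blockStep a n s0 V K = some (V', K') →
    (∀ Q, Rough E b Q → St Q (wT V K) ((K : ℝ) / SC)) → (PrIn E a b).card ≤ n →
    ∀ Q, Rough E a Q → St Q (wT V' K') ((K' : ℝ) / SC)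

/-- the blocks `(a, n, s0)` below `b` contain at most `n` primes each -/
def BlocksOK (E : Finset ℕ) : ℕ → List (ℕ × ℕ × ℕ) → Prop
  | _, [] => True
  | b, (a, n, _) :: bs => (PrIn E a b).card ≤ n ∧ BlocksOK E a bs

/-- the last `a` of a list of blocks starting below `b` -/
def lastA : ℕ → List (ℕ × ℕ × ℕ) → ℕ
  | b, [] => b
  | _, (a, _, _) :: bs => lastA a bs

/-- N9: soundness of a run -/
def StmtRunSound : Prop :=
  ∀ (E : Finset ℕ) (bs : List (ℕ × ℕ × ℕ)) (b K K' : ℕ) (V V' : List (List ℕ)),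
    runBlocks bs V K = some (V', K') →
    (∀ Q, Rough E b Q → St Q (wT V K) ((K : ℝ) / SC)) → BlocksOK E b bs →
    ∀ Q, Rough E (lastA b bs) Q → St Q (wT V' K') ((K' : ℝ) / SC)

end OddCov
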