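import Pool.Agent.Work.MP_b5285d_nt.Stmts
import Pool.Agent.Work.MP_b5285d_nt.Bd.B01

/-!
# E2: uniform measure on the uncovered part of `Z_3 × Z_{5^γ}`
-/

namespace OddCov

open Finset

namespace TF

/-! ### real inequalities -/

/-- Abel summation for nonpositive sequences -/
lemma abel (q : ℝ) (h0 : 0 ≤ q) (h1 : q ≤ 1) (D : ℕ → ℝ) (hD : ∀ j, D j ≤ 0) :
    ∀ γ : ℕ, 1 ≤ γ → ∑ j ∈ Icc 1 γ, q ^ j * (D j - D (j - 1)) ≤ -q * D 0 + q ^ γ * D γ := by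
  intro γ hγ
  induction γ, hγ using Nat.le_induction with
  | base => simp; linarith
  | succ γ hγ ih =>
    rw [Finset.sum_Icc_succ_top (by omega)]
    simp only [Nat.add_sub_cancel]
    have h2 : (q ^ γ - q ^ (γ + 1)) * D γ ≤ 0 := by
      have : 0 ≤ q ^ γ - q ^ (γ + 1) := by
        rw [pow_succ]
        have := pow_nonneg h0 γ
        nlinarith
      exact mul_nonpos_of_nonneg_of_nonpos this (hD γ)
    nlinarith

lemma abel' (q : ℝ) (h0 : 0 ≤ q) (h1 : q ≤ 1) (D : ℕ → ℝ) (hD : ∀ j, D j ≤ 0) (γ : ℕ)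
    (hγ : 1 ≤ γ) : ∑ j ∈ Icc 1 γ, q ^ j * (D j - D (j - 1)) ≤ -q * D 0 := by
  have h := abel q h0 h1 D hD γ hγ
  have : q ^ γ * D γ ≤ 0 := mul_nonpos_of_nonneg_of_nonpos (pow_nonneg h0 γ) (hD γ)
  linarith

/-- convexity: increments are monotone -/
lemma incr (hCh : StmtChord) {f : ℕ → ℝ} (hf : Conv f) (s a b : ℕ) :
    f (s + a) + f (s + b) ≤ f s + f (s + a + b) := by
  rcases Nat.eq_zero_or_pos a with rfl | ha
  · simp
  have h := hCh f hf s (s + b) a a (by omega) le_rfl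
  have ha' : (0 : ℝ) < a := by exact_mod_cast ha
  have h2 : f (s + a) - f s ≤ f (s + b + a) - f (s + b) := by
    rw [mul_comm] at h
    exact le_of_mul_le_mul_left h ha'
  have e : s + b + a = s + a + b := by omega
  rw [e] at h2
  linarith

/-- the functional of the statement -/
noncomputable def T (γ : ℕ) (F : ℕ → ℝ) : ℝ :=
  0.4 * F 1 + 0.6 * F 2 + 0.8 * (Xop 5 γ F 1 + Xop 5 γ F 2)

lemma Xop_eq (γ : ℕ) (F : ℕ → ℝ) : Xop 5 γ F 1 + Xop 5 γ F 2 =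
    ∑ j ∈ Icc 1 γ, ((5 : ℝ)⁻¹) ^ j *
      ((F (j + 1) + F (2 * (j + 1))) - (F (j - 1 + 1) + F (2 * (j - 1 + 1)))) := by
  unfold Xop
  rw [← Finset.sum_add_distrib]
  apply Finset.sum_congr rfl
  intro j hj
  have hj1 : 1 ≤ j := (Finset.mem_Icc.1 hj).1
  have e : j - 1 + 1 = j := by omega
  rw [e, mul_comm 2 (j + 1), mul_comm 2 j, mul_one, mul_one]
  push_cast
  ring

lemma T_mono {γ : ℕ} (hγ : 1 ≤ γ) {F G : ℕ → ℝ} (h : ∀ t, F t ≤ G t) : T γ F ≤ T γ G := by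
  have key := abel' (5 : ℝ)⁻¹ (by norm_num) (by norm_num)
    (fun j => (F (j + 1) + F (2 * (j + 1))) - (G (j + 1) + G (2 * (j + 1))))
    (fun j => by have := h (j + 1); have := h (2 * (j + 1)); linarith) γ hγ
  unfold T
  rw [Xop_eq, Xop_eq]
  have e : ∑ j ∈ Icc 1 γ, ((5 : ℝ)⁻¹) ^ j *
      (((F (j + 1) + F (2 * (j + 1))) - (G (j + 1) + G (2 * (j + 1)))) -
        ((F (j - 1 + 1) + F (2 * (j - 1 + 1))) - (G (j - 1 + 1) + G (2 * (j - 1 + 1))))) =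
      (∑ j ∈ Icc 1 γ, ((5 : ℝ)⁻¹) ^ j *
        ((F (j + 1) + F (2 * (j + 1))) - (F (j - 1 + 1) + F (2 * (j - 1 + 1))))) -
      ∑ j ∈ Icc 1 γ, ((5 : ℝ)⁻¹) ^ j *
        ((G (j + 1) + G (2 * (j + 1))) - (G (j - 1 + 1) + G (2 * (j - 1 + 1)))) := by
    rw [← Finset.sum_sub_distrib]
    apply Finset.sum_congr rfl
    intro j _
    ring
  rw [e] at key
  have h1 := h 1
  have h2 := h 2
  norm_num at key ⊢
  linarith

lemma T_sum {ι : Type} (s : Finset ι) (γ : ℕ) (f : ι → ℕ → ℝ) :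
    ∑ m ∈ s, T γ (f m) = T γ (fun t => ∑ m ∈ s, f m t) := by
  have hX : ∀ t, ∑ m ∈ s, Xop 5 γ (f m) t = Xop 5 γ (fun t => ∑ m ∈ s, f m t) t := by
    intro t
    unfold Xop
    rw [Finset.sum_comm]
    apply Finset.sum_congr rfl
    intro j _
    rw [← Finset.mul_sum, Finset.sum_sub_distrib]
  unfold T
  rw [← hX, ← hX, Finset.sum_add_distrib, Finset.sum_add_distrib, ← Finset.mul_sum,
    ← Finset.mul_sum, ← Finset.mul_sum, Finset.sum_add_distrib]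

/-- the bound for one modulus -/
lemma one (hCh : StmtChord) {γ : ℕ} (hγ : 1 ≤ γ) {f : ℕ → ℝ} (hf : Conv f) (t1 t2 : ℕ → ℕ)
    (ht : ∀ i, t1 i + t2 i ≤ 1) (w1 w2 : ℝ) (hw : w1 + w2 = 1) (h1 : w1 ≤ 3 / 5)
    (h2 : w2 ≤ 3 / 5) :
    (w1 * f (1 + t1 0) + 0.8 * ∑ j ∈ Icc 1 γ, ((5 : ℝ)⁻¹) ^ j *
        (f (∑ i ∈ range (j + 1), (1 + t1 i)) - f (∑ i ∈ range j, (1 + t1 i)))) +
      (w2 * f (1 + t2 0) + 0.8 * ∑ j ∈ Icc 1 γ, ((5 : ℝ)⁻¹) ^ j *
        (f (∑ i ∈ range (j + 1), (1 + t2 i)) - f (∑ i ∈ range j, (1 + t2 i)))) ≤ T γ f := by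
  set G : ℕ → ℝ := fun j => f (∑ i ∈ range (j + 1), (1 + t1 i)) +
    f (∑ i ∈ range (j + 1), (1 + t2 i)) with hG
  set H : ℕ → ℝ := fun j => f (j + 1) + f (2 * (j + 1)) with hH
  have hGH : ∀ j, G j - H j ≤ 0 := by
    intro j
    have e : ∀ t : ℕ → ℕ, ∑ i ∈ range (j + 1), (1 + t i) = (j + 1) + ∑ i ∈ range (j + 1), t i := by
      intro t
      rw [Finset.sum_add_distrib]; simp
    simp only [hG, hH]
    rw [e t1, e t2]
    have hs : ∑ i ∈ range (j + 1), t1 i + ∑ i ∈ range (j + 1), t2 i ≤ j + 1 := by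
      rw [← Finset.sum_add_distrib]
      calc ∑ i ∈ range (j + 1), (t1 i + t2 i) ≤ ∑ i ∈ range (j + 1), 1 :=
            Finset.sum_le_sum fun i _ => ht i
        _ = j + 1 := by simp
    have i1 := incr hCh hf (j + 1) (∑ i ∈ range (j + 1), t1 i) (∑ i ∈ range (j + 1), t2 i)
    have i2 : f (j + 1 + ∑ i ∈ range (j + 1), t1 i + ∑ i ∈ range (j + 1), t2 i) ≤
        f (2 * (j + 1)) := hf.mono (by omega)
    linarith
  have key := abel' (5 : ℝ)⁻¹ (by norm_num) (by norm_num) (fun j => G j - H j) hGH γ hγ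
  have eG : (∑ j ∈ Icc 1 γ, ((5 : ℝ)⁻¹) ^ j *
        (f (∑ i ∈ range (j + 1), (1 + t1 i)) - f (∑ i ∈ range j, (1 + t1 i)))) +
      ∑ j ∈ Icc 1 γ, ((5 : ℝ)⁻¹) ^ j *
        (f (∑ i ∈ range (j + 1), (1 + t2 i)) - f (∑ i ∈ range j, (1 + t2 i))) =
      ∑ j ∈ Icc 1 γ, ((5 : ℝ)⁻¹) ^ j * (G j - G (j - 1)) := by
    rw [← Finset.sum_add_distrib]
    apply Finset.sum_congr rfl
    intro j hj
    have hj1 : 1 ≤ j := (Finset.mem_Icc.1 hj).1
    have e : j - 1 + 1 = j := by omega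
    simp only [hG]
    rw [e]
    ring
  have eH : Xop 5 γ f 1 + Xop 5 γ f 2 = ∑ j ∈ Icc 1 γ, ((5 : ℝ)⁻¹) ^ j * (H j - H (j - 1)) :=
    Xop_eq γ f
  have eD : ∑ j ∈ Icc 1 γ, ((5 : ℝ)⁻¹) ^ j * ((G j - H j) - (G (j - 1) - H (j - 1))) =
      (∑ j ∈ Icc 1 γ, ((5 : ℝ)⁻¹) ^ j * (G j - G (j - 1))) -
      ∑ j ∈ Icc 1 γ, ((5 : ℝ)⁻¹) ^ j * (H j - H (j - 1)) := by
    rw [← Finset.sum_sub_distrib]
    apply Finset.sum_congr rfl
    intro j _
    ring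
  rw [eD, ← eG, ← eH] at key
  have hG0 : G 0 = f (1 + t1 0) + f (1 + t2 0) := by simp [hG]
  have hH0 : H 0 = f 1 + f 2 := by simp [hH]
  rw [hG0, hH0] at key
  have hm : f 1 ≤ f 2 := hf.mono (by norm_num)
  unfold T
  have h0 := ht 0
  have hcase : (t1 0 = 0 ∧ t2 0 = 0) ∨ (t1 0 = 1 ∧ t2 0 = 0) ∨ (t1 0 = 0 ∧ t2 0 = 1) := by omega
  have hw2 : w2 = 1 - w1 := by linarith
  rcases hcase with ⟨e1, e2⟩ | ⟨e1, e2⟩ | ⟨e1, e2⟩
  · rw [e1, e2] at key ⊢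
    norm_num at key ⊢
    have : w1 * f 1 + w2 * f 1 = f 1 := by rw [← add_mul, hw, one_mul]
    nlinarith
  · rw [e1, e2] at key ⊢
    norm_num at key ⊢
    have : w1 * (f 2 - f 1) ≤ 3 / 5 * (f 2 - f 1) :=
      mul_le_mul_of_nonneg_right h1 (by linarith)
    subst hw2
    nlinarith
  · rw [e1, e2] at key ⊢
    norm_num at key ⊢
    have : w2 * (f 2 - f 1) ≤ 3 / 5 * (f 2 - f 1) :=
      mul_le_mul_of_nonneg_right h2 (by linarith)
    have hw1 : w1 = 1 - w2 := by linarith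
    subst hw1
    nlinarith

/-! ### counting -/

lemma geo (γ : ℕ) : 4 * (∑ i ∈ Icc 1 γ, 5 ^ (γ - i)) + 1 = 5 ^ γ := by
  induction γ with
  | zero => simp
  | succ γ ih =>
    rw [Finset.sum_Icc_succ_top (by omega)]
    have e : ∑ i ∈ Icc 1 γ, 5 ^ (γ + 1 - i) = 5 * ∑ i ∈ Icc 1 γ, 5 ^ (γ - i) := by
      rw [Finset.mul_sum]
      apply Finset.sum_congr rfl
      intro i hi
      have := (Finset.mem_Icc.1 hi).2
      have e : γ + 1 - i = (γ - i) + 1 := by omega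
      rw [e, pow_succ, mul_comm]
    rw [e, Nat.sub_self, pow_zero, pow_succ]
    omega

/-- classes after fixing the residue modulo 3 -/
noncomputable def C' (r : ℕ → ℤ) (a : ℤ) : ℕ → Multiset ℤ := fib 3 1 (fun m => {r m}) a

open Classical in
noncomputable def tt (r : ℕ → ℤ) (a : ℤ) (m : ℕ) : ℕ := if r (3 * m) ≡ a [ZMOD 3] then 1 else 0

lemma C'_eq (r : ℕ → ℤ) (a : ℤ) (m : ℕ) :
    C' r a m = {r m} + (if r (3 * m) ≡ a [ZMOD 3] then {r (3 * m)} else 0) := by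
  unfold C' fib pick
  rw [Finset.sum_range_succ, Finset.sum_range_one]
  simp only [pow_zero, one_mul, pow_one, Nat.cast_one, Nat.cast_ofNat]
  congr 1
  · rw [Multiset.filter_singleton, if_pos]
    exact Int.modEq_one
  · rw [Multiset.filter_singleton]
    rfl

lemma C'_card (r : ℕ → ℤ) (a : ℤ) (m : ℕ) : Multiset.card (C' r a m) = 1 + tt r a m := by
  rw [C'_eq]
  unfold tt
  by_cases h : r (3 * m) ≡ a [ZMOD 3]
  · simp [h]
  · simp [h]

lemma tt_le (r : ℕ → ℤ) (a b : ℤ) (hab : ¬ a ≡ b [ZMOD 3]) (m : ℕ) :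
    tt r a m + tt r b m ≤ 1 := by
  unfold tt
  by_cases h : r (3 * m) ≡ a [ZMOD 3]
  · have h' : ¬ r (3 * m) ≡ b [ZMOD 3] := fun h2 => hab (h.symm.trans h2)
    simp [h, h']
  · simp only [h, if_false, zero_add]
    split_ifs <;> simp

open Classical in
noncomputable def U (γ : ℕ) (r : ℕ → ℤ) (a : ℤ) : Finset ℕ :=
  (range (5 ^ γ)).filter fun z : ℕ =>
    ∀ i ∈ Icc 1 γ, ∀ c ∈ C' r a (5 ^ i), ¬ c ≡ (z : ℤ) [ZMOD ((5 ^ i : ℕ) : ℤ)]

open Classical in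
noncomputable def Z (γ : ℕ) (r : ℕ → ℤ) : Finset ℕ :=
  (range (5 ^ γ)).filter fun z : ℕ => ∃ i ∈ Icc 1 γ, r (5 ^ i) ≡ (z : ℤ) [ZMOD ((5 ^ i : ℕ) : ℤ)]

open Classical in
noncomputable def E (γ : ℕ) (r : ℕ → ℤ) (a : ℤ) : Finset ℕ :=
  (range (5 ^ γ)).filter fun z : ℕ => ∃ i ∈ Icc 1 γ, r (3 * 5 ^ i) ≡ a [ZMOD 3] ∧
    r (3 * 5 ^ i) ≡ (z : ℤ) [ZMOD ((5 ^ i : ℕ) : ℤ)]

lemma U_eq (γ : ℕ) (r : ℕ → ℤ) (a : ℤ) : U γ r a = range (5 ^ γ) \ (Z γ r ∪ E γ r a) := by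
  ext z
  simp only [U, Z, E, Finset.mem_filter, Finset.mem_sdiff, Finset.mem_union, C'_eq,
    Multiset.mem_add, Multiset.mem_singleton]
  constructor
  · rintro ⟨h1, h2⟩
    refine ⟨h1, ?_⟩
    rintro (⟨-, i, hi, h⟩ | ⟨-, i, hi, h, h'⟩)
    · exact h2 i hi _ (Or.inl rfl) h
    · exact h2 i hi (r (3 * 5 ^ i)) (Or.inr (by simp [h])) h'
  · rintro ⟨h1, h2⟩
    refine ⟨h1, ?_⟩
    rintro i hi c (rfl | hc) h
    · exact h2 (Or.inl ⟨h1, i, hi, h⟩)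
    · by_cases h3 : r (3 * 5 ^ i) ≡ a [ZMOD 3]
      · rw [if_pos h3, Multiset.mem_singleton] at hc
        subst hc
        exact h2 (Or.inr ⟨h1, i, hi, h3, h⟩)
      · rw [if_neg h3] at hc
        simp at hc

lemma U_card (γ : ℕ) (r : ℕ → ℤ) (a : ℤ) :
    (U γ r a).card + ((Z γ r).card + (E γ r a \ Z γ r).card) = 5 ^ γ := by
  rw [U_eq]
  have h1 : (Z γ r ∪ E γ r a) ⊆ range (5 ^ γ) := by
    apply Finset.union_subset <;> exact Finset.filter_subset _ _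
  have h2 : (Z γ r).card + (E γ r a \ Z γ r).card = (Z γ r ∪ E γ r a).card := by
    rw [← Finset.card_union_of_disjoint Finset.disjoint_sdiff, Finset.union_sdiff_self_eq_union]
  rw [h2, Finset.card_sdiff_add_card_eq_card h1, Finset.card_range]

lemma Z_card (hCC : StmtClassCard) (γ : ℕ) (r : ℕ → ℤ) : 4 * (Z γ r).card ≤ 5 ^ γ := by
  classical
  have h : (Z γ r).card ≤ ∑ i ∈ Icc 1 γ, 5 ^ (γ - i) := by
    have hsub : Z γ r ⊆ (Icc 1 γ).biUnion fun i =>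
        (range (5 ^ γ)).filter fun z : ℕ => r (5 ^ i) ≡ (z : ℤ) [ZMOD ((5 ^ i : ℕ) : ℤ)] := by
      intro z hz
      simp only [Z, Finset.mem_filter] at hz
      obtain ⟨h1, i, hi, h⟩ := hz
      exact Finset.mem_biUnion.2 ⟨i, hi, Finset.mem_filter.2 ⟨h1, h⟩⟩
    refine (Finset.card_le_card hsub).trans (Finset.card_biUnion_le.trans ?_)
    apply Finset.sum_le_sum
    intro i hi
    exact (hCC 5 γ i (r (5 ^ i)) (by norm_num) (Finset.mem_Icc.1 hi).2).le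
  have := geo γ
  omega

lemma E_card (hCC : StmtClassCard) (γ : ℕ) (r : ℕ → ℤ) (a b : ℤ) (hab : ¬ a ≡ b [ZMOD 3]) :
    4 * ((E γ r a).card + (E γ r b).card) ≤ 5 ^ γ := by
  classical
  have h : ∀ a, (E γ r a).card ≤ ∑ i ∈ Icc 1 γ, tt r a (5 ^ i) * 5 ^ (γ - i) := by
    intro a
    have hsub : E γ r a ⊆ (Icc 1 γ).biUnion fun i =>
        (range (5 ^ γ)).filter fun z : ℕ => r (3 * 5 ^ i) ≡ a [ZMOD 3] ∧
          r (3 * 5 ^ i) ≡ (z : ℤ) [ZMOD ((5 ^ i : ℕ) : ℤ)] := by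
      intro z hz
      simp only [E, Finset.mem_filter] at hz
      obtain ⟨h1, i, hi, h⟩ := hz
      exact Finset.mem_biUnion.2 ⟨i, hi, Finset.mem_filter.2 ⟨h1, h⟩⟩
    refine (Finset.card_le_card hsub).trans (Finset.card_biUnion_le.trans ?_)
    apply Finset.sum_le_sum
    intro i hi
    unfold tt
    by_cases h3 : r (3 * 5 ^ i) ≡ a [ZMOD 3]
    · simp only [h3, if_true, true_and, one_mul]
      exact (hCC 5 γ i (r (3 * 5 ^ i)) (by norm_num) (Finset.mem_Icc.1 hi).2).le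
    · simp [h3]
  have h2 : (E γ r a).card + (E γ r b).card ≤ ∑ i ∈ Icc 1 γ, 5 ^ (γ - i) := by
    refine (add_le_add (h a) (h b)).trans ?_
    rw [← Finset.sum_add_distrib]
    apply Finset.sum_le_sum
    intro i _
    rw [← add_mul]
    calc (tt r a (5 ^ i) + tt r b (5 ^ i)) * 5 ^ (γ - i) ≤ 1 * 5 ^ (γ - i) :=
          Nat.mul_le_mul_right _ (tt_le r a b hab _)
      _ = _ := one_mul _
  have := geo γ
  omega

end TF

open TF in
theorem stmtThreeFive_of (hCh : StmtChord) (hCC : StmtClassCard) (hF : StmtFibre)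
    (hL : StmtLift) : StmtThreeFive := by
  classical
  intro γ Q F' r hQ hcop hγ hGood hlt
  obtain ⟨f, hf1, hf2, hf3⟩ := hGood
  set a1 : ℤ := r 3 + 1 with ha1
  set a2 : ℤ := r 3 + 2 with ha2
  have hab : ¬ a1 ≡ a2 [ZMOD 3] := by
    intro h
    have := h.dvd
    rw [ha1, ha2] at this
    omega
  have n1 : ¬ r 3 ≡ a1 [ZMOD 3] := by
    intro h
    have := h.dvd
    rw [ha1] at this
    omega
  have n2 : ¬ r 3 ≡ a2 [ZMOD 3] := by
    intro h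
    have := h.dvd
    rw [ha2] at this
    omega
  -- a good point is enough
  have fin : ∀ a : ℤ, ¬ r 3 ≡ a [ZMOD 3] → ∀ z ∈ U γ r a,
      Phi Q f (fib 5 γ (C' r a) (z : ℤ)) < 1 → ∃ x : ℤ, Avoids (3 * 5 ^ γ * Q) (fun m => {r m}) x := by
    intro a ha z hz hphi
    obtain ⟨x', hx'⟩ := hf3 _ hphi
    have hc3 : Nat.Coprime 3 Q := Nat.Coprime.coprime_dvd_left (by norm_num) hcop
    have hc5 : Nat.Coprime 5 Q := Nat.Coprime.coprime_dvd_left (by norm_num) hcop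
    simp only [U, Finset.mem_filter] at hz
    obtain ⟨x'', hx''⟩ := hL 5 γ Q (C' r a) z x' (by norm_num) hc5 hQ hz.2 hx'
    have hc35 : Nat.Coprime 3 (5 ^ γ * Q) :=
      Nat.Coprime.mul_right (Nat.Coprime.pow_right γ (by norm_num)) hc3
    obtain ⟨x, hx⟩ := hL 3 1 (5 ^ γ * Q) (fun m => {r m}) a x'' (by norm_num) hc35
      (by positivity) (by
        intro i hi c hc
        have hi1 : i = 1 := by
          have := Finset.mem_Icc.1 hi; omega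
        subst hi1
        simp only [pow_one, Multiset.mem_singleton] at hc
        subst hc
        simpa using ha) hx''
    refine ⟨x, ?_⟩
    have e : 3 ^ 1 * (5 ^ γ * Q) = 3 * 5 ^ γ * Q := by ring
    rwa [e] at hx
  by_contra hcon
  have g1 : ∀ z ∈ U γ r a1, 1 ≤ Phi Q f (fib 5 γ (C' r a1) (z : ℤ)) := by
    intro z hz
    by_contra h
    exact hcon (fin a1 n1 z hz (lt_of_not_ge h))
  have g2 : ∀ z ∈ U γ r a2, 1 ≤ Phi Q f (fib 5 γ (C' r a2) (z : ℤ)) := by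
    intro z hz
    by_contra h
    exact hcon (fin a2 n2 z hz (lt_of_not_ge h))
  -- counting
  have c1 := U_card γ r a1
  have c2 := U_card γ r a2
  have cZ := Z_card hCC γ r
  have cE := E_card hCC γ r a1 a2 hab
  have d1 : (E γ r a1 \ Z γ r).card ≤ (E γ r a1).card := Finset.card_le_card Finset.sdiff_subset
  have d2 : (E γ r a2 \ Z γ r).card ≤ (E γ r a2).card := Finset.card_le_card Finset.sdiff_subset
  have hP : 0 < 5 ^ γ := by positivity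
  have k0 : 5 * 5 ^ γ ≤ 4 * ((U γ r a1).card + (U γ r a2).card) := by omega
  have k1 : 2 * (U γ r a1).card ≤ 3 * (U γ r a2).card := by omega
  have k2 : 2 * (U γ r a2).card ≤ 3 * (U γ r a1).card := by omega
  set u1 : ℝ := ((U γ r a1).card : ℝ) with hu1
  set u2 : ℝ := ((U γ r a2).card : ℝ) with hu2
  have k0' : 5 * (5 : ℝ) ^ γ ≤ 4 * (u1 + u2) := by
    rw [hu1, hu2]; exact_mod_cast k0
  have k1' : 2 * u1 ≤ 3 * u2 := by rw [hu1, hu2]; exact_mod_cast k1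
  have k2' : 2 * u2 ≤ 3 * u1 := by rw [hu1, hu2]; exact_mod_cast k2
  have hPr : (0 : ℝ) < 5 ^ γ := by positivity
  have hu : 0 < u1 + u2 := by linarith
  have hw : u1 / (u1 + u2) + u2 / (u1 + u2) = 1 := by
    rw [← add_div]; exact div_self hu.ne'
  have hw1 : u1 / (u1 + u2) ≤ 3 / 5 := by
    rw [div_le_iff₀ hu]; linarith
  have hw2 : u2 / (u1 + u2) ≤ 3 / 5 := by
    rw [div_le_iff₀ hu]; linarith
  let μ : ℤ → ℕ → ℝ := fun a z => if z ∈ U γ r a then (u1 + u2)⁻¹ else 0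
  have μ0 : ∀ a z, 0 ≤ μ a z := by
    intro a z
    show 0 ≤ if z ∈ U γ r a then (u1 + u2)⁻¹ else 0
    split_ifs
    · positivity
    · exact le_rfl
  have μs : ∀ a, ∑ z ∈ range (5 ^ γ), μ a z = ((U γ r a).card : ℝ) / (u1 + u2) := by
    intro a
    have hsub : U γ r a ⊆ range (5 ^ γ) := Finset.filter_subset _ _
    show ∑ z ∈ range (5 ^ γ), (if z ∈ U γ r a then (u1 + u2)⁻¹ else 0) = _
    rw [← Finset.sum_filter, Finset.filter_mem_eq_inter, Finset.inter_eq_right.2 hsub,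
      Finset.sum_const, nsmul_eq_mul, div_eq_mul_inv]
  have μR : ∀ a z, μ a z ≤ (0.8 : ℝ) / ((5 : ℕ) : ℝ) ^ γ := by
    intro a z
    have h1 : (u1 + u2)⁻¹ ≤ (0.8 : ℝ) / ((5 : ℕ) : ℝ) ^ γ := by
      push_cast
      rw [inv_eq_one_div, div_le_div_iff₀ hu hPr]
      norm_num
      linarith
    show (if z ∈ U γ r a then (u1 + u2)⁻¹ else 0) ≤ _
    split_ifs
    · exact h1
    · exact le_trans (by positivity) h1
  -- the average over the two rows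
  have avg : ∀ m ∈ Q.divisors.erase 1,
      (∑ z ∈ range (5 ^ γ), μ a1 z * f m (Multiset.card (fib 5 γ (C' r a1) (z : ℤ) m))) +
      (∑ z ∈ range (5 ^ γ), μ a2 z * f m (Multiset.card (fib 5 γ (C' r a2) (z : ℤ) m))) ≤
      T γ (f m) := by
    intro m _
    have b1 := hF 5 γ (f m) (fun i => C' r a1 (5 ^ i * m)) (μ a1) 0.8 (by norm_num) (hf1 m)
      (μ0 a1) (by rw [μs]; linarith [hw1]) (μR a1) (by norm_num)
    have b2 := hF 5 γ (f m) (fun i => C' r a2 (5 ^ i * m)) (μ a2) 0.8 (by norm_num) (hf1 m)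
      (μ0 a2) (by rw [μs]; linarith [hw2]) (μR a2) (by norm_num)
    rw [μs] at b1 b2
    simp only [C'_card] at b1 b2
    have o := one hCh hγ (hf1 m) (fun i => tt r a1 (5 ^ i * m)) (fun i => tt r a2 (5 ^ i * m))
      (fun i => tt_le r a1 a2 hab _) _ _ hw hw1 hw2
    refine le_trans (add_le_add b1 b2) (le_trans (le_of_eq ?_) o)
    push_cast
    rfl
  have tot : ∑ z ∈ range (5 ^ γ), μ a1 z * Phi Q f (fib 5 γ (C' r a1) (z : ℤ)) +
      ∑ z ∈ range (5 ^ γ), μ a2 z * Phi Q f (fib 5 γ (C' r a2) (z : ℤ)) ≤ T γ F' := by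
    have e : ∀ a, ∑ z ∈ range (5 ^ γ), μ a z * Phi Q f (fib 5 γ (C' r a) (z : ℤ)) =
        ∑ m ∈ Q.divisors.erase 1, ∑ z ∈ range (5 ^ γ),
          μ a z * f m (Multiset.card (fib 5 γ (C' r a) (z : ℤ) m)) := by
      intro a
      rw [Finset.sum_comm]
      apply Finset.sum_congr rfl
      intro z _
      rw [Phi, Finset.mul_sum]
    rw [e, e, ← Finset.sum_add_distrib]
    refine (Finset.sum_le_sum avg).trans ?_
    rw [T_sum]
    exact T_mono hγ hf2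
  have low : ∀ a, (∀ z ∈ U γ r a, 1 ≤ Phi Q f (fib 5 γ (C' r a) (z : ℤ))) →
      ∑ z ∈ range (5 ^ γ), μ a z ≤
        ∑ z ∈ range (5 ^ γ), μ a z * Phi Q f (fib 5 γ (C' r a) (z : ℤ)) := by
    intro a ha
    apply Finset.sum_le_sum
    intro z _
    by_cases hz : z ∈ U γ r a
    · have := mul_le_mul_of_nonneg_left (ha z hz) (μ0 a z)
      rwa [mul_one] at this
    · have : μ a z = 0 := if_neg hz
      rw [this]; simp
  have l1 := low a1 g1
  have l2 := low a2 g2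
  rw [μs] at l1 l2
  have : T γ F' < 1 := hlt
  linarith

theorem stmtThreeFive : StmtThreeFive :=
  stmtThreeFive_of stmtChord stmtClassCard (stmtFibre stmtChord stmtClassCard) stmtLift

end OddCov
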