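import Pool.Agent.Work.MP_b5285d_nt.Bd.B03
import Pool.Agent.Work.MP_b5285d_nt.Bd.B02

/-!
# 45 divides the lcm of the moduli of a covering system with distinct odd moduli
-/

namespace OddCov

theorem oneP_all : StmtOneP := stmtOneP step_all

theorem stOne_all : StmtStOne := stmtStOne stmtExact oneP_all stmtGrowth stmtQuad

theorem stBlock_all : StmtStBlock := stmtStBlock stmtPath stOne_all

theorem runSound_all : StmtRunSound := stmtRunSound (stmtBlockSound stBlock_all)

theorem tail_all : StmtTail := stmtTail stmtExact oneP_all stmtQuad stmtPath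

theorem st23_all (E : Finset ℕ) : ∀ Q, Rough E 23 Q → St Q (wT V23 K23) ((K23 : ℝ) / SC) :=
  st23 tail_all runSound_all E (stmtDataCounts E)

theorem st7_all : ∀ Q, Rough ∅ 7 Q → St Q (wT V7 K7) ((K7 : ℝ) / SC) :=
  st7 tail_all runSound_all (stmtDataCounts ∅)

theorem main45 (h3 : StmtGrowth3) (S : Finset ℕ) (r : ℕ → ℤ) (hS : ∀ m ∈ S, 1 < m ∧ Odd m)
    (hcov : ∀ x : ℤ, ∃ m ∈ S, x ≡ r m [ZMOD (m : ℤ)]) : 45 ∣ S.lcm id := by
  have hL0 : S.lcm id ≠ 0 := by
    intro h
    obtain ⟨m, hm, h0⟩ := Finset.lcm_eq_zero_iff.1 h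
    have := (hS m hm).1
    simp only [id] at h0
    omega
  have hodd : Odd (S.lcm id) := by
    rw [← Nat.not_even_iff_odd]
    intro he
    have h2 : (2 : ℕ) ∣ S.lcm id := even_iff_two_dvd.1 he
    have : ∀ T : Finset ℕ, (∀ m ∈ T, Odd m) → ¬ 2 ∣ T.lcm id := by
      intro T
      induction T using Finset.induction_on with
      | empty => intro _ h; simp at h
      | insert a T ha ih =>
        intro hT h
        rw [Finset.lcm_insert] at h
        have h1 : ¬ 2 ∣ a := by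
          intro h
          exact (Nat.not_even_iff_odd.2 (hT a (Finset.mem_insert_self a T)))
            (even_iff_two_dvd.2 h)
        have h2 := ih (fun m hm => hT m (Finset.mem_insert_of_mem hm))
        rcases (Nat.Prime.dvd_lcm Nat.prime_two).1 h with h | h
        · exact h1 h
        · exact h2 h
    exact this S (fun m hm => (hS m hm).2) h2
  have hdvd : ∀ m ∈ S, m ∣ S.lcm id := fun m hm => Finset.dvd_lcm (f := id) hm
  have key : ∀ Q : ℕ, 0 < Q → S.lcm id ∣ Q → ¬ ∃ x : ℤ, Avoids Q (fun m => {r m}) x := by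
    intro Q hQ hd hx
    obtain ⟨x, hx⟩ := stmtUse Q S r hQ (fun m hm => ⟨(hS m hm).1, (hdvd m hm).trans hd⟩) hx
    obtain ⟨m, hm, h⟩ := hcov x
    exact hx m hm h
  have h5 : 5 ∣ S.lcm id := by
    by_contra h
    obtain ⟨γ, Q, hγ, hR, hc, hd⟩ := stmtArith5 _ (Nat.pos_of_ne_zero hL0) hodd h
    exact key _ (Nat.mul_pos (pow_pos (by norm_num) _) hR.1) hd
      (stmtFin5 h3 γ Q _ _ r hR.1 hc hγ (st7_all Q hR) num5)
  have h9 : 9 ∣ S.lcm id := by
    by_contra h
    obtain ⟨γ, Q, hγ, hR, hc, hd⟩ := stmtArith9 _ (Nat.pos_of_ne_zero hL0) hodd h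
    exact key _ (Nat.mul_pos (Nat.mul_pos (by norm_num) (pow_pos (by norm_num) _)) hR.1) hd
      (stmtFin9 γ Q _ _ r hR.1 hc hγ (st7_all Q hR) num9)
  have h45 : (45 : ℕ) = 9 * 5 := by norm_num
  rw [h45]
  exact Nat.Coprime.mul_dvd_of_dvd_of_dvd (by norm_num) h9 h5

end OddCov
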