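import Pool.Agent.Work.MP_b5285d_nt.Bd.B04
import Pool.Agent.Work.MP_b5285d_nt.Growth3
import Pool.Agent.Work.MP_b5285d_nt.Coset

/-!
# MP_b5285d_nt: necessary conditions on the lcm of an odd covering system, covering form
-/

namespace OddCov

open Finset

namespace Cap

theorem lcm_odd (S : Finset ℕ) (hS : ∀ m ∈ S, Odd m) : Odd (S.lcm id) := by
  rw [← Nat.not_even_iff_odd]
  intro he
  have h2 : (2 : ℕ) ∣ S.lcm id := even_iff_two_dvd.1 he
  have : ∀ T : Finset ℕ, (∀ m ∈ T, Odd m) → ¬ 2 ∣ T.lcm id := by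
    intro T
    induction T using Finset.induction_on with
    | empty => intro _ h; simp at h
    | insert a T ha ih =>
      intro hT h
      rw [Finset.lcm_insert] at h
      have h1 : ¬ 2 ∣ a := by
        intro h
        exact (Nat.not_even_iff_odd.2 (hT a (Finset.mem_insert_self a T)))
          (even_iff_two_dvd.2 h)
      have h2 := ih (fun m hm => hT m (Finset.mem_insert_of_mem hm))
      rcases (Nat.Prime.dvd_lcm Nat.prime_two).1 h with h | h
      · exact h1 h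
      · exact h2 h
  exact this S hS h2

theorem lcm_pos (S : Finset ℕ) (hS : ∀ m ∈ S, 1 < m) : 0 < S.lcm id := by
  rw [Nat.pos_iff_ne_zero]
  intro h
  obtain ⟨m, hm, h0⟩ := Finset.lcm_eq_zero_iff.1 h
  have := hS m hm
  simp only [id] at h0
  omega

/-- a covering family admits no integer avoiding all the classes of a multiple of its lcm -/
theorem no_avoid (S : Finset ℕ) (r : ℕ → ℤ) (hS : ∀ m ∈ S, 1 < m)
    (hcov : ∀ x : ℤ, ∃ m ∈ S, x ≡ r m [ZMOD (m : ℤ)]) (Q : ℕ) (hQ : 0 < Q) (hd : S.lcm id ∣ Q) :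
    ¬ ∃ x : ℤ, Avoids Q (fun m => {r m}) x := by
  intro hx
  have hdvd : ∀ m ∈ S, m ∣ S.lcm id := fun m hm => Finset.dvd_lcm (f := id) hm
  obtain ⟨x, hx⟩ := stmtUse Q S r hQ (fun m hm => ⟨hS m hm, (hdvd m hm).trans hd⟩) hx
  obtain ⟨m, hm, h⟩ := hcov x
  exact hx m hm h

theorem rc_of (L : ℕ) (hL : 0 < L) (hodd : Odd L) (E : Finset ℕ) (P1 : ℕ)
    (hE : ∀ p ∈ E, ¬ p ∣ L) (hcap : ∀ p, p.Prime → 5 ≤ p → p < P1 → ¬ p ^ 2 ∣ L) :
    RC E P1 5 (ordCompl[3] L) := by
  have hL0 : L ≠ 0 := hL.ne'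
  have hdvd : ordCompl[3] L ∣ L := Nat.ordCompl_dvd L 3
  have h2 : ¬ 2 ∣ L := fun h => (Nat.not_even_iff_odd.2 hodd) (even_iff_two_dvd.2 h)
  have h3 : ¬ 3 ∣ ordCompl[3] L := Nat.not_dvd_ordCompl Nat.prime_three hL0
  have hge : ∀ p, p.Prime → p ∣ ordCompl[3] L → 5 ≤ p := by
    intro p hp hd
    by_contra h
    have := hp.two_le
    have : p = 2 ∨ p = 3 ∨ p = 4 := by omega
    rcases this with rfl | rfl | rfl
    · exact h2 (hd.trans hdvd)
    · exact h3 hd
    · exact absurd hp (by norm_num)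
  refine ⟨⟨Nat.ordCompl_pos 3 hL0, fun p hp hd => ⟨hge p hp hd, fun hE' => hE p hE'
    (hd.trans hdvd)⟩⟩, fun p hp hlt => ?_⟩
  by_contra hcon
  push Not at hcon
  have hd2 : p ^ 2 ∣ ordCompl[3] L :=
    (hp.pow_dvd_iff_le_factorization (Nat.ordCompl_pos 3 hL0).ne').2 hcon
  have hd1 : p ∣ ordCompl[3] L := (dvd_pow_self p (by norm_num)).trans hd2
  exact hcap p hp (hge p hp hd1) hlt (hd2.trans hdvd)

/-- scenario with unlimited exponent of three -/
theorem scenU {S : Finset ℕ} {r : ℕ → ℤ} (hS : ∀ m ∈ S, 1 < m ∧ Odd m)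
    (hcov : ∀ x : ℤ, ∃ m ∈ S, x ≡ r m [ZMOD (m : ℤ)]) {E : Finset ℕ} {P1 : ℕ}
    {seg : List (ℕ × ℕ × ℕ)} {caps : List (ℕ × ℕ)} (hrun : scn seg caps chkU = true)
    (hseg : BlocksOK E 23 seg) (hcaps : CapsOK E P1 (lastA 23 seg) caps)
    (hlast : lastC (lastA 23 seg) caps = 5) (hE : ∀ p ∈ E, ¬ p ∣ S.lcm id)
    (hcap : ∀ p, p.Prime → 5 ≤ p → p < P1 → ¬ p ^ 2 ∣ S.lcm id) : False := by
  have hL := lcm_pos S (fun m hm => (hS m hm).1)
  have hodd := lcm_odd S (fun m hm => (hS m hm).2)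
  have hRC := rc_of _ hL hodd E P1 hE hcap
  obtain ⟨V, K, hSt, hchk⟩ := scn_sound hrun hseg hcaps (ordCompl[3] (S.lcm id))
    (by rw [hlast]; exact hRC)
  have hpos : 0 < ordCompl[3] (S.lcm id) := Nat.ordCompl_pos 3 hL.ne'
  have hx := stmtFin5 stmtGrowth3 ((S.lcm id).factorization 3 + 1) _ _ _ r hpos
    (Nat.coprime_ordCompl Nat.prime_three hL.ne') (by omega) hSt (chkU_sound hchk)
  refine no_avoid S r (fun m hm => (hS m hm).1) hcov _
    (Nat.mul_pos (pow_pos (by norm_num) _) hpos) ?_ hx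
  calc S.lcm id = 3 ^ (S.lcm id).factorization 3 * ordCompl[3] (S.lcm id) :=
        (Nat.ordProj_mul_ordCompl_eq_self _ 3).symm
    _ ∣ _ := Nat.mul_dvd_mul_right (pow_dvd_pow 3 (by omega)) _

/-- scenario with exponent of three at most two -/
theorem scenT {S : Finset ℕ} {r : ℕ → ℤ} (hS : ∀ m ∈ S, 1 < m ∧ Odd m)
    (hcov : ∀ x : ℤ, ∃ m ∈ S, x ≡ r m [ZMOD (m : ℤ)]) {E : Finset ℕ} {P1 : ℕ}
    {seg : List (ℕ × ℕ × ℕ)} {caps : List (ℕ × ℕ)} (hrun : scn seg caps chkT = true)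
    (hseg : BlocksOK E 23 seg) (hcaps : CapsOK E P1 (lastA 23 seg) caps)
    (hlast : lastC (lastA 23 seg) caps = 5) (hE : ∀ p ∈ E, ¬ p ∣ S.lcm id)
    (hcap : ∀ p, p.Prime → 5 ≤ p → p < P1 → ¬ p ^ 2 ∣ S.lcm id) (h27 : ¬ 27 ∣ S.lcm id) :
    False := by
  have hL := lcm_pos S (fun m hm => (hS m hm).1)
  have hodd := lcm_odd S (fun m hm => (hS m hm).2)
  have hRC := rc_of _ hL hodd E P1 hE hcap
  obtain ⟨V, K, hSt, hchk⟩ := scn_sound hrun hseg hcaps (ordCompl[3] (S.lcm id))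
    (by rw [hlast]; exact hRC)
  have hpos : 0 < ordCompl[3] (S.lcm id) := Nat.ordCompl_pos 3 hL.ne'
  have hγ : (S.lcm id).factorization 3 ≤ 2 := by
    by_contra h
    push Not at h
    apply h27
    have : (3 : ℕ) ^ 3 ∣ S.lcm id :=
      (Nat.prime_three.pow_dvd_iff_le_factorization hL.ne').2 h
    simpa using this
  have hx := fin_three ((S.lcm id).factorization 3) _ _ _ r hγ hpos
    (Nat.coprime_ordCompl Nat.prime_three hL.ne') hSt (chkT_sound hchk)
  refine no_avoid S r (fun m hm => (hS m hm).1) hcov _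
    (Nat.mul_pos (pow_pos (by norm_num) _) hpos) ?_ hx
  rw [Nat.ordProj_mul_ordCompl_eq_self]

theorem no_cap (L : ℕ) : ∀ p : ℕ, p.Prime → 5 ≤ p → p < 5 → ¬ p ^ 2 ∣ L :=
  fun _ _ h1 h2 => absurd h2 (not_lt.2 h1)

theorem cap5 {L : ℕ} (h : ¬ 25 ∣ L) : ∀ p : ℕ, p.Prime → 5 ≤ p → p < 7 → ¬ p ^ 2 ∣ L := by
  intro p hp h1 h2 hd
  have : p = 5 ∨ p = 6 := by omega
  rcases this with rfl | rfl
  · exact h (by simpa using hd)
  · exact absurd hp (by norm_num)

theorem seven {S : Finset ℕ} {r : ℕ → ℤ} (hS : ∀ m ∈ S, 1 < m ∧ Odd m)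
    (hcov : ∀ x : ℤ, ∃ m ∈ S, x ≡ r m [ZMOD (m : ℤ)]) (h7 : ¬ 7 ∣ S.lcm id) :
    3 ^ 3 * 5 ^ 2 * 11 * 13 * 17 * 19 ∣ S.lcm id := by
  have d27 : 27 ∣ S.lcm id := by
    by_contra h
    exact scenT hS hcov (E := {7}) (P1 := 5) run_s1
      (by simp only [BlocksOK]; decide +kernel) trivial rfl
      (by simpa using h7) (no_cap _) h
  have d25 : 25 ∣ S.lcm id := by
    by_contra h
    exact scenU hS hcov (E := {7}) (P1 := 7) run_s2
      (by simp only [BlocksOK]; decide +kernel)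
      ⟨by norm_num, by norm_num, by
        intro q hq h1 h2
        simp only [lastA] at h2
        have : q = 6 ∨ q = 7 ∨ q = 8 ∨ q = 9 ∨ q = 10 := by omega
        rcases this with rfl | rfl | rfl | rfl | rfl
        · exact absurd hq (by norm_num)
        · simp
        · exact absurd hq (by norm_num)
        · exact absurd hq (by norm_num)
        · exact absurd hq (by norm_num), trivial⟩ rfl
      (by simpa using h7) (cap5 h)
  have d11 : 11 ∣ S.lcm id := by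
    by_contra h
    exact scenU hS hcov (E := {7, 11}) (P1 := 5) run_s3
      (by simp only [BlocksOK]; decide +kernel) trivial rfl
      (by simpa using ⟨h7, h⟩) (no_cap _)
  have d13 : 13 ∣ S.lcm id := by
    by_contra h
    exact scenU hS hcov (E := {7, 13}) (P1 := 5) run_s4
      (by simp only [BlocksOK]; decide +kernel) trivial rfl
      (by simpa using ⟨h7, h⟩) (no_cap _)
  have d17 : 17 ∣ S.lcm id := by
    by_contra h
    exact scenU hS hcov (E := {7, 17}) (P1 := 5) run_s5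
      (by simp only [BlocksOK]; decide +kernel) trivial rfl
      (by simpa using ⟨h7, h⟩) (no_cap _)
  have d19 : 19 ∣ S.lcm id := by
    by_contra h
    exact scenU hS hcov (E := {7, 19}) (P1 := 5) run_s6
      (by simp only [BlocksOK]; decide +kernel) trivial rfl
      (by simpa using ⟨h7, h⟩) (no_cap _)
  have c1 : 27 * 25 ∣ S.lcm id := Nat.Coprime.mul_dvd_of_dvd_of_dvd (by norm_num) d27 d25
  have c2 : 27 * 25 * 11 ∣ S.lcm id := Nat.Coprime.mul_dvd_of_dvd_of_dvd (by norm_num) c1 d11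
  have c3 : 27 * 25 * 11 * 13 ∣ S.lcm id := Nat.Coprime.mul_dvd_of_dvd_of_dvd (by norm_num) c2 d13
  have c4 : 27 * 25 * 11 * 13 * 17 ∣ S.lcm id :=
    Nat.Coprime.mul_dvd_of_dvd_of_dvd (by norm_num) c3 d17
  have c5 : 27 * 25 * 11 * 13 * 17 * 19 ∣ S.lcm id :=
    Nat.Coprime.mul_dvd_of_dvd_of_dvd (by norm_num) c4 d19
  simpa using c5

theorem square {S : Finset ℕ} {r : ℕ → ℤ} (hS : ∀ m ∈ S, 1 < m ∧ Odd m)
    (hcov : ∀ x : ℤ, ∃ m ∈ S, x ≡ r m [ZMOD (m : ℤ)]) (h27 : ¬ 27 ∣ S.lcm id) :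
    ∃ p, p.Prime ∧ 5 ≤ p ∧ p ≤ 17 ∧ p ^ 2 ∣ S.lcm id := by
  by_contra hcon
  push Not at hcon
  refine scenT hS hcov (E := ∅) (P1 := 19) run_s7 (by simp only [BlocksOK]; decide +kernel)
    ?_ rfl (by simp) ?_ h27
  · have key : ∀ a b : ℕ, (∀ q ∈ Finset.Ioo a b, ¬ q.Prime) →
        ∀ q, q.Prime → a < q → q < b → q ∈ (∅ : Finset ℕ) := by
      intro a b h q hq h1 h2
      exact absurd hq (h q (Finset.mem_Ioo.2 ⟨h1, h2⟩))
    refine ⟨by norm_num, by norm_num, key 17 19 (by decide), by norm_num, by norm_num,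
      key 13 17 (by decide), by norm_num, by norm_num, key 11 13 (by decide), by norm_num,
      by norm_num, key 7 11 (by decide), by norm_num, by norm_num, key 5 7 (by decide), trivial⟩
  · intro p hp h5 hlt hd
    have : p ≤ 17 ∨ p = 18 := by omega
    rcases this with h | rfl
    · exact hcon p hp h5 h hd
    · exact absurd hp (by norm_num)

theorem three_five {S : Finset ℕ} {r : ℕ → ℤ} (hS : ∀ m ∈ S, 1 < m ∧ Odd m)
    (hcov : ∀ x : ℤ, ∃ m ∈ S, x ≡ r m [ZMOD (m : ℤ)]) (h27 : ¬ 27 ∣ S.lcm id)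
    (h25 : ¬ 25 ∣ S.lcm id) : 7 * 11 * 13 ∣ S.lcm id := by
  have d7 : 7 ∣ S.lcm id := by
    by_contra h
    refine h27 (dvd_trans ?_ (seven hS hcov h))
    norm_num
  have d11 : 11 ∣ S.lcm id := by
    by_contra h
    exact scenT hS hcov (E := {11}) (P1 := 7) run_s8
      (by simp only [BlocksOK]; decide +kernel)
      ⟨by norm_num, by norm_num, by
        intro q hq h1 h2
        simp only [lastA] at h2
        have : q = 6 := by omega
        subst this
        exact absurd hq (by norm_num), trivial⟩ rfl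
      (by simpa using h) (cap5 h25) h27
  have d13 : 13 ∣ S.lcm id := by
    by_contra h
    exact scenT hS hcov (E := {13}) (P1 := 7) run_s9
      (by simp only [BlocksOK]; decide +kernel)
      ⟨by norm_num, by norm_num, by
        intro q hq h1 h2
        simp only [lastA] at h2
        have : q = 6 := by omega
        subst this
        exact absurd hq (by norm_num), trivial⟩ rfl
      (by simpa using h) (cap5 h25) h27
  exact Nat.Coprime.mul_dvd_of_dvd_of_dvd (by norm_num)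
    (Nat.Coprime.mul_dvd_of_dvd_of_dvd (by norm_num) d7 d11) d13

end Cap

end OddCov
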