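import Pool.Agent.Work.MP_b5285d_nt.CertReal

/-!
# The numerical certificate: one block of primes
-/

namespace OddCov

open Finset

/-- there is a potential below `V` on the 3-smooth numbers and below `K t ^ 2` everywhere -/
def Below (V : ℕ → ℕ → ℝ) (K : ℝ) (Q : ℕ) : Prop :=
  ∃ F : ℕ → ℝ, Conv F ∧ Good Q F ∧ (∀ t : ℕ, F t ≤ K * (t : ℝ) ^ 2) ∧
    ∀ i j : ℕ, F (2 ^ i * 3 ^ j) ≤ V i j

theorem Below.mono {V V' : ℕ → ℕ → ℝ} {K K' : ℝ} {Q : ℕ} (h : Below V K Q)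
    (hV : ∀ i j, V i j ≤ V' i j) (hK : K ≤ K') : Below V' K' Q := by
  obtain ⟨F, h1, h2, h3, h4⟩ := h
  exact ⟨F, h1, h2, fun t => (h3 t).trans (mul_le_mul_of_nonneg_right hK (by positivity)),
    fun i j => (h4 i j).trans (hV i j)⟩

/-- growth of the entry `2 ^ i * 3 ^ j` caused by one prime `≥ a` -/
noncomputable def grow (a s0 : ℕ) (V U : ℕ → ℕ → ℝ) (Kh : ℝ) (i j : ℕ) : ℝ :=
  rho a s0 (2 ^ i * 3 ^ j) * Xbd ((a : ℝ)⁻¹) (Kh * ((2 ^ i * 3 ^ j : ℕ) : ℝ) ^ 2) (V i j)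
    (U (i + 1) j) (U i (j + 1)) (U (i + 2) j) (U (i + 1) (j + 1)) + hin a s0 (2 ^ i * 3 ^ j)

/-- the conditions on a block `(a, n, s0)`; `U`, `Kh` bound the path from `V`, `K` to `V'`, `K'` -/
structure BlockOK (a n s0 : ℕ) (V V' U : ℕ → ℕ → ℝ) (K K' Kh : ℝ) : Prop where
  ha : 7 ≤ a
  hn : 1 ≤ n
  hs1 : 1 ≤ s0
  hs : s0 + 2 ≤ a
  hK0 : 0 ≤ K
  hKK : K ≤ K'
  hVV : ∀ i j, V i j ≤ V' i j
  hU : ∀ k : ℕ, k < n → ∀ i j, V i j + (k : ℝ) / n * (V' i j - V i j) ≤ U i j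
  hKh : ∀ k : ℕ, k < n → K + (k : ℝ) / n * (K' - K) ≤ Kh
  hside : 6 * Kh * ((s0 : ℝ) - 1) ^ 2 * ((a : ℝ) - 1) ≤ ((a : ℝ) - s0) * a
  hK : (n : ℝ) * (Kh * ((3 * a - 1) / (((a : ℝ) - 1) * ((a : ℝ) - 1 - s0))) +
    1 / (4 * s0 * ((a : ℝ) - 1 - s0))) ≤ K' - K
  htab : ∀ i j, (n : ℝ) * grow a s0 V U Kh i j ≤ V' i j - V i j ∨
    (V i j = K * ((2 ^ i * 3 ^ j : ℕ) : ℝ) ^ 2 ∧ V' i j = K' * ((2 ^ i * 3 ^ j : ℕ) : ℝ) ^ 2)

theorem rho_le_max {a s0 : ℕ} (hs : s0 + 2 ≤ a) (t : ℕ) :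
    rho a s0 t ≤ ((a : ℝ) - 1) / ((a : ℝ) - 1 - s0) := by
  unfold rho
  have h1 : ((min t s0 : ℕ) : ℝ) ≤ s0 := by exact_mod_cast min_le_right t s0
  have h2 : (s0 : ℝ) + 2 ≤ a := by exact_mod_cast hs
  have h3 : (0 : ℝ) ≤ s0 := Nat.cast_nonneg _
  exact div_le_div_of_nonneg_left (by linarith) (by linarith) (by linarith)

theorem rho_mul_inv_le {a s0 : ℕ} (hs : s0 + 2 ≤ a) (t : ℕ) : rho a s0 t * (a : ℝ)⁻¹ ≤ 1 := by
  have h2 : (s0 : ℝ) + 2 ≤ a := by exact_mod_cast hs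
  have h3 : (0 : ℝ) ≤ s0 := Nat.cast_nonneg _
  have h := rho_le_max hs t
  have h4 : ((a : ℝ) - 1) / ((a : ℝ) - 1 - s0) ≤ a := by
    rw [div_le_iff₀ (by linarith)]
    nlinarith
  rw [← div_eq_mul_inv, div_le_one (by linarith)]
  exact h.trans h4

theorem hin_le {a s0 : ℕ} (hs1 : 1 ≤ s0) (hs : s0 + 2 ≤ a) (t : ℕ) :
    hin a s0 t ≤ (t : ℝ) ^ 2 * (1 / (4 * s0 * ((a : ℝ) - 1 - s0))) := by
  unfold hin
  have h2 : (s0 : ℝ) + 2 ≤ a := by exact_mod_cast hs
  have h3 : (1 : ℝ) ≤ s0 := by exact_mod_cast hs1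
  have h5 : ((t - s0 : ℕ) : ℝ) ≤ (t : ℝ) ^ 2 / (4 * s0) := by
    rw [le_div_iff₀ (by linarith)]
    rcases le_total s0 t with h | h
    · rw [Nat.cast_sub h]
      nlinarith [sq_nonneg ((t : ℝ) - 2 * s0)]
    · rw [Nat.sub_eq_zero_of_le h]
      simp only [Nat.cast_zero, zero_mul]
      positivity
  have h6 : 0 < (a : ℝ) - 1 - s0 := by linarith
  calc ((t - s0 : ℕ) : ℝ) / ((a : ℝ) - 1 - s0) ≤ ((t : ℝ) ^ 2 / (4 * s0)) / ((a : ℝ) - 1 - s0) :=
        div_le_div_of_nonneg_right h5 h6.le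
    _ = _ := by
        field_simp

/-- one prime of the block -/
theorem block_step (hstep : StmtStep) {a n s0 : ℕ} {V V' U : ℕ → ℕ → ℝ} {K K' Kh : ℝ}
    (hok : BlockOK a n s0 V V' U K K' Kh) {k : ℕ} (hk : k < n) {p γ Q : ℕ} (hp : p.Prime)
    (hc : Nat.Coprime p Q) (hQ : 0 < Q) (hap : a ≤ p)
    (hB : Below (fun i j => V i j + (k : ℝ) / n * (V' i j - V i j)) (K + (k : ℝ) / n * (K' - K)) Q) :
    Below (fun i j => V i j + ((k + 1 : ℕ) : ℝ) / n * (V' i j - V i j))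
      (K + ((k + 1 : ℕ) : ℝ) / n * (K' - K)) (p ^ γ * Q) := by
  obtain ⟨F, hF, hG, hFK, hFV⟩ := hB
  have hn0 : (0 : ℝ) < n := by exact_mod_cast hok.hn
  have ha' : (7 : ℝ) ≤ a := by exact_mod_cast hok.ha
  have hs1' : (1 : ℝ) ≤ s0 := by exact_mod_cast hok.hs1
  have hs' : (s0 : ℝ) + 2 ≤ a := by exact_mod_cast hok.hs
  have hkn0 : 0 ≤ (k : ℝ) / n := by positivity
  set Kk : ℝ := K + (k : ℝ) / n * (K' - K) with hKk
  have hKk0 : 0 ≤ Kk := by
    have h1 := hok.hK0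
    have h2 := hok.hKK
    have h3 : 0 ≤ (k : ℝ) / n * (K' - K) := mul_nonneg hkn0 (by linarith)
    linarith
  have hKkh : Kk ≤ Kh := hok.hKh k hk
  have hside' : 6 * Kk * ((s0 : ℝ) - 1) ^ 2 * ((a : ℝ) - 1) ≤ ((a : ℝ) - s0) * a := by
    refine le_trans ?_ hok.hside
    have h1 : 0 ≤ ((s0 : ℝ) - 1) ^ 2 * ((a : ℝ) - 1) := by
      have : 0 ≤ (a : ℝ) - 1 := by linarith
      positivity
    nlinarith [mul_le_mul_of_nonneg_right hKkh h1]
  obtain ⟨F', hF', hG', hle⟩ := step_real hstep (γ := γ) hp hc hQ hok.ha hap hok.hs1 hok.hs hF hG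
    hKk0 hFK hside'
  have hsucc : ∀ A B : ℝ, A + ((k + 1 : ℕ) : ℝ) / n * B = A + (k : ℝ) / n * B + B / n := by
    intro A B
    push_cast
    field_simp
    ring
  have ha2 : 2 ≤ a := le_trans (by norm_num) hok.ha
  have hKpart : ∀ t : ℕ, F' t ≤ (K + ((k + 1 : ℕ) : ℝ) / n * (K' - K)) * (t : ℝ) ^ 2 := by
    intro t
    have h1 := hle t
    have h2 := Xop_le_K (a := a) (γ := γ) ha2 hKk0 hFK t
    have h3 := rho_pos hok.hs t
    have h4 := rho_le_max hok.hs t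
    have h5 := rho_mul_inv_le hok.hs t
    have h6 := hin_le hok.hs1 hok.hs t
    have h7 := hFK t
    set r := rho a s0 t
    set T : ℝ := (t : ℝ) ^ 2 with hT
    have hT0 : 0 ≤ T := by positivity
    have h8 : r * Xop a γ F t ≤
        r * (-(F t / a) + Kk * T * ((a : ℝ)⁻¹ + (3 * a - 1) / ((a : ℝ) - 1) ^ 2)) :=
      mul_le_mul_of_nonneg_left h2 h3.le
    have h9 : F t * (1 - r * (a : ℝ)⁻¹) ≤ Kk * T * (1 - r * (a : ℝ)⁻¹) :=
      mul_le_mul_of_nonneg_right h7 (by linarith)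
    have h10 : F t + r * (-(F t / a) + Kk * T * ((a : ℝ)⁻¹ + (3 * a - 1) / ((a : ℝ) - 1) ^ 2)) =
        F t * (1 - r * (a : ℝ)⁻¹) + Kk * T * (r * (a : ℝ)⁻¹) +
          r * (Kk * T * ((3 * a - 1) / ((a : ℝ) - 1) ^ 2)) := by
      rw [div_eq_mul_inv (F t) (a : ℝ)]
      ring
    have h11 : r * (Kk * T * ((3 * a - 1) / ((a : ℝ) - 1) ^ 2)) ≤
        ((a : ℝ) - 1) / ((a : ℝ) - 1 - s0) * (Kh * T * ((3 * a - 1) / ((a : ℝ) - 1) ^ 2)) := by
      have h12 : 0 ≤ ((3 : ℝ) * a - 1) / ((a : ℝ) - 1) ^ 2 :=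
        div_nonneg (by linarith) (by positivity)
      refine mul_le_mul h4 ?_ (by positivity) (h3.le.trans h4)
      exact mul_le_mul_of_nonneg_right (mul_le_mul_of_nonneg_right hKkh hT0) h12
    have h13 : ((a : ℝ) - 1) / ((a : ℝ) - 1 - s0) * (Kh * T * ((3 * a - 1) / ((a : ℝ) - 1) ^ 2)) =
        T * (Kh * ((3 * a - 1) / (((a : ℝ) - 1) * ((a : ℝ) - 1 - s0)))) := by
      have e1 : (a : ℝ) - 1 ≠ 0 := by
        have : 0 < (a : ℝ) - 1 := by linarith
        exact this.ne'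
      have e2 : (a : ℝ) - 1 - s0 ≠ 0 := by
        have : 0 < (a : ℝ) - 1 - s0 := by linarith
        exact this.ne'
      field_simp
    have h14 := hok.hK
    have h15 : T * (Kh * ((3 * a - 1) / (((a : ℝ) - 1) * ((a : ℝ) - 1 - s0))) +
        1 / (4 * s0 * ((a : ℝ) - 1 - s0))) ≤ T * ((K' - K) / n) := by
      refine mul_le_mul_of_nonneg_left ?_ hT0
      rw [le_div_iff₀ hn0, mul_comm]
      exact h14
    rw [hsucc]
    rw [← hKk]
    have h16 : (Kk + (K' - K) / n) * T = Kk * T + T * ((K' - K) / n) := by ring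
    rw [h16]
    rw [mul_add] at h15
    linarith
  refine ⟨F', hF', hG', hKpart, ?_⟩
  · intro i j
    show F' (2 ^ i * 3 ^ j) ≤ V i j + ((k + 1 : ℕ) : ℝ) / n * (V' i j - V i j)
    rcases hok.htab i j with htab | ⟨e1, e2⟩
    · set t := 2 ^ i * 3 ^ j with ht
      have h1 := hle t
      have h2 := Xop_le_bd (a := a) (γ := γ) ha2 hF hKk0 hFK t
      have h3 := rho_pos hok.hs t
      have h5 := rho_mul_inv_le hok.hs t
      have hx0 : (0 : ℝ) ≤ (a : ℝ)⁻¹ := by positivity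
      have hx1 : (a : ℝ)⁻¹ < 1 := inv_lt_one' (by have := hok.ha; omega)
      have hFt : F t ≤ V i j + (k : ℝ) / n * (V' i j - V i j) := hFV i j
      set Vk : ℝ := V i j + (k : ℝ) / n * (V' i j - V i j) with hVk
      have hVVk : V i j ≤ Vk := by
        have h6 : 0 ≤ (k : ℝ) / n * (V' i j - V i j) :=
          mul_nonneg hkn0 (by have := hok.hVV i j; linarith)
        linarith
      have u2 : F (2 * t) ≤ U (i + 1) j := by
        have e : 2 * t = 2 ^ (i + 1) * 3 ^ j := by rw [ht]; ring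
        rw [e]
        exact (hFV (i + 1) j).trans (hok.hU k hk (i + 1) j)
      have u3 : F (3 * t) ≤ U i (j + 1) := by
        have e : 3 * t = 2 ^ i * 3 ^ (j + 1) := by rw [ht]; ring
        rw [e]
        exact (hFV i (j + 1)).trans (hok.hU k hk i (j + 1))
      have u4 : F (4 * t) ≤ U (i + 2) j := by
        have e : 4 * t = 2 ^ (i + 2) * 3 ^ j := by rw [ht]; ring
        rw [e]
        exact (hFV (i + 2) j).trans (hok.hU k hk (i + 2) j)
      have u6 : F (6 * t) ≤ U (i + 1) (j + 1) := by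
        have e : 6 * t = 2 ^ (i + 1) * 3 ^ (j + 1) := by rw [ht]; ring
        rw [e]
        exact (hFV (i + 1) (j + 1)).trans (hok.hU k hk (i + 1) (j + 1))
      have hT : Kk * (t : ℝ) ^ 2 ≤ Kh * (t : ℝ) ^ 2 :=
        mul_le_mul_of_nonneg_right hKkh (by positivity)
      have h7 : Xbd ((a : ℝ)⁻¹) (Kk * (t : ℝ) ^ 2) (F t) (F (2 * t)) (F (3 * t)) (F (4 * t))
          (F (6 * t)) ≤ Xbd ((a : ℝ)⁻¹) (Kh * (t : ℝ) ^ 2) (F t) (U (i + 1) j) (U i (j + 1))
          (U (i + 2) j) (U (i + 1) (j + 1)) :=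
        Xbd_mono hx0 hx1 hT le_rfl u2 u3 u4 u6
      have h8 : ∀ w : ℝ, Xbd ((a : ℝ)⁻¹) (Kh * (t : ℝ) ^ 2) w (U (i + 1) j) (U i (j + 1))
          (U (i + 2) j) (U (i + 1) (j + 1)) = Xbd ((a : ℝ)⁻¹) (Kh * (t : ℝ) ^ 2) (V i j)
          (U (i + 1) j) (U i (j + 1)) (U (i + 2) j) (U (i + 1) (j + 1)) -
            (a : ℝ)⁻¹ * (w - V i j) := by
        intro w
        unfold Xbd
        ring
      have h9 : rho a s0 t * Xop a γ F t ≤ rho a s0 t * (Xbd ((a : ℝ)⁻¹) (Kh * (t : ℝ) ^ 2) (V i j)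
          (U (i + 1) j) (U i (j + 1)) (U (i + 2) j) (U (i + 1) (j + 1)) -
            (a : ℝ)⁻¹ * (F t - V i j)) := by
        refine mul_le_mul_of_nonneg_left ?_ h3.le
        rw [← h8]
        exact h2.trans h7
      have h10 : F t - rho a s0 t * ((a : ℝ)⁻¹ * (F t - V i j)) ≤ Vk := by
        have h11 : F t - rho a s0 t * ((a : ℝ)⁻¹ * (F t - V i j)) =
            F t * (1 - rho a s0 t * (a : ℝ)⁻¹) + rho a s0 t * (a : ℝ)⁻¹ * V i j := by ring
        rw [h11]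
        have h12 : F t * (1 - rho a s0 t * (a : ℝ)⁻¹) ≤ Vk * (1 - rho a s0 t * (a : ℝ)⁻¹) :=
          mul_le_mul_of_nonneg_right hFt (by linarith)
        have h13 : rho a s0 t * (a : ℝ)⁻¹ * V i j ≤ rho a s0 t * (a : ℝ)⁻¹ * Vk :=
          mul_le_mul_of_nonneg_left hVVk (by positivity)
        linarith
      have h14 : grow a s0 V U Kh i j ≤ (V' i j - V i j) / n := by
        rw [le_div_iff₀ hn0, mul_comm]
        exact htab
      unfold grow at h14
      rw [← ht] at h14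
      rw [hsucc, ← hVk]
      linarith
    · have h1 := hKpart (2 ^ i * 3 ^ j)
      rw [e1, e2]
      refine h1.trans (le_of_eq ?_)
      ring

/-- one block -/
theorem block_real (hstep : StmtStep) {a b n s0 : ℕ} {V V' U : ℕ → ℕ → ℝ} {K K' Kh : ℝ}
    (hok : BlockOK a n s0 V V' U K K' Kh) (hcount : ((Ico a b).filter Nat.Prime).card ≤ n)
    (hb : ∀ Q : ℕ, 0 < Q → (∀ p : ℕ, p.Prime → p ∣ Q → b ≤ p) → Below V K Q) :
    ∀ Q : ℕ, 0 < Q → (∀ p : ℕ, p.Prime → p ∣ Q → a ≤ p) → Below V' K' Q := by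
  have hn0 : (0 : ℝ) < n := by exact_mod_cast hok.hn
  have main : ∀ k : ℕ, k ≤ n → ∀ Q : ℕ, 0 < Q → (∀ p : ℕ, p.Prime → p ∣ Q → a ≤ p) →
      (Q.primeFactors.filter (· < b)).card ≤ k →
      Below (fun i j => V i j + (k : ℝ) / n * (V' i j - V i j)) (K + (k : ℝ) / n * (K' - K)) Q := by
    intro k
    induction k with
    | zero =>
      intro _ Q hQ hQa hcard
      have he : Q.primeFactors.filter (· < b) = ∅ := Finset.card_eq_zero.mp (Nat.le_zero.mp hcard)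
      have hbig : ∀ p : ℕ, p.Prime → p ∣ Q → b ≤ p := by
        intro p hp hpQ
        by_contra hlt
        have : p ∈ Q.primeFactors.filter (· < b) := by
          rw [mem_filter, Nat.mem_primeFactors]
          exact ⟨⟨hp, hpQ, hQ.ne'⟩, not_le.mp hlt⟩
        rw [he] at this
        exact absurd this (Finset.notMem_empty p)
      have h := hb Q hQ hbig
      simpa using h
    | succ k ih =>
      intro hkn Q hQ hQa hcard
      by_cases hle : (Q.primeFactors.filter (· < b)).card ≤ k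
      · refine (ih (by omega) Q hQ hQa hle).mono ?_ ?_
        · intro i j
          have h1 := hok.hVV i j
          have h2 : (k : ℝ) / n ≤ ((k + 1 : ℕ) : ℝ) / n :=
            div_le_div_of_nonneg_right (by push_cast; linarith) hn0.le
          have h3 : 0 ≤ V' i j - V i j := by linarith
          have := mul_le_mul_of_nonneg_right h2 h3
          linarith
        · have h1 := hok.hKK
          have h2 : (k : ℝ) / n ≤ ((k + 1 : ℕ) : ℝ) / n :=
            div_le_div_of_nonneg_right (by push_cast; linarith) hn0.le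
          have h3 : 0 ≤ K' - K := by linarith
          have := mul_le_mul_of_nonneg_right h2 h3
          linarith
      · have hne : (Q.primeFactors.filter (· < b)).Nonempty := by
          rw [← Finset.card_pos]
          omega
        obtain ⟨p, hpm⟩ := hne
        have hpm' := hpm
        rw [mem_filter, Nat.mem_primeFactors] at hpm'
        obtain ⟨⟨hp, hpQ, _⟩, hpb⟩ := hpm'
        have hQ1 : 0 < ordCompl[p] Q := Nat.ordCompl_pos p hQ.ne'
        have hcop : Nat.Coprime p (ordCompl[p] Q) := Nat.coprime_ordCompl hp hQ.ne'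
        have hdvd : ordCompl[p] Q ∣ Q := Nat.ordCompl_dvd Q p
        have hsub : (ordCompl[p] Q).primeFactors.filter (· < b) ⊆
            (Q.primeFactors.filter (· < b)).erase p := by
          intro q hq
          rw [mem_filter, Nat.mem_primeFactors] at hq
          rw [mem_erase, mem_filter, Nat.mem_primeFactors]
          refine ⟨?_, ⟨hq.1.1, hq.1.2.1.trans hdvd, hQ.ne'⟩, hq.2⟩
          intro hqp
          rw [hqp] at hq
          exact (hp.coprime_iff_not_dvd.mp hcop) hq.1.2.1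
        have hc1 : ((ordCompl[p] Q).primeFactors.filter (· < b)).card ≤ k := by
          have h1 := Finset.card_le_card hsub
          rw [Finset.card_erase_of_mem hpm] at h1
          omega
        have h2 := ih (by omega) (ordCompl[p] Q) hQ1
          (fun q hq hqd => hQa q hq (hqd.trans hdvd)) hc1
        have h3 := block_step hstep hok (γ := Q.factorization p) (show k < n by omega) hp hcop hQ1
          (hQa p hp hpQ) h2
        rwa [Nat.ordProj_mul_ordCompl_eq_self Q p] at h3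
  intro Q hQ hQa
  have hcard : (Q.primeFactors.filter (· < b)).card ≤ n := by
    refine le_trans (Finset.card_le_card ?_) hcount
    intro q hq
    rw [mem_filter, Nat.mem_primeFactors] at hq
    rw [mem_filter, mem_Ico]
    exact ⟨⟨hQa q hq.1.1 hq.1.2.1, hq.2⟩, hq.1.1⟩
  have h := main n le_rfl Q hQ hQa hcard
  refine h.mono ?_ ?_
  · intro i j
    rw [div_self hn0.ne']
    apply le_of_eq
    ring
  · rw [div_self hn0.ne']
    apply le_of_eq
    ring

end OddCov
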