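import Pool.Agent.Work.MP_b5285d_nt.CertDefs
import Pool.Agent.Work.MP_b5285d_nt.Bd.B01

/-!
# MP_b5285d_nt: the prime counts of the blocks (item N2)
-/

namespace OddCov

theorem counts_of_listOK : ∀ (l : List (ℕ × ℕ × ℕ)) (b : ℕ), listOK b l = true → Counts b l := by
  intro l
  induction l with
  | nil => intro b _; exact trivial
  | cons x l ih =>
    obtain ⟨a, n, s⟩ := x
    intro b h
    rw [listOK, Bool.and_eq_true] at h
    exact ⟨card_of_bndOK h.1, ih a h.2⟩

theorem listOK_blocks : listOK 1000000 blocks = true := by decide +kernel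

/-- N2 -/
theorem stmtCounts : StmtCounts := counts_of_listOK _ _ listOK_blocks

end OddCov
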