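import Pool.Agent.Work.MP_b5285d_nt.CertSound

/-!
# The numerical certificate: the run

The table starts from `K t ^ 2` with `K = 6 / 10 ^ 7` (scale `10 ^ 14`) at `10 ^ 6` and is followed
down to `7` through the 273 blocks of `blocks`.
-/

namespace OddCov

open Finset

/-- the initial table -/
def initRows (K : ℕ) (lens : List ℕ) : List (List ℕ) :=
  (List.range lens.length).map fun i =>
    (List.range (lens.getD i 0)).map fun j => K * (2 ^ i * 3 ^ j) ^ 2

theorem tab_init (K : ℕ) (lens : List ℕ) (i j : ℕ) :
    tab (initRows K lens) K i j = K * (2 ^ i * 3 ^ j) ^ 2 := by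
  unfold tab initRows
  rcases Nat.lt_or_ge i lens.length with hi | hi
  · have h1 : ((List.range lens.length).map fun i =>
        (List.range (lens.getD i 0)).map fun j => K * (2 ^ i * 3 ^ j) ^ 2).getD i [] =
        (List.range (lens.getD i 0)).map fun j => K * (2 ^ i * 3 ^ j) ^ 2 := by
      rw [List.getD_eq_getElem _ _ (by simpa using hi)]
      simp
    rw [h1]
    rcases Nat.lt_or_ge j (lens.getD i 0) with hj | hj
    · rw [List.getD_eq_getElem _ _ (by rw [List.length_map, List.length_range]; exact hj)]
      simp
    · exact List.getD_eq_default _ _ (by rw [List.length_map, List.length_range]; exact hj)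
  · have h1 : ((List.range lens.length).map fun i =>
        (List.range (lens.getD i 0)).map fun j => K * (2 ^ i * 3 ^ j) ^ 2).getD i [] = [] :=
      List.getD_eq_default _ _ (by simpa using hi)
    rw [h1]
    rfl

/-- lengths of the rows: the numbers `2 ^ i * 3 ^ j ≤ 200000` -/
def lens0 : List ℕ := [12, 11, 10, 10, 9, 8, 8, 7, 7, 6, 5, 5, 4, 3, 3, 2, 2, 1]

/-- the initial table, explicitly -/
def rows0 : List (List ℕ) :=
  [[60000000, 540000000, 4860000000, 43740000000, 393660000000, 3542940000000, 31886460000000,
      286978140000000, 2582803260000000, 23245229340000000, 209207064060000000,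
      1882863576540000000],
    [240000000, 2160000000, 19440000000, 174960000000, 1574640000000, 14171760000000,
      127545840000000, 1147912560000000, 10331213040000000, 92980917360000000, 836828256240000000],
    [960000000, 8640000000, 77760000000, 699840000000, 6298560000000, 56687040000000,
      510183360000000, 4591650240000000, 41324852160000000, 371923669440000000],
    [3840000000, 34560000000, 311040000000, 2799360000000, 25194240000000, 226748160000000,
      2040733440000000, 18366600960000000, 165299408640000000, 1487694677760000000],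
    [15360000000, 138240000000, 1244160000000, 11197440000000, 100776960000000, 906992640000000,
      8162933760000000, 73466403840000000, 661197634560000000],
    [61440000000, 552960000000, 4976640000000, 44789760000000, 403107840000000, 3627970560000000,
      32651735040000000, 293865615360000000],
    [245760000000, 2211840000000, 19906560000000, 179159040000000, 1612431360000000,
      14511882240000000, 130606940160000000, 1175462461440000000],
    [983040000000, 8847360000000, 79626240000000, 716636160000000, 6449725440000000,
      58047528960000000, 522427760640000000],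
    [3932160000000, 35389440000000, 318504960000000, 2866544640000000, 25798901760000000,
      232190115840000000, 2089711042560000000],
    [15728640000000, 141557760000000, 1274019840000000, 11466178560000000, 103195607040000000,
      928760463360000000],
    [62914560000000, 566231040000000, 5096079360000000, 45864714240000000, 412782428160000000],
    [251658240000000, 2264924160000000, 20384317440000000, 183458856960000000, 1651129712640000000],
    [1006632960000000, 9059696640000000, 81537269760000000, 733835427840000000],
    [4026531840000000, 36238786560000000, 326149079040000000],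
    [16106127360000000, 144955146240000000, 1304596316160000000],
    [64424509440000000, 579820584960000000],
    [257698037760000000, 2319282339840000000],
    [1030792151040000000]]

theorem rows0_eq : rows0 = initRows 60000000 lens0 := by
  decide +kernel

/-- the final check -/
noncomputable def finalCheck (R : List (List ℕ)) (K : ℕ) : Bool :=
  and (Nat.ble K 36840000000000) <|
  and (Nat.ble (tab R K 0 0) 3940000000000) <|
  and (Nat.ble (tab R K 1 0) 42430000000000) <|
  and (Nat.ble (tab R K 0 1) 160150000000000) <|
  and (Nat.ble (tab R K 2 0) 305860000000000) <|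
  and (Nat.ble (tab R K 1 1) 719040000000000) <|
  and (Nat.ble (tab R K 3 0) 1217320000000000) <|
  and (Nat.ble (tab R K 2 1) 2452990000000000) <|
  true

theorem run_ok : runS 100000000000000 blocks 60000000 rows0 finalCheck = true := by
  decide +kernel

theorem lastA_blocks : lastA 1000000 blocks = 7 := by
  decide +kernel

theorem state0 (hstart : StmtStart) : State 100000000000000 1000000 rows0 60000000 := by
  intro Q hQ hQb
  obtain ⟨G, hG, hGood, hle⟩ := good_exact (hstart Q hQ hQb)
  have e : (((60000000 : ℕ) : ℝ) / ((100000000000000 : ℕ) : ℝ)) = 6 / 10 ^ 7 := by norm_num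
  refine ⟨G, hG, hGood, ?_, ?_⟩
  · intro t
    rw [e]
    exact hle t
  · intro i j
    show G (2 ^ i * 3 ^ j) ≤ (tab rows0 60000000 i j : ℝ) / ((100000000000000 : ℕ) : ℝ)
    rw [rows0_eq, tab_init]
    have h1 := hle (2 ^ i * 3 ^ j)
    refine h1.trans (le_of_eq ?_)
    push_cast
    ring

theorem stmtCert (hstep : StmtStep) (hstart : StmtStart) (hcounts : StmtCounts) : StmtCert := by
  intro Q hQ hQ7
  obtain ⟨R, K, hfin, hst⟩ := runS_sound hstep (by norm_num) blocks 1000000 60000000 rows0 _
    hcounts (state0 hstart) run_ok
  rw [lastA_blocks] at hst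
  obtain ⟨F, hF, hG, hK, hV⟩ := hst Q hQ hQ7
  refine ⟨F, hG, fun γ => ?_⟩
  unfold finalCheck at hfin
  simp only [Bool.and_eq_true, Nat.ble_eq, and_true] at hfin
  obtain ⟨cK, c00, c10, c01, c20, c11, c30, c21⟩ := hfin
  have hS : (0 : ℝ) < ((100000000000000 : ℕ) : ℝ) := by norm_num
  have hget : ∀ (i j B : ℕ), tab R K i j ≤ B → F (2 ^ i * 3 ^ j) ≤ (B : ℝ) / 100000000000000 := by
    intro i j B hB
    refine (hV i j).trans ?_
    have h1 : (tab R K i j : ℝ) ≤ B := by exact_mod_cast hB
    push_cast
    exact div_le_div_of_nonneg_right h1 (by norm_num)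
  have hKb : ∀ t : ℕ, F t ≤ (3684 / 10000 : ℝ) * (t : ℝ) ^ 2 := by
    intro t
    refine (hK t).trans (mul_le_mul_of_nonneg_right ?_ (by positivity))
    rw [div_le_iff₀ hS]
    have : (K : ℝ) ≤ ((36840000000000 : ℕ) : ℝ) := by exact_mod_cast cK
    refine this.trans ?_
    norm_num
  have f1 : F 1 ≤ 394 / 10000 := by
    have h := hget 0 0 _ c00
    norm_num at h ⊢
    linarith
  have f2 : F 2 ≤ 4243 / 10000 := by
    have h := hget 1 0 _ c10
    norm_num at h ⊢
    linarith
  have f3 : F 3 ≤ 16015 / 10000 := by
    have h := hget 0 1 _ c01
    norm_num at h ⊢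
    linarith
  have f4 : F 4 ≤ 30586 / 10000 := by
    have h := hget 2 0 _ c20
    norm_num at h ⊢
    linarith
  have f6 : F 6 ≤ 71904 / 10000 := by
    have h := hget 1 1 _ c11
    norm_num at h ⊢
    linarith
  have f8 : F 8 ≤ 121732 / 10000 := by
    have h := hget 3 0 _ c30
    norm_num at h ⊢
    linarith
  have f12 : F 12 ≤ 245299 / 10000 := by
    have h := hget 2 1 _ c21
    norm_num at h ⊢
    linarith
  have hR5 : Rm ((5 : ℕ) : ℝ)⁻¹ 6 = 135 / 8 / 15625 := by
    unfold Rm
    norm_num
  have hR3 : Rm ((3 : ℕ) : ℝ)⁻¹ 6 = 21 / 729 := by
    unfold Rm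
    norm_num
  have x51 := Xop_le_bd (a := 5) (γ := γ) (by norm_num) hF (by norm_num) hKb 1
  have x52 := Xop_le_bd (a := 5) (γ := γ) (by norm_num) hF (by norm_num) hKb 2
  have x31 := Xop_le_bd (a := 3) (γ := γ) (by norm_num) hF (by norm_num) hKb 1
  unfold Xbd at x51 x52 x31
  rw [hR5] at x51 x52
  rw [hR3] at x31
  norm_num at x51 x52 x31
  constructor
  · norm_num
    linarith
  · linarith

end OddCov
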