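import Pool.Agent.Work.MP_b5285d_nt.CertDefs
import Pool.Agent.Work.MP_b5285d_nt.Bd.B01

/-!
# The numerical certificate: real analysis (one prime, one block of primes)
-/

namespace OddCov

open Finset

/-! ## The exact potential -/

theorem Conv.nonneg {f : ℕ → ℝ} (hf : Conv f) (t : ℕ) : 0 ≤ f t := by
  have := hf.mono (Nat.zero_le t)
  rwa [hf.zero] at this

theorem good_exact {Q : ℕ} {F : ℕ → ℝ} (h : Good Q F) :
    ∃ G : ℕ → ℝ, Conv G ∧ Good Q G ∧ ∀ t, G t ≤ F t := by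
  obtain ⟨f, hf, htot, hcov⟩ := h
  refine ⟨fun t => ∑ m ∈ Q.divisors.erase 1, f m t, ⟨?_, ?_, ?_⟩, ⟨f, hf, fun t => le_rfl, hcov⟩,
    htot⟩
  · exact Finset.sum_eq_zero fun m _ => (hf m).zero
  · intro s t hst
    exact Finset.sum_le_sum fun m _ => (hf m).mono hst
  · intro t
    rw [Finset.mul_sum, ← Finset.sum_add_distrib]
    exact Finset.sum_le_sum fun m _ => (hf m).conv t

/-! ## Bounds for `Xop` -/

/-- remainder of `∑ x ^ j (2 j + 1)` from `J` on -/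
noncomputable def Rm (x : ℝ) (J : ℕ) : ℝ := x ^ J * ((2 * J + 1) / (1 - x) + 2 * x / (1 - x) ^ 2)

theorem Rm_step {x : ℝ} (hx : x < 1) (J : ℕ) : Rm x J - Rm x (J + 1) = x ^ J * (2 * J + 1) := by
  unfold Rm
  have h1 : 1 - x ≠ 0 := by linarith
  push_cast
  field_simp
  ring

theorem Rm_nonneg {x : ℝ} (h0 : 0 ≤ x) (hx : x < 1) (J : ℕ) : 0 ≤ Rm x J := by
  unfold Rm
  have h1 : 0 < 1 - x := by linarith
  positivity

/-- Abel summation of the tail against a quadratic bound -/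
theorem tail_aux {x c : ℝ} (hx0 : 0 ≤ x) (hx1 : x < 1) {G : ℕ → ℝ}
    (hG : ∀ m : ℕ, G m ≤ c * (m : ℝ) ^ 2) (J d : ℕ) :
    ∑ j ∈ Ico J (J + d), x ^ j * (G (j + 1) - G j) ≤
      -(x ^ J * G J) + x ^ (J + d) * G (J + d) +
        c * ((J : ℝ) ^ 2 * x ^ J + Rm x J - ((J + d : ℕ) : ℝ) ^ 2 * x ^ (J + d)
          - Rm x (J + d)) := by
  induction d with
  | zero => simp
  | succ d ih =>
    rw [← add_assoc, Finset.sum_Ico_succ_top (by omega)]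
    have hR := Rm_step hx1 (J + d)
    have hg := hG (J + d + 1)
    have hpow : 0 ≤ x ^ (J + d) - x ^ (J + d + 1) := by
      have h1 : x ^ (J + d) - x ^ (J + d + 1) = x ^ (J + d) * (1 - x) := by ring
      rw [h1]
      have : 0 ≤ 1 - x := by linarith
      positivity
    have key := mul_le_mul_of_nonneg_left hg hpow
    push_cast at hR key ih ⊢
    have e1 : x ^ (J + d) * (2 * ((J : ℝ) + d) + 1) =
        (((J : ℝ) + d + 1) ^ 2 - ((J : ℝ) + d) ^ 2) * x ^ (J + d) := by ring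
    have e2 : c * (Rm x (J + d) - Rm x (J + d + 1)) =
        c * ((((J : ℝ) + d + 1) ^ 2 - ((J : ℝ) + d) ^ 2) * x ^ (J + d)) := by rw [hR, e1]
    linarith [ih, key, e2]

theorem tail_le {x c : ℝ} (hx0 : 0 ≤ x) (hx1 : x < 1) (hc : 0 ≤ c) {G : ℕ → ℝ}
    (hG : ∀ m : ℕ, G m ≤ c * (m : ℝ) ^ 2) (J d : ℕ) :
    ∑ j ∈ Ico J (J + d), x ^ j * (G (j + 1) - G j) ≤
      -(x ^ J * G J) + c * ((J : ℝ) ^ 2 * x ^ J + Rm x J) := by
  have h1 := tail_aux hx0 hx1 hG J d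
  have h2 : x ^ (J + d) * G (J + d) ≤ x ^ (J + d) * (c * ((J + d : ℕ) : ℝ) ^ 2) :=
    mul_le_mul_of_nonneg_left (hG (J + d)) (pow_nonneg hx0 _)
  have h3 := mul_nonneg hc (Rm_nonneg hx0 hx1 (J + d))
  nlinarith [h1, h2, h3]

theorem Xop_eq (p γ : ℕ) (F : ℕ → ℝ) (t : ℕ) :
    Xop p γ F t = ∑ j ∈ Ico 1 (1 + γ), ((p : ℝ)⁻¹) ^ j * (F ((j + 1) * t) - F (j * t)) := by
  unfold Xop
  rw [add_comm 1 γ, Finset.Ico_add_one_right_eq_Icc 1 γ]

theorem Xop_mono_gamma {p γ γ' : ℕ} {F : ℕ → ℝ} (hF : Monotone F) (h : γ ≤ γ') (t : ℕ) :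
    Xop p γ F t ≤ Xop p γ' F t := by
  unfold Xop
  refine Finset.sum_le_sum_of_subset_of_nonneg (Finset.Icc_subset_Icc_right h) fun j _ _ => ?_
  have h1 : F (j * t) ≤ F ((j + 1) * t) := hF (Nat.mul_le_mul_right t (by omega))
  have h2 : (0 : ℝ) ≤ ((p : ℝ)⁻¹) ^ j := by positivity
  exact mul_nonneg h2 (by linarith)

theorem Xop_nonneg {p γ : ℕ} {F : ℕ → ℝ} (hF : Monotone F) (t : ℕ) : 0 ≤ Xop p γ F t := by
  have := Xop_mono_gamma (p := p) hF (Nat.zero_le γ) t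
  simpa [Xop] using this

theorem Xop_anti {a p γ : ℕ} {F : ℕ → ℝ} (hF : Monotone F) (ha : 1 ≤ a) (h : a ≤ p) (t : ℕ) :
    Xop p γ F t ≤ Xop a γ F t := by
  unfold Xop
  refine Finset.sum_le_sum fun j _ => ?_
  have h1 : F (j * t) ≤ F ((j + 1) * t) := hF (Nat.mul_le_mul_right t (by omega))
  have ha' : (0 : ℝ) < a := by exact_mod_cast ha
  have hap : (a : ℝ) ≤ p := by exact_mod_cast h
  have h2 : ((p : ℝ)⁻¹) ^ j ≤ ((a : ℝ)⁻¹) ^ j :=
    pow_le_pow_left₀ (by positivity) (inv_anti₀ ha' hap) j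
  exact mul_le_mul_of_nonneg_right h2 (by linarith)

theorem inv_lt_one' {a : ℕ} (ha : 2 ≤ a) : ((a : ℝ)⁻¹) < 1 := by
  have h : (2 : ℝ) ≤ a := by exact_mod_cast ha
  rw [inv_lt_one₀ (by linarith)]
  linarith

/-- bound by the quadratic majorant alone -/
theorem Xop_le_K {a γ : ℕ} {F : ℕ → ℝ} {K : ℝ} (ha : 2 ≤ a) (hK0 : 0 ≤ K)
    (hK : ∀ t : ℕ, F t ≤ K * (t : ℝ) ^ 2) (t : ℕ) :
    Xop a γ F t ≤ -(F t / a) + K * (t : ℝ) ^ 2 * ((a : ℝ)⁻¹ + (3 * a - 1) / ((a : ℝ) - 1) ^ 2) := by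
  have ha' : (2 : ℝ) ≤ a := by exact_mod_cast ha
  have h := tail_le (x := (a : ℝ)⁻¹) (c := K * (t : ℝ) ^ 2) (by positivity) (inv_lt_one' ha)
    (by positivity) (G := fun m => F (m * t)) (fun m => by
      have := hK (m * t)
      push_cast at this
      calc F (m * t) ≤ K * ((m : ℝ) * t) ^ 2 := this
        _ = _ := by ring) 1 γ
  rw [Xop_eq]
  refine h.trans (le_of_eq ?_)
  have h0 : (a : ℝ) ≠ 0 := by linarith
  have h1 : (a : ℝ) - 1 ≠ 0 := by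
    have : (0 : ℝ) < (a : ℝ) - 1 := by linarith
    exact this.ne'
  have e : (1 : ℝ) - (a : ℝ)⁻¹ = ((a : ℝ) - 1) / a := by field_simp
  unfold Rm
  rw [e]
  simp only [one_mul, pow_one]
  push_cast
  field_simp
  ring

/-- five explicit terms and a quadratic tail -/
noncomputable def Xbd (x Kt u1 u2 u3 u4 u6 : ℝ) : ℝ :=
  -(x * u1) + (x - x ^ 2) * u2 + (x ^ 2 - x ^ 3) * u3 + (x ^ 3 - x ^ 4) * u4
    + (x ^ 4 - x ^ 5) * ((u4 + u6) / 2) + (x ^ 5 - x ^ 6) * u6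
    + Kt * (36 * x ^ 6 + Rm x 6)

theorem Conv.mid {F : ℕ → ℝ} (hF : Conv F) (t : ℕ) : F (5 * t) ≤ (F (4 * t) + F (6 * t)) / 2 := by
  have h := hF.incr_mono
  have h1 : F (4 * t + t) - F (4 * t) ≤ F (5 * t + t) - F (5 * t) := by
    rw [sum_incr F (4 * t) t, sum_incr F (5 * t) t]
    exact Finset.sum_le_sum fun i _ => h (show 4 * t + i ≤ 5 * t + i by omega)
  rw [show 4 * t + t = 5 * t by ring, show 5 * t + t = 6 * t by ring] at h1
  linarith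

theorem Xop_le_bd {a γ : ℕ} {F : ℕ → ℝ} {K : ℝ} (ha : 2 ≤ a) (hF : Conv F) (hK0 : 0 ≤ K)
    (hK : ∀ t : ℕ, F t ≤ K * (t : ℝ) ^ 2) (t : ℕ) :
    Xop a γ F t ≤ Xbd ((a : ℝ)⁻¹) (K * (t : ℝ) ^ 2) (F t) (F (2 * t)) (F (3 * t)) (F (4 * t))
      (F (6 * t)) := by
  have hx0 : (0 : ℝ) ≤ (a : ℝ)⁻¹ := by positivity
  have hx1 := inv_lt_one' ha
  set x : ℝ := (a : ℝ)⁻¹ with hx
  have h := tail_le (x := x) (c := K * (t : ℝ) ^ 2) hx0 hx1
    (by positivity) (G := fun m => F (m * t)) (fun m => by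
      have := hK (m * t)
      push_cast at this
      calc F (m * t) ≤ K * ((m : ℝ) * t) ^ 2 := this
        _ = _ := by ring) 6 γ
  refine (Xop_mono_gamma (p := a) hF.mono (show γ ≤ 5 + γ by omega) t).trans ?_
  rw [Xop_eq]
  have hsplit : ∑ j ∈ Ico 1 (1 + (5 + γ)), x ^ j * (F ((j + 1) * t) - F (j * t)) =
      ∑ j ∈ Ico 1 6, x ^ j * (F ((j + 1) * t) - F (j * t)) +
      ∑ j ∈ Ico 6 (6 + γ), x ^ j * (F ((j + 1) * t) - F (j * t)) := by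
    rw [show 1 + (5 + γ) = 6 + γ by ring]
    exact (Finset.sum_Ico_consecutive _ (by norm_num) (by omega)).symm
  rw [← hx, hsplit]
  have hfive : ∑ j ∈ Ico 1 6, x ^ j * (F ((j + 1) * t) - F (j * t)) =
      x * (F (2 * t) - F t) + x ^ 2 * (F (3 * t) - F (2 * t)) + x ^ 3 * (F (4 * t) - F (3 * t)) +
      x ^ 4 * (F (5 * t) - F (4 * t)) + x ^ 5 * (F (6 * t) - F (5 * t)) := by
    rw [Finset.sum_Ico_eq_sum_range]
    simp [Finset.sum_range_succ]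
  rw [hfive]
  have hmid := hF.mid t
  have h45 : 0 ≤ x ^ 4 - x ^ 5 := by
    have : x ^ 4 - x ^ 5 = x ^ 4 * (1 - x) := by ring
    rw [this]
    have : 0 ≤ 1 - x := by linarith
    positivity
  have hm := mul_le_mul_of_nonneg_left hmid h45
  unfold Xbd
  push_cast at h
  nlinarith [h, hm]

theorem Xbd_mono {x Kt Kt' u1 u1' u2 u2' u3 u3' u4 u4' u6 u6' : ℝ} (hx0 : 0 ≤ x) (hx1 : x < 1)
    (h0 : Kt ≤ Kt') (h1 : u1' ≤ u1) (h2 : u2 ≤ u2') (h3 : u3 ≤ u3') (h4 : u4 ≤ u4')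
    (h6 : u6 ≤ u6') : Xbd x Kt u1 u2 u3 u4 u6 ≤ Xbd x Kt' u1' u2' u3' u4' u6' := by
  have hy : 0 ≤ 1 - x := by linarith
  have e : ∀ k : ℕ, 0 ≤ x ^ k * (1 - x) := fun k => by positivity
  have hR := Rm_nonneg hx0 hx1 6
  have h36 : 0 ≤ 36 * x ^ 6 + Rm x 6 := by positivity
  unfold Xbd
  have a1 := mul_le_mul_of_nonneg_left h1 hx0
  have a2 := mul_le_mul_of_nonneg_left h2 (e 1)
  have a3 := mul_le_mul_of_nonneg_left h3 (e 2)
  have a4 := mul_le_mul_of_nonneg_left h4 (e 3)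
  have a5 := mul_le_mul_of_nonneg_left (show (u4 + u6) / 2 ≤ (u4' + u6') / 2 by linarith) (e 4)
  have a6 := mul_le_mul_of_nonneg_left h6 (e 5)
  have a7 := mul_le_mul_of_nonneg_right h0 h36
  linarith

/-! ## One prime -/

theorem side_sum {x : ℝ} (hx0 : 0 ≤ x) (hx : x ≤ 1 / 7) (γ : ℕ) :
    ∑ j ∈ Icc 1 γ, x ^ j * ((j : ℝ) + 1) ^ 2 ≤ 6 * x := by
  have h : ∀ γ : ℕ, ∑ j ∈ Icc 1 γ, x ^ j * ((j : ℝ) + 1) ^ 2 +
      x ^ (γ + 1) * (3 / 2 * ((γ : ℝ) + 2) ^ 2) ≤ 6 * x := by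
    intro γ
    induction γ with
    | zero => 
      simp
      linarith
    | succ γ ih =>
      rw [Finset.sum_Icc_succ_top (by omega)]
      refine le_trans ?_ ih
      push_cast
      have h1 : x ^ (γ + 1 + 1) = x ^ (γ + 1) * x := by ring
      have hp : 0 ≤ x ^ (γ + 1) := by positivity
      have hg : (0 : ℝ) ≤ γ := Nat.cast_nonneg γ
      have h2 : ((γ : ℝ) + 1 + 1) ^ 2 + x * (3 / 2 * ((γ : ℝ) + 1 + 2) ^ 2) ≤
          3 / 2 * ((γ : ℝ) + 2) ^ 2 := by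
        have : x * (3 / 2 * ((γ : ℝ) + 1 + 2) ^ 2) ≤ 1 / 7 * (3 / 2 * ((γ : ℝ) + 1 + 2) ^ 2) :=
          mul_le_mul_of_nonneg_right hx (by positivity)
        nlinarith
      have h3 := mul_le_mul_of_nonneg_left h2 hp
      rw [h1]
      nlinarith [h3]
  have h1 := h γ
  have : 0 ≤ x ^ (γ + 1) * (3 / 2 * ((γ : ℝ) + 2) ^ 2) := by positivity
  linarith

theorem rho_pos {a s0 : ℕ} (hs : s0 + 2 ≤ a) (t : ℕ) : 0 < rho a s0 t := by
  unfold rho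
  have h1 : ((min t s0 : ℕ) : ℝ) ≤ s0 := by exact_mod_cast min_le_right t s0
  have h2 : (s0 : ℝ) + 2 ≤ a := by exact_mod_cast hs
  have h3 : (0 : ℝ) ≤ s0 := Nat.cast_nonneg _
  exact div_pos (by linarith) (by linarith)

theorem rho_anti {a p s0 : ℕ} (hs : s0 + 2 ≤ a) (h : a ≤ p) (t : ℕ) :
    rho p s0 t ≤ rho a s0 t := by
  unfold rho
  have h1 : ((min t s0 : ℕ) : ℝ) ≤ s0 := by exact_mod_cast min_le_right t s0
  have h0 : (0 : ℝ) ≤ (min t s0 : ℕ) := Nat.cast_nonneg _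
  have h2 : (s0 : ℝ) + 2 ≤ a := by exact_mod_cast hs
  have h3 : (a : ℝ) ≤ p := by exact_mod_cast h
  rw [div_le_div_iff₀ (by linarith) (by linarith)]
  nlinarith

theorem hin_anti {a p s0 : ℕ} (hs : s0 + 2 ≤ a) (h : a ≤ p) (t : ℕ) :
    hin p s0 t ≤ hin a s0 t := by
  unfold hin
  have h2 : (s0 : ℝ) + 2 ≤ a := by exact_mod_cast hs
  have h3 : (a : ℝ) ≤ p := by exact_mod_cast h
  exact div_le_div_of_nonneg_left (Nat.cast_nonneg _) (by linarith) (by linarith)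

theorem step_real (hstep : StmtStep) {p γ s0 Q a : ℕ} {F : ℕ → ℝ} {K : ℝ} (hp : p.Prime)
    (hc : Nat.Coprime p Q) (hQ : 0 < Q) (ha : 7 ≤ a) (hap : a ≤ p) (hs1 : 1 ≤ s0)
    (hs : s0 + 2 ≤ a) (hF : Conv F) (hG : Good Q F) (hK0 : 0 ≤ K)
    (hK : ∀ t : ℕ, F t ≤ K * (t : ℝ) ^ 2)
    (hside : 6 * K * ((s0 : ℝ) - 1) ^ 2 * ((a : ℝ) - 1) ≤ ((a : ℝ) - s0) * a) :
    ∃ F' : ℕ → ℝ, Conv F' ∧ Good (p ^ γ * Q) F' ∧
      ∀ t, F' t ≤ F t + rho a s0 t * Xop a γ F t + hin a s0 t := by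
  have ha' : (7 : ℝ) ≤ a := by exact_mod_cast ha
  have hap' : (a : ℝ) ≤ p := by exact_mod_cast hap
  have hs1' : (1 : ℝ) ≤ s0 := by exact_mod_cast hs1
  have hs' : (s0 : ℝ) + 2 ≤ a := by exact_mod_cast hs
  have hgood : Good (p ^ γ * Q) (fun t => F t + rho a s0 t * Xop a γ F t + hin a s0 t) := by
    refine hstep p γ s0 Q F _ hp hc hQ (by omega) hG ?_ ?_
    · have hx0 : (0 : ℝ) ≤ (p : ℝ)⁻¹ := by positivity
      have hx : (p : ℝ)⁻¹ ≤ 1 / 7 := by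
        rw [one_div]
        exact inv_anti₀ (by norm_num) (by linarith)
      have h1 := side_sum hx0 hx γ
      calc ∑ j ∈ Icc 1 γ, ((p : ℝ)⁻¹) ^ j * F ((j + 1) * (s0 - 1))
          ≤ ∑ j ∈ Icc 1 γ, ((p : ℝ)⁻¹) ^ j * ((j : ℝ) + 1) ^ 2 * (K * ((s0 : ℝ) - 1) ^ 2) := by
            refine Finset.sum_le_sum fun j _ => ?_
            have h2 := hK ((j + 1) * (s0 - 1))
            push_cast [Nat.cast_sub hs1] at h2
            have h3 : ((p : ℝ)⁻¹) ^ j * F ((j + 1) * (s0 - 1)) ≤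
                ((p : ℝ)⁻¹) ^ j * (K * (((j : ℝ) + 1) * ((s0 : ℝ) - 1)) ^ 2) :=
              mul_le_mul_of_nonneg_left h2 (by positivity)
            refine h3.trans (le_of_eq ?_)
            ring
        _ = (∑ j ∈ Icc 1 γ, ((p : ℝ)⁻¹) ^ j * ((j : ℝ) + 1) ^ 2) * (K * ((s0 : ℝ) - 1) ^ 2) := by
            rw [Finset.sum_mul]
        _ ≤ (6 * (p : ℝ)⁻¹) * (K * ((s0 : ℝ) - 1) ^ 2) :=
            mul_le_mul_of_nonneg_right h1 (by positivity)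
        _ ≤ (6 * (a : ℝ)⁻¹) * (K * ((s0 : ℝ) - 1) ^ 2) := by
            have : (p : ℝ)⁻¹ ≤ (a : ℝ)⁻¹ := inv_anti₀ (by linarith) hap'
            have h4 : 0 ≤ K * ((s0 : ℝ) - 1) ^ 2 := by positivity
            nlinarith
        _ ≤ ((a : ℝ) - s0) / ((a : ℝ) - 1) := by
            rw [le_div_iff₀ (by linarith)]
            have h5 : (6 * (a : ℝ)⁻¹) * (K * ((s0 : ℝ) - 1) ^ 2) * ((a : ℝ) - 1) =
                (6 * K * ((s0 : ℝ) - 1) ^ 2 * ((a : ℝ) - 1)) / a := by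
              field_simp
            rw [h5, div_le_iff₀ (by linarith)]
            exact hside
        _ ≤ ((p : ℝ) - s0) / ((p : ℝ) - 1) := by
            rw [div_le_div_iff₀ (by linarith) (by linarith)]
            nlinarith
    · intro t
      have h1 : rho p s0 t * Xop p γ F t ≤ rho a s0 t * Xop a γ F t :=
        mul_le_mul (rho_anti hs hap t) (Xop_anti hF.mono (by omega) hap t)
          (Xop_nonneg hF.mono t) (rho_pos hs t).le
      have h2 := hin_anti hs hap t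
      show F t + rho p s0 t * Xop p γ F t + hin p s0 t ≤
        F t + rho a s0 t * Xop a γ F t + hin a s0 t
      linarith
  exact good_exact hgood

end OddCov
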