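import Pool.Agent.Work.MP_b5285d_nt.CertBlock

/-!
# The numerical certificate: the kernel computation

All functions are written with explicit recursors and in continuation passing style, so that the
kernel evaluates them strictly; `…F` are the plain versions used in the proofs.
-/

namespace OddCov

open Finset

/-! ## Strict evaluation -/

/-- evaluate `n` before continuing -/
noncomputable def force (n : ℕ) (k : ℕ → Bool) : Bool :=
  Nat.rec (motive := fun _ => Bool) (k 0) (fun m _ => k (Nat.succ m)) n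

theorem force_eq (n : ℕ) (k : ℕ → Bool) : force n k = k n := by
  cases n <;> rfl

/-- head (with default) and tail of a list -/
noncomputable def uncons (w : List ℕ) (d : ℕ) (k : ℕ → List ℕ → Bool) : Bool :=
  List.rec (motive := fun _ => Bool) (k d []) (fun u w' _ => k u w') w

theorem uncons_eq (w : List ℕ) (d : ℕ) (k : ℕ → List ℕ → Bool) :
    uncons w d k = k (w.headD d) w.tail := by
  cases w <;> rfl

/-- head with default -/
noncomputable def hd (w : List ℕ) (d : ℕ) : ℕ :=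
  List.rec (motive := fun _ => ℕ) d (fun u _ _ => u) w

theorem hd_eq (w : List ℕ) (d : ℕ) : hd w d = w.headD d := by
  cases w <;> rfl

/-- the first list -/
noncomputable def hdL (W : List (List ℕ)) : List ℕ :=
  List.rec (motive := fun _ => List ℕ) [] (fun u _ _ => u) W

theorem hdL_eq (W : List (List ℕ)) : hdL W = W.headD [] := by
  cases W <;> rfl

/-- the second list -/
noncomputable def hdL2 (W : List (List ℕ)) : List ℕ :=
  List.rec (motive := fun _ => List ℕ) [] (fun _ U _ => hdL U) W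

theorem hdL2_eq (W : List (List ℕ)) : hdL2 W = W.tail.headD [] := by
  cases W with
  | nil => rfl
  | cons a W => exact hdL_eq W

/-! ## One row -/

/-- the new value of the entry `t` -/
def entryF (am s0 d2 d3 d4 d6 dt ds e y t x u2 u3 u4 u6 : ℕ) : ℕ :=
  x + ((d2 * u2 + d3 * u3 + d4 * u4 + d6 * u6 + dt * (t * t) + ds * (t - s0) - y * x) /
    (e * (am - (t - (t - s0))))) + 1

/-- one row -/
def rowF (am s0 d2 d3 d4 d6 dt ds e y K : ℕ) (b : Bool) :
    List ℕ → ℕ → List ℕ → List ℕ → List ℕ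
  | [], _, _, _ => []
  | x :: v, t, w2, w4 =>
    entryF am s0 d2 d3 d4 d6 dt ds e y t x (w2.headD (K * (2 * t) ^ 2))
      ((bif b then v else rowF am s0 d2 d3 d4 d6 dt ds e y K b v (3 * t) w2.tail w4.tail).headD
        (K * (3 * t) ^ 2))
      (w4.headD (K * (4 * t) ^ 2)) (w2.tail.headD (K * (6 * t) ^ 2)) ::
      rowF am s0 d2 d3 d4 d6 dt ds e y K b v (3 * t) w2.tail w4.tail

/-- one row, for the kernel -/
noncomputable def rowS (am s0 d2 d3 d4 d6 dt ds e y K : ℕ) (b : Bool) (v : List ℕ) :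
    ℕ → List ℕ → List ℕ → (List ℕ → Bool) → Bool :=
  List.rec (motive := fun _ => ℕ → List ℕ → List ℕ → (List ℕ → Bool) → Bool)
    (fun _ _ _ k => k [])
    (fun x v ih t w2 w4 k =>
      force t fun t =>
      force (Nat.mul t t) fun tt =>
      force (Nat.mul K tt) fun Kt =>
      uncons w2 (Nat.mul 4 Kt) fun u2 w2' =>
      uncons w4 (Nat.mul 16 Kt) fun u4 w4' =>
        ih (Nat.mul 3 t) w2' w4' fun r =>
          force (Nat.sub t s0) fun h =>
          force (Nat.succ (Nat.add x (Nat.div (Nat.sub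
            (Nat.add (Nat.mul d2 u2)
            (Nat.add (Nat.mul d3 (Bool.rec (hd r (Nat.mul 9 Kt)) (hd v (Nat.mul 9 Kt)) b))
            (Nat.add (Nat.mul d4 u4)
            (Nat.add (Nat.mul d6 (hd w2' (Nat.mul 36 Kt)))
            (Nat.add (Nat.mul dt tt) (Nat.mul ds h))))))
            (Nat.mul y x)) (Nat.mul e (Nat.sub am (Nat.sub t h)))))) fun z => k (z :: r))
    v

theorem rowS_eq (am s0 d2 d3 d4 d6 dt ds e y K : ℕ) (b : Bool) (v : List ℕ) :
    ∀ (t : ℕ) (w2 w4 : List ℕ) (k : List ℕ → Bool),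
      rowS am s0 d2 d3 d4 d6 dt ds e y K b v t w2 w4 k =
        k (rowF am s0 d2 d3 d4 d6 dt ds e y K b v t w2 w4) := by
  induction v with
  | nil => intro t w2 w4 k; rfl
  | cons x v ih =>
    intro t w2 w4 k
    have h : rowS am s0 d2 d3 d4 d6 dt ds e y K b (x :: v) t w2 w4 k =
      (force t fun t =>
      force (Nat.mul t t) fun tt =>
      force (Nat.mul K tt) fun Kt =>
      uncons w2 (Nat.mul 4 Kt) fun u2 w2' =>
      uncons w4 (Nat.mul 16 Kt) fun u4 w4' =>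
        rowS am s0 d2 d3 d4 d6 dt ds e y K b v (Nat.mul 3 t) w2' w4' fun r =>
          force (Nat.sub t s0) fun h =>
          force (Nat.succ (Nat.add x (Nat.div (Nat.sub
            (Nat.add (Nat.mul d2 u2)
            (Nat.add (Nat.mul d3 (Bool.rec (hd r (Nat.mul 9 Kt)) (hd v (Nat.mul 9 Kt)) b))
            (Nat.add (Nat.mul d4 u4)
            (Nat.add (Nat.mul d6 (hd w2' (Nat.mul 36 Kt)))
            (Nat.add (Nat.mul dt tt) (Nat.mul ds h))))))
            (Nat.mul y x)) (Nat.mul e (Nat.sub am (Nat.sub t h)))))) fun z => k (z :: r)) := rfl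
    rw [h]
    simp only [force_eq, uncons_eq, ih, hd_eq]
    congr 1
    rw [rowF]
    congr 1
    unfold entryF
    have e1 : Nat.mul 4 (Nat.mul K (Nat.mul t t)) = K * (2 * t) ^ 2 := by
      show 4 * (K * (t * t)) = _
      ring
    have e2 : Nat.mul 16 (Nat.mul K (Nat.mul t t)) = K * (4 * t) ^ 2 := by
      show 16 * (K * (t * t)) = _
      ring
    have e3 : Nat.mul 9 (Nat.mul K (Nat.mul t t)) = K * (3 * t) ^ 2 := by
      show 9 * (K * (t * t)) = _
      ring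
    have e4 : Nat.mul 36 (Nat.mul K (Nat.mul t t)) = K * (6 * t) ^ 2 := by
      show 36 * (K * (t * t)) = _
      ring
    rw [e1, e2, e3, e4]
    have e5 : (Bool.rec ((rowF am s0 d2 d3 d4 d6 dt ds e y K b v (Nat.mul 3 t) w2.tail w4.tail).headD
          (K * (3 * t) ^ 2)) (v.headD (K * (3 * t) ^ 2)) b : ℕ) =
        (bif b then v else rowF am s0 d2 d3 d4 d6 dt ds e y K b v (3 * t) w2.tail w4.tail).headD
        (K * (3 * t) ^ 2) := by
      cases b <;> rfl
    rw [e5]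
    generalize (bif b then v else rowF am s0 d2 d3 d4 d6 dt ds e y K b v (3 * t) w2.tail
      w4.tail).headD (K * (3 * t) ^ 2) = u3
    generalize w2.headD (K * (2 * t) ^ 2) = u2
    generalize w4.headD (K * (4 * t) ^ 2) = u4
    generalize w2.tail.headD (K * (6 * t) ^ 2) = u6
    show (x + (d2 * u2 + (d3 * u3 + (d4 * u4 + (d6 * u6 + (dt * (t * t) + ds * (t - s0)))))
      - y * x) / (e * (am - (t - (t - s0))))) + 1 = _
    rw [show d2 * u2 + (d3 * u3 + (d4 * u4 + (d6 * u6 + (dt * (t * t) + ds * (t - s0))))) =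
      d2 * u2 + d3 * u3 + d4 * u4 + d6 * u6 + dt * (t * t) + ds * (t - s0) by ring]

theorem rowF_length (am s0 d2 d3 d4 d6 dt ds e y K : ℕ) (b : Bool) (v : List ℕ) :
    ∀ (t : ℕ) (w2 w4 : List ℕ),
      (rowF am s0 d2 d3 d4 d6 dt ds e y K b v t w2 w4).length = v.length := by
  induction v with
  | nil => intro t w2 w4; rfl
  | cons x v ih =>
    intro t w2 w4
    rw [rowF, List.length_cons, List.length_cons, ih]

theorem getD_tail (w : List ℕ) (j d : ℕ) : w.tail.getD j d = w.getD (j + 1) d := by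
  cases w <;> rfl

theorem headD_getD (w : List ℕ) (d : ℕ) : w.headD d = w.getD 0 d := by
  cases w <;> rfl

theorem rowF_getD (am s0 d2 d3 d4 d6 dt ds e y K : ℕ) (b : Bool) (v : List ℕ) :
    ∀ (t : ℕ) (w2 w4 : List ℕ) (j : ℕ) (D : ℕ), j < v.length →
      (rowF am s0 d2 d3 d4 d6 dt ds e y K b v t w2 w4).getD j D =
        entryF am s0 d2 d3 d4 d6 dt ds e y (3 ^ j * t) (v.getD j D)
          (w2.getD j (K * (2 * (3 ^ j * t)) ^ 2))
          ((bif b then v else rowF am s0 d2 d3 d4 d6 dt ds e y K b v t w2 w4).getD (j + 1)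
            (K * (3 * (3 ^ j * t)) ^ 2))
          (w4.getD j (K * (4 * (3 ^ j * t)) ^ 2)) (w2.getD (j + 1) (K * (6 * (3 ^ j * t)) ^ 2)) := by
  induction v with
  | nil => intro t w2 w4 j D hj; simp at hj
  | cons x v ih =>
    intro t w2 w4 j D hj
    cases j with
    | zero =>
      rw [rowF]
      simp only [List.getD_cons_zero, pow_zero, one_mul, headD_getD, getD_tail]
      congr 1
      cases b
      · simp only [cond_false, List.getD_cons_succ]
      · simp only [cond_true, List.getD_cons_succ]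
    | succ j =>
      have hj' : j < v.length := by simpa using hj
      have h := ih (3 * t) w2.tail w4.tail j D hj'
      have e1 : 3 ^ j * (3 * t) = 3 ^ (j + 1) * t := by ring
      rw [e1] at h
      have e2 : (rowF am s0 d2 d3 d4 d6 dt ds e y K b (x :: v) t w2 w4).getD (j + 1) D =
          (rowF am s0 d2 d3 d4 d6 dt ds e y K b v (3 * t) w2.tail w4.tail).getD j D := by
        rw [rowF, List.getD_cons_succ]
      rw [e2, h]
      simp only [getD_tail, List.getD_cons_succ]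
      congr 1
      cases b
      · simp only [cond_false]
        rw [rowF, List.getD_cons_succ]
      · simp only [cond_true, List.getD_cons_succ]

/-! ## All rows -/

/-- all rows -/
def rowsF (am s0 d2 d3 d4 d6 dt ds e y K : ℕ) (b : Bool) : List (List ℕ) → ℕ → List (List ℕ)
  | [], _ => []
  | v :: rows, t =>
    rowF am s0 d2 d3 d4 d6 dt ds e y K b v t
      ((bif b then rows else rowsF am s0 d2 d3 d4 d6 dt ds e y K b rows (2 * t)).headD [])
      ((bif b then rows else rowsF am s0 d2 d3 d4 d6 dt ds e y K b rows (2 * t)).tail.headD []) ::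
    rowsF am s0 d2 d3 d4 d6 dt ds e y K b rows (2 * t)

/-- all rows, for the kernel -/
noncomputable def rowsS (am s0 d2 d3 d4 d6 dt ds e y K : ℕ) (b : Bool) (rows : List (List ℕ)) :
    ℕ → (List (List ℕ) → Bool) → Bool :=
  List.rec (motive := fun _ => ℕ → (List (List ℕ) → Bool) → Bool)
    (fun _ k => k [])
    (fun v rows ih t k =>
      force t fun t =>
      ih (Nat.mul 2 t) fun R =>
        rowS am s0 d2 d3 d4 d6 dt ds e y K b v t
          (Bool.rec (hdL R) (hdL rows) b) (Bool.rec (hdL2 R) (hdL2 rows) b)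
          fun r => k (r :: R))
    rows

theorem rowsS_eq (am s0 d2 d3 d4 d6 dt ds e y K : ℕ) (b : Bool) (rows : List (List ℕ)) :
    ∀ (t : ℕ) (k : List (List ℕ) → Bool),
      rowsS am s0 d2 d3 d4 d6 dt ds e y K b rows t k =
        k (rowsF am s0 d2 d3 d4 d6 dt ds e y K b rows t) := by
  induction rows with
  | nil => intro t k; rfl
  | cons v rows ih =>
    intro t k
    have h : rowsS am s0 d2 d3 d4 d6 dt ds e y K b (v :: rows) t k =
      (force t fun t =>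
        rowsS am s0 d2 d3 d4 d6 dt ds e y K b rows (Nat.mul 2 t) fun R =>
          rowS am s0 d2 d3 d4 d6 dt ds e y K b v t
            (Bool.rec (hdL R) (hdL rows) b) (Bool.rec (hdL2 R) (hdL2 rows) b)
            fun r => k (r :: R)) := rfl
    rw [h, force_eq, ih, rowS_eq]
    congr 1
    rw [rowsF]
    congr 1
    cases b
    · simp only [cond_false, hdL_eq, hdL2_eq]
      rfl
    · simp only [cond_true, hdL_eq, hdL2_eq]

theorem rowsF_length (am s0 d2 d3 d4 d6 dt ds e y K : ℕ) (b : Bool) (rows : List (List ℕ)) :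
    ∀ t : ℕ, (rowsF am s0 d2 d3 d4 d6 dt ds e y K b rows t).length = rows.length := by
  induction rows with
  | nil => intro t; rfl
  | cons v rows ih =>
    intro t
    rw [rowsF, List.length_cons, List.length_cons, ih]

theorem headD_getD' (W : List (List ℕ)) : W.headD [] = W.getD 0 [] := by
  cases W <;> rfl

theorem getD_tail' (W : List (List ℕ)) (j : ℕ) : W.tail.getD j [] = W.getD (j + 1) [] := by
  cases W <;> rfl

theorem rowF_nil (am s0 d2 d3 d4 d6 dt ds e y K : ℕ) (b : Bool) (t : ℕ) (w2 w4 : List ℕ) :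
    rowF am s0 d2 d3 d4 d6 dt ds e y K b [] t w2 w4 = [] := rfl

theorem rowsF_getD (am s0 d2 d3 d4 d6 dt ds e y K : ℕ) (b : Bool) (rows : List (List ℕ)) :
    ∀ (t i : ℕ), (rowsF am s0 d2 d3 d4 d6 dt ds e y K b rows t).getD i [] =
      rowF am s0 d2 d3 d4 d6 dt ds e y K b (rows.getD i []) (2 ^ i * t)
        ((bif b then rows else rowsF am s0 d2 d3 d4 d6 dt ds e y K b rows t).getD (i + 1) [])
        ((bif b then rows else rowsF am s0 d2 d3 d4 d6 dt ds e y K b rows t).getD (i + 2) []) := by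
  induction rows with
  | nil =>
    intro t i
    simp [rowsF, rowF_nil]
  | cons v rows ih =>
    intro t i
    cases i with
    | zero =>
      rw [rowsF]
      simp only [List.getD_cons_zero, pow_zero, one_mul, headD_getD', getD_tail']
      cases b
      · simp only [cond_false, List.getD_cons_succ]
      · simp only [cond_true, List.getD_cons_succ]
    | succ i =>
      have e1 : 2 ^ i * (2 * t) = 2 ^ (i + 1) * t := by ring
      have h := ih (2 * t) i
      rw [e1] at h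
      rw [rowsF]
      simp only [List.getD_cons_succ]
      rw [h]
      cases b
      · simp only [cond_false, List.getD_cons_succ]
      · simp only [cond_true, List.getD_cons_succ]

/-- the table as a function; `K t ^ 2` outside of the rows -/
def tab (rows : List (List ℕ)) (K i j : ℕ) : ℕ :=
  (rows.getD i []).getD j (K * (2 ^ i * 3 ^ j) ^ 2)

/-- the new table -/
theorem tab_rowsF (am s0 d2 d3 d4 d6 dt ds e y K Kh K' : ℕ) (b : Bool) (rows : List (List ℕ))
    (hb : Kh = bif b then K else K') (i j : ℕ) (hj : j < (rows.getD i []).length) :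
    tab (rowsF am s0 d2 d3 d4 d6 dt ds e y Kh b rows 1) K' i j =
      entryF am s0 d2 d3 d4 d6 dt ds e y (2 ^ i * 3 ^ j) (tab rows K i j)
        (bif b then tab rows K (i + 1) j
          else tab (rowsF am s0 d2 d3 d4 d6 dt ds e y Kh b rows 1) K' (i + 1) j)
        (bif b then tab rows K i (j + 1)
          else tab (rowsF am s0 d2 d3 d4 d6 dt ds e y Kh b rows 1) K' i (j + 1))
        (bif b then tab rows K (i + 2) j
          else tab (rowsF am s0 d2 d3 d4 d6 dt ds e y Kh b rows 1) K' (i + 2) j)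
        (bif b then tab rows K (i + 1) (j + 1)
          else tab (rowsF am s0 d2 d3 d4 d6 dt ds e y Kh b rows 1) K' (i + 1) (j + 1)) := by
  have h1 := rowsF_getD am s0 d2 d3 d4 d6 dt ds e y Kh b rows 1 i
  have h2 := rowF_getD am s0 d2 d3 d4 d6 dt ds e y Kh b (rows.getD i []) (2 ^ i * 1)
    ((bif b then rows else rowsF am s0 d2 d3 d4 d6 dt ds e y Kh b rows 1).getD (i + 1) [])
    ((bif b then rows else rowsF am s0 d2 d3 d4 d6 dt ds e y Kh b rows 1).getD (i + 2) [])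
    j (K' * (2 ^ i * 3 ^ j) ^ 2) hj
  rw [← h1] at h2
  have e0 : 3 ^ j * (2 ^ i * 1) = 2 ^ i * 3 ^ j := by ring
  have e1 : 2 * (2 ^ i * 3 ^ j) = 2 ^ (i + 1) * 3 ^ j := by ring
  have e2 : 3 * (2 ^ i * 3 ^ j) = 2 ^ i * 3 ^ (j + 1) := by ring
  have e3 : 4 * (2 ^ i * 3 ^ j) = 2 ^ (i + 2) * 3 ^ j := by ring
  have e4 : 6 * (2 ^ i * 3 ^ j) = 2 ^ (i + 1) * 3 ^ (j + 1) := by ring
  rw [e0, e1, e2, e3, e4] at h2
  have e5 : (rows.getD i []).getD j (K' * (2 ^ i * 3 ^ j) ^ 2) = tab rows K i j := by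
    unfold tab
    rw [List.getD_eq_getElem _ _ hj, List.getD_eq_getElem _ _ hj]
  rw [e5] at h2
  unfold tab at h2 ⊢
  rw [h2]
  subst hb
  cases b
  · simp only [cond_false]
  · simp only [cond_true]

theorem tab_out (rows : List (List ℕ)) (K i j : ℕ) (hj : (rows.getD i []).length ≤ j) :
    tab rows K i j = K * (2 ^ i * 3 ^ j) ^ 2 := by
  unfold tab
  exact List.getD_eq_default _ _ hj

theorem rowsF_row_length (am s0 d2 d3 d4 d6 dt ds e y K : ℕ) (b : Bool) (rows : List (List ℕ))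
    (i : ℕ) : ((rowsF am s0 d2 d3 d4 d6 dt ds e y K b rows 1).getD i []).length =
      (rows.getD i []).length := by
  rw [rowsF_getD, rowF_length]

/-! ## One block -/

/-- one block, for the kernel -/
noncomputable def blockS (S a n s0 K : ℕ) (rows : List (List ℕ))
    (k : List (List ℕ) → ℕ → Bool) : Bool :=
  force (Nat.sub a 1) fun am =>
  force (Nat.mul (Nat.mul (Nat.mul 4 s0) am) (Nat.sub am s0)) fun d =>
  force (Nat.mul n (Nat.mul (Nat.mul 4 s0) (Nat.sub (Nat.mul 3 a) 1))) fun q =>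
  and (Nat.ble 7 a) <| and (Nat.ble 1 n) <| and (Nat.ble 1 s0) <| and (Nat.ble (Nat.add s0 2) a) <|
  and (Nat.ble (Nat.succ q) d) <|
  force (Bool.rec
      (Nat.succ (Nat.div (Nat.add (Nat.mul K d) (Nat.mul n (Nat.mul am S))) (Nat.sub d q)))
      (Nat.succ (Nat.div (Nat.add (Nat.mul K d) (Nat.add (Nat.mul K q) (Nat.mul am S))) d))
      (Nat.beq n 1)) fun K' =>
  force (Bool.rec K' K (Nat.beq n 1)) fun Kh =>
  and (Nat.ble (Nat.mul (Nat.mul 6 Kh) (Nat.mul (Nat.mul (Nat.sub s0 1) (Nat.sub s0 1)) am))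
    (Nat.mul (Nat.mul (Nat.sub a s0) a) S)) <|
  force (Nat.mul a a) fun a2 =>
  force (Nat.mul n (Nat.mul am am)) fun c =>
  force (Nat.mul (Nat.mul 2 c) (Nat.mul a2 a2)) fun d2 =>
  force (Nat.mul (Nat.mul 2 c) (Nat.mul a2 a)) fun d3 =>
  force (Nat.mul c (Nat.add (Nat.mul 2 a2) a)) fun d4 =>
  force (Nat.mul c (Nat.add a 2)) fun d6 =>
  force (Nat.mul (Nat.mul 104 n) (Nat.mul am Kh)) fun dt =>
  force (Nat.mul 2 (Nat.mul (Nat.mul a2 a2) a2)) fun e =>
  force (Nat.mul (Nat.mul n S) e) fun ds =>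
  force (Nat.mul (Nat.mul 2 n) (Nat.mul am (Nat.mul (Nat.mul a2 a2) a))) fun y =>
  rowsS am s0 d2 d3 d4 d6 dt ds e y Kh (Nat.beq n 1) rows 1 fun R => k R K'

/-- the state after a number of blocks -/
def State (S b : ℕ) (rows : List (List ℕ)) (K : ℕ) : Prop :=
  ∀ Q : ℕ, 0 < Q → (∀ p : ℕ, p.Prime → p ∣ Q → b ≤ p) →
    Below (fun i j => (tab rows K i j : ℝ) / S) ((K : ℝ) / S) Q

/-- the real form of an entry of the new table -/
theorem entry_real {S a n s0 Kh t x u2 u3 u4 u6 v : ℕ} (hS : 0 < S) (ha : 7 ≤ a) (hs : s0 + 2 ≤ a)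
    (hv : v = entryF (a - 1) s0 (2 * (n * ((a - 1) * (a - 1))) * (a * a * (a * a)))
      (2 * (n * ((a - 1) * (a - 1))) * (a * a * a)) (n * ((a - 1) * (a - 1)) * (2 * (a * a) + a))
      (n * ((a - 1) * (a - 1)) * (a + 2)) (104 * n * ((a - 1) * Kh))
      (n * S * (2 * (a * a * (a * a) * (a * a)))) (2 * (a * a * (a * a) * (a * a)))
      (2 * n * ((a - 1) * (a * a * (a * a) * a))) t x u2 u3 u4 u6) :
    x ≤ v ∧ (n : ℝ) * (rho a s0 t * Xbd ((a : ℝ)⁻¹) ((Kh : ℝ) / S * (t : ℝ) ^ 2) ((x : ℝ) / S)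
      ((u2 : ℝ) / S) ((u3 : ℝ) / S) ((u4 : ℝ) / S) ((u6 : ℝ) / S) + hin a s0 t) ≤
      (v : ℝ) / S - (x : ℝ) / S := by
  have hA : (7 : ℝ) ≤ a := by exact_mod_cast ha
  have hS' : (0 : ℝ) < S := by exact_mod_cast hS
  have hs' : (s0 : ℝ) + 2 ≤ a := by exact_mod_cast hs
  obtain ⟨m, hm⟩ : ∃ m, m = t - (t - s0) := ⟨_, rfl⟩
  have hmin : m = min t s0 := by omega
  have hms : m ≤ s0 := by omega
  have hmsr : (m : ℝ) ≤ s0 := by exact_mod_cast hms
  obtain ⟨h, hh⟩ : ∃ h, h = t - s0 := ⟨_, rfl⟩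
  -- the integer inequality
  obtain ⟨st, hst⟩ : ∃ st, st = 2 * (n * ((a - 1) * (a - 1))) * (a * a * (a * a)) * u2 +
    2 * (n * ((a - 1) * (a - 1))) * (a * a * a) * u3 +
    n * ((a - 1) * (a - 1)) * (2 * (a * a) + a) * u4 + n * ((a - 1) * (a - 1)) * (a + 2) * u6 +
    104 * n * ((a - 1) * Kh) * (t * t) + n * S * (2 * (a * a * (a * a) * (a * a))) * h := ⟨_, rfl⟩
  obtain ⟨y, hy⟩ : ∃ y, y = 2 * n * ((a - 1) * (a * a * (a * a) * a)) := ⟨_, rfl⟩
  obtain ⟨D, hD⟩ : ∃ D, D = 2 * (a * a * (a * a) * (a * a)) * (a - 1 - m) := ⟨_, rfl⟩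
  have hDpos : 0 < D := by
    have h1 : 0 < a - 1 - m := by omega
    have h2 : 0 < a := by omega
    rw [hD]
    positivity
  have hv' : v = x + (st - y * x) / D + 1 := by
    rw [hv]
    unfold entryF
    rw [← hm, ← hh, ← hst, ← hy, ← hD]
  have hlt : st - y * x < D * ((st - y * x) / D + 1) := Nat.lt_mul_div_succ (st - y * x) hDpos
  obtain ⟨w, hw⟩ : ∃ w, w = (st - y * x) / D := ⟨_, rfl⟩
  rw [← hw] at hv' hlt
  have hxv : x ≤ v := by omega
  refine ⟨hxv, ?_⟩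
  have hnat : st ≤ (v - x) * D + y * x := by
    have e1 : v - x = w + 1 := by omega
    rw [e1, mul_comm (w + 1) D]
    omega
  have hreal : (st : ℝ) ≤ ((v : ℝ) - x) * D + (y : ℝ) * x := by
    have h1 : (st : ℝ) ≤ (((v - x) * D + y * x : ℕ) : ℝ) := by exact_mod_cast hnat
    rw [Nat.cast_add, Nat.cast_mul, Nat.cast_mul, Nat.cast_sub hxv] at h1
    exact h1
  have ca : ((a - 1 : ℕ) : ℝ) = (a : ℝ) - 1 := by
    rw [Nat.cast_sub (by omega)]
    simp
  have cD : (D : ℝ) = 2 * (a : ℝ) ^ 6 * ((a : ℝ) - 1 - m) := by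
    rw [hD]
    rw [Nat.cast_mul, Nat.cast_sub (show m ≤ a - 1 by omega), ca]
    push_cast
    ring
  have cy : (y : ℝ) = 2 * n * (((a : ℝ) - 1) * (a : ℝ) ^ 5) := by
    rw [hy]
    push_cast [ca]
    ring
  have cst : (st : ℝ) = n * (((a : ℝ) - 1) * (2 * ((a : ℝ) ^ 5 - (a : ℝ) ^ 4) * u2 +
      2 * ((a : ℝ) ^ 4 - (a : ℝ) ^ 3) * u3 + 2 * ((a : ℝ) ^ 3 - (a : ℝ) ^ 2) * u4 +
      ((a : ℝ) ^ 2 - a) * (u4 + u6) + 2 * ((a : ℝ) - 1) * u6 + 104 * (Kh * (t : ℝ) ^ 2)) +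
      2 * (a : ℝ) ^ 6 * S * h) := by
    rw [hst]
    push_cast [ca]
    ring
  have hden : 0 < (a : ℝ) - 1 - m := by linarith
  have hrho : rho a s0 t = ((a : ℝ) - 1) / ((a : ℝ) - 1 - m) := by
    unfold rho
    rw [← hmin]
  have hhin : hin a s0 t = (h : ℝ) / ((a : ℝ) - 1 - m) := by
    unfold hin
    rw [← hh]
    rcases le_total t s0 with hts | hts
    · have h0 : h = 0 := by omega
      rw [h0]
      simp
    · have h0 : m = s0 := by omega
      rw [h0]
  set B : ℝ := Xbd ((a : ℝ)⁻¹) (Kh * (t : ℝ) ^ 2) x u2 u3 u4 u6 with hB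
  have hscale : Xbd ((a : ℝ)⁻¹) ((Kh : ℝ) / S * (t : ℝ) ^ 2) ((x : ℝ) / S)
      ((u2 : ℝ) / S) ((u3 : ℝ) / S) ((u4 : ℝ) / S) ((u6 : ℝ) / S) = B / S := by
    rw [hB]
    unfold Xbd
    ring
  have hRm : (a : ℝ) ^ 6 * (36 * ((a : ℝ)⁻¹) ^ 6 + Rm ((a : ℝ)⁻¹) 6) ≤ 52 := by
    unfold Rm
    have h0 : (a : ℝ) ≠ 0 := by linarith
    have e : (1 : ℝ) - (a : ℝ)⁻¹ = ((a : ℝ) - 1) / a := by field_simp
    rw [e]
    have h1 : (a : ℝ) - 1 ≠ 0 := by
      have : (0 : ℝ) < (a : ℝ) - 1 := by linarith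
      exact this.ne'
    have e2 : (a : ℝ) ^ 6 * (36 * ((a : ℝ)⁻¹) ^ 6 + ((a : ℝ)⁻¹) ^ 6 *
        ((2 * (6 : ℕ) + 1) / (((a : ℝ) - 1) / a) + 2 * (a : ℝ)⁻¹ / (((a : ℝ) - 1) / a) ^ 2)) =
        36 + 13 * a / ((a : ℝ) - 1) + 2 * a / ((a : ℝ) - 1) ^ 2 := by
      push_cast
      field_simp
      ring
    rw [e2]
    have h2 : 13 * (a : ℝ) / ((a : ℝ) - 1) ≤ 13 * 7 / 6 := by
      rw [div_le_div_iff₀ (by linarith) (by norm_num)]
      linarith
    have h3 : 2 * (a : ℝ) / ((a : ℝ) - 1) ^ 2 ≤ 2 * 7 / 36 := by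
      rw [div_le_div_iff₀ (by positivity) (by norm_num)]
      nlinarith
    linarith
  have hB6 : 2 * (a : ℝ) ^ 6 * B ≤ -(2 * (a : ℝ) ^ 5 * x) + 2 * ((a : ℝ) ^ 5 - (a : ℝ) ^ 4) * u2 +
      2 * ((a : ℝ) ^ 4 - (a : ℝ) ^ 3) * u3 + 2 * ((a : ℝ) ^ 3 - (a : ℝ) ^ 2) * u4 +
      ((a : ℝ) ^ 2 - a) * (u4 + u6) + 2 * ((a : ℝ) - 1) * u6 + 104 * (Kh * (t : ℝ) ^ 2) := by
    have h0 : (a : ℝ) ≠ 0 := by linarith
    have e : 2 * (a : ℝ) ^ 6 * B = -(2 * (a : ℝ) ^ 5 * x) +
        2 * ((a : ℝ) ^ 5 - (a : ℝ) ^ 4) * u2 +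
        2 * ((a : ℝ) ^ 4 - (a : ℝ) ^ 3) * u3 + 2 * ((a : ℝ) ^ 3 - (a : ℝ) ^ 2) * u4 +
        ((a : ℝ) ^ 2 - a) * (u4 + u6) + 2 * ((a : ℝ) - 1) * u6 +
        2 * (Kh * (t : ℝ) ^ 2) * ((a : ℝ) ^ 6 * (36 * ((a : ℝ)⁻¹) ^ 6 + Rm ((a : ℝ)⁻¹) 6)) := by
      rw [hB]
      unfold Xbd
      field_simp
    rw [e]
    have h1 : 0 ≤ 2 * ((Kh : ℝ) * (t : ℝ) ^ 2) := by positivity
    nlinarith [mul_le_mul_of_nonneg_left hRm h1]
  rw [hscale, hrho, hhin]
  have hgoal : (n : ℝ) * (((a : ℝ) - 1) / ((a : ℝ) - 1 - m) * (B / S) +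
      (h : ℝ) / ((a : ℝ) - 1 - m)) = ((n : ℝ) * (((a : ℝ) - 1) * B + S * h)) /
        (((a : ℝ) - 1 - m) * S) := by
    field_simp
  have hgoal2 : (v : ℝ) / S - (x : ℝ) / S = (((v : ℝ) - x) * ((a : ℝ) - 1 - m)) /
      (((a : ℝ) - 1 - m) * S) := by
    field_simp
  rw [hgoal, hgoal2]
  refine div_le_div_of_nonneg_right ?_ (by positivity)
  have ha6 : 0 < 2 * (a : ℝ) ^ 6 := by positivity
  refine le_of_mul_le_mul_left ?_ ha6
  rw [cst, cy, cD] at hreal
  have h1 : (n : ℝ) * (((a : ℝ) - 1) * (2 * (a : ℝ) ^ 6 * B)) ≤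
      (n : ℝ) * (((a : ℝ) - 1) * (-(2 * (a : ℝ) ^ 5 * x) +
      2 * ((a : ℝ) ^ 5 - (a : ℝ) ^ 4) * u2 +
      2 * ((a : ℝ) ^ 4 - (a : ℝ) ^ 3) * u3 + 2 * ((a : ℝ) ^ 3 - (a : ℝ) ^ 2) * u4 +
      ((a : ℝ) ^ 2 - a) * (u4 + u6) + 2 * ((a : ℝ) - 1) * u6 + 104 * (Kh * (t : ℝ) ^ 2))) := by
    refine mul_le_mul_of_nonneg_left ?_ (Nat.cast_nonneg n)
    exact mul_le_mul_of_nonneg_left hB6 (by linarith)
  calc 2 * (a : ℝ) ^ 6 * ((n : ℝ) * (((a : ℝ) - 1) * B + S * h)) =
      (n : ℝ) * (((a : ℝ) - 1) * (2 * (a : ℝ) ^ 6 * B)) + n * (2 * (a : ℝ) ^ 6 * S * h) := by ring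
    _ ≤ _ := by linarith [h1, hreal]

end OddCov
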