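import Pool.Agent.Work.MP_b5285d_nt.CertRun

/-!
# The numerical certificate: soundness of the kernel computation
-/

namespace OddCov

open Finset

/-- the coefficients of a block -/
def newRows (S a n s0 Kh : ℕ) (b : Bool) (rows : List (List ℕ)) : List (List ℕ) :=
  rowsF (a - 1) s0 (2 * (n * ((a - 1) * (a - 1))) * (a * a * (a * a)))
      (2 * (n * ((a - 1) * (a - 1))) * (a * a * a)) (n * ((a - 1) * (a - 1)) * (2 * (a * a) + a))
      (n * ((a - 1) * (a - 1)) * (a + 2)) (104 * n * ((a - 1) * Kh))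
      (n * S * (2 * (a * a * (a * a) * (a * a)))) (2 * (a * a * (a * a) * (a * a)))
      (2 * n * ((a - 1) * (a * a * (a * a) * a))) Kh b rows 1

/-- the new constant -/
def newK (S a n s0 K : ℕ) : ℕ :=
  bif Nat.beq n 1 then
    (K * (4 * s0 * (a - 1) * (a - 1 - s0)) + (K * (n * (4 * s0 * (3 * a - 1))) + (a - 1) * S)) /
      (4 * s0 * (a - 1) * (a - 1 - s0)) + 1
  else
    (K * (4 * s0 * (a - 1) * (a - 1 - s0)) + n * ((a - 1) * S)) /
      (4 * s0 * (a - 1) * (a - 1 - s0) - n * (4 * s0 * (3 * a - 1))) + 1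

theorem blockS_iff (S a n s0 K : ℕ) (rows : List (List ℕ)) (k : List (List ℕ) → ℕ → Bool) :
    blockS S a n s0 K rows k = true ↔
      7 ≤ a ∧ 1 ≤ n ∧ 1 ≤ s0 ∧ s0 + 2 ≤ a ∧
      n * (4 * s0 * (3 * a - 1)) + 1 ≤ 4 * s0 * (a - 1) * (a - 1 - s0) ∧
      6 * (bif Nat.beq n 1 then K else newK S a n s0 K) * ((s0 - 1) * (s0 - 1) * (a - 1)) ≤
        (a - s0) * a * S ∧
      k (newRows S a n s0 (bif Nat.beq n 1 then K else newK S a n s0 K) (Nat.beq n 1) rows)
        (newK S a n s0 K) = true := by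
  have hbool : ∀ (x y : ℕ), (Bool.rec x y (Nat.beq n 1) : ℕ) = bif Nat.beq n 1 then y else x := by
    intro x y
    cases Nat.beq n 1 <;> rfl
  unfold blockS
  simp only [force_eq, rowsS_eq, Bool.and_eq_true, Nat.ble_eq, hbool]
  rfl

/-- the real form of the recursion for the constant -/
theorem newK_real {S a n s0 K : ℕ} (hS : 0 < S) (ha : 7 ≤ a) (hs1 : 1 ≤ s0)
    (hs : s0 + 2 ≤ a)
    (hq : n * (4 * s0 * (3 * a - 1)) + 1 ≤ 4 * s0 * (a - 1) * (a - 1 - s0)) :
    K ≤ newK S a n s0 K ∧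
    (n : ℝ) * (((bif Nat.beq n 1 then K else newK S a n s0 K : ℕ) : ℝ) / S *
      ((3 * a - 1) / (((a : ℝ) - 1) * ((a : ℝ) - 1 - s0))) +
      1 / (4 * s0 * ((a : ℝ) - 1 - s0))) ≤ ((newK S a n s0 K : ℕ) : ℝ) / S - (K : ℝ) / S := by
  have hA : (7 : ℝ) ≤ a := by exact_mod_cast ha
  have hS' : (0 : ℝ) < S := by exact_mod_cast hS
  have hs' : (s0 : ℝ) + 2 ≤ a := by exact_mod_cast hs
  have hs1' : (1 : ℝ) ≤ s0 := by exact_mod_cast hs1
  obtain ⟨K', hK'⟩ : ∃ K', K' = newK S a n s0 K := ⟨_, rfl⟩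
  obtain ⟨d, hd⟩ : ∃ d, d = 4 * s0 * (a - 1) * (a - 1 - s0) := ⟨_, rfl⟩
  obtain ⟨q, hqq⟩ : ∃ q, q = n * (4 * s0 * (3 * a - 1)) := ⟨_, rfl⟩
  have hqd : q + 1 ≤ d := by rw [hqq, hd]; exact hq
  have hdpos : 0 < d := by omega
  obtain ⟨Kh, hKh⟩ : ∃ Kh, Kh = (bif Nat.beq n 1 then K else newK S a n s0 K) := ⟨_, rfl⟩
  have key : K * d + (Kh * q + n * ((a - 1) * S)) ≤ K' * d := by
    unfold newK at hK' hKh
    rw [← hd, ← hqq] at hK' hKh
    cases hb : Nat.beq n 1
    · rw [hb, cond_false] at hK' hKh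
      have hpos : 0 < d - q := by omega
      have h1 := Nat.lt_mul_div_succ (K * d + n * ((a - 1) * S)) hpos
      rw [← hK'] at h1
      have h2 : Kh = K' := by rw [hKh, hK', cond_false]
      rw [h2]
      have h3 : (d - q) * K' + K' * q = K' * d := by
        rw [mul_comm (d - q) K', ← Nat.mul_add, Nat.sub_add_cancel (by omega)]
      omega
    · rw [hb, cond_true] at hK' hKh
      have hn : n = 1 := Nat.eq_of_beq_eq_true hb
      have h1 := Nat.lt_mul_div_succ (K * d + (K * q + (a - 1) * S)) hdpos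
      rw [← hK'] at h1
      rw [hKh, hn, one_mul, mul_comm K' d]
      omega
  have hKK : K ≤ K' := by
    have h1 : K * d ≤ K' * d := le_trans (Nat.le_add_right _ _) key
    exact Nat.le_of_mul_le_mul_right h1 hdpos
  rw [← hKh, ← hK']
  refine ⟨hKK, ?_⟩
  have ca : ((a - 1 : ℕ) : ℝ) = (a : ℝ) - 1 := by
    rw [Nat.cast_sub (by omega)]
    simp
  have cas : ((a - 1 - s0 : ℕ) : ℝ) = (a : ℝ) - 1 - s0 := by
    rw [Nat.cast_sub (by omega), ca]
  have c3 : ((3 * a - 1 : ℕ) : ℝ) = 3 * (a : ℝ) - 1 := by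
    rw [Nat.cast_sub (by omega)]
    push_cast
    ring
  have cd : (d : ℝ) = 4 * s0 * ((a : ℝ) - 1) * ((a : ℝ) - 1 - s0) := by
    rw [hd]
    push_cast [ca, cas]
    ring
  have cq : (q : ℝ) = n * (4 * s0 * (3 * (a : ℝ) - 1)) := by
    rw [hqq]
    push_cast [c3]
    ring
  have hreal : (K : ℝ) * d + (Kh * q + n * (((a : ℝ) - 1) * S)) ≤ K' * d := by
    have h1 : ((K * d + (Kh * q + n * ((a - 1) * S)) : ℕ) : ℝ) ≤ ((K' * d : ℕ) : ℝ) := by
      exact_mod_cast key
    push_cast [ca] at h1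
    exact h1
  have hdr : (0 : ℝ) < d := by exact_mod_cast hdpos
  have e0 : (a : ℝ) - 1 - s0 ≠ 0 := by
    have : (0 : ℝ) < (a : ℝ) - 1 - s0 := by linarith
    exact this.ne'
  have e1 : (a : ℝ) - 1 ≠ 0 := by
    have : (0 : ℝ) < (a : ℝ) - 1 := by linarith
    exact this.ne'
  have e2 : (s0 : ℝ) ≠ 0 := by linarith
  have hl : (n : ℝ) * ((Kh : ℝ) / S * ((3 * a - 1) / (((a : ℝ) - 1) * ((a : ℝ) - 1 - s0))) +
      1 / (4 * s0 * ((a : ℝ) - 1 - s0))) = (Kh * q + n * (((a : ℝ) - 1) * S)) / (d * S) := by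
    rw [cd, cq]
    field_simp
  have hr : (K' : ℝ) / S - (K : ℝ) / S = (K' * d - K * d) / (d * S) := by
    field_simp
  rw [hl, hr]
  exact div_le_div_of_nonneg_right (by linarith) (by positivity)

theorem blockS_sound (hstep : StmtStep) {S a b n s0 K : ℕ} {rows : List (List ℕ)}
    {k : List (List ℕ) → ℕ → Bool} (hS : 0 < S)
    (hcount : ((Ico a b).filter Nat.Prime).card ≤ n) (hst : State S b rows K)
    (h : blockS S a n s0 K rows k = true) :
    ∃ (R : List (List ℕ)) (K' : ℕ), k R K' = true ∧ State S a R K' := by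
  obtain ⟨ha, hn, hs1, hs, hq, hside, hk⟩ := (blockS_iff S a n s0 K rows k).mp h
  refine ⟨_, _, hk, ?_⟩
  obtain ⟨hKK, hKreal⟩ := newK_real (K := K) hS ha hs1 hs hq
  obtain ⟨K', hK'⟩ : ∃ K', K' = newK S a n s0 K := ⟨_, rfl⟩
  obtain ⟨Kh, hKh⟩ : ∃ Kh, Kh = (bif Nat.beq n 1 then K else newK S a n s0 K) := ⟨_, rfl⟩
  rw [← hKh] at hside hk hKreal ⊢
  rw [← hK'] at hk hKK hKreal ⊢
  rw [← hK'] at hKh
  have hS' : (0 : ℝ) < S := by exact_mod_cast hS
  have hA : (7 : ℝ) ≤ a := by exact_mod_cast ha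
  obtain ⟨R, hR⟩ : ∃ R, R = newRows S a n s0 Kh (Nat.beq n 1) rows := ⟨_, rfl⟩
  rw [← hR]
  obtain ⟨U, hU⟩ : ∃ U : ℕ → ℕ → ℕ, U = fun i j =>
      bif Nat.beq n 1 then tab rows K i j else tab R K' i j := ⟨_, rfl⟩
  have hentry : ∀ i j, j < (rows.getD i []).length → tab rows K i j ≤ tab R K' i j ∧
      (n : ℝ) * grow a s0 (fun i j => (tab rows K i j : ℝ) / S) (fun i j => (U i j : ℝ) / S)
        ((Kh : ℝ) / S) i j ≤ (tab R K' i j : ℝ) / S - (tab rows K i j : ℝ) / S := by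
    intro i j hj
    have h1 := tab_rowsF (a - 1) s0 (2 * (n * ((a - 1) * (a - 1))) * (a * a * (a * a)))
      (2 * (n * ((a - 1) * (a - 1))) * (a * a * a)) (n * ((a - 1) * (a - 1)) * (2 * (a * a) + a))
      (n * ((a - 1) * (a - 1)) * (a + 2)) (104 * n * ((a - 1) * Kh))
      (n * S * (2 * (a * a * (a * a) * (a * a)))) (2 * (a * a * (a * a) * (a * a)))
      (2 * n * ((a - 1) * (a * a * (a * a) * a))) K Kh K' (Nat.beq n 1) rows hKh i j hj
    have h2 : rowsF (a - 1) s0 (2 * (n * ((a - 1) * (a - 1))) * (a * a * (a * a)))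
      (2 * (n * ((a - 1) * (a - 1))) * (a * a * a)) (n * ((a - 1) * (a - 1)) * (2 * (a * a) + a))
      (n * ((a - 1) * (a - 1)) * (a + 2)) (104 * n * ((a - 1) * Kh))
      (n * S * (2 * (a * a * (a * a) * (a * a)))) (2 * (a * a * (a * a) * (a * a)))
      (2 * n * ((a - 1) * (a * a * (a * a) * a))) Kh (Nat.beq n 1) rows 1 = R := hR.symm
    rw [h2] at h1
    have h3 := entry_real hS ha hs h1
    refine ⟨h3.1, ?_⟩
    unfold grow
    rw [hU]
    exact h3.2
  have hout : ∀ i j, (rows.getD i []).length ≤ j →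
      tab rows K i j = K * (2 ^ i * 3 ^ j) ^ 2 ∧ tab R K' i j = K' * (2 ^ i * 3 ^ j) ^ 2 := by
    intro i j hj
    refine ⟨tab_out rows K i j hj, tab_out R K' i j ?_⟩
    rw [hR]
    unfold newRows
    rw [rowsF_row_length]
    exact hj
  have hVV : ∀ i j, tab rows K i j ≤ tab R K' i j := by
    intro i j
    rcases Nat.lt_or_ge j (rows.getD i []).length with hj | hj
    · exact (hentry i j hj).1
    · rw [(hout i j hj).1, (hout i j hj).2]
      exact Nat.mul_le_mul_right _ hKK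
  have hVVr : ∀ i j, (tab rows K i j : ℝ) / S ≤ (tab R K' i j : ℝ) / S := by
    intro i j
    exact div_le_div_of_nonneg_right (by exact_mod_cast hVV i j) hS'.le
  have hKKr : (K : ℝ) / S ≤ (K' : ℝ) / S :=
    div_le_div_of_nonneg_right (by exact_mod_cast hKK) hS'.le
  have hkn : ∀ k : ℕ, k < n → ∀ x y : ℝ, x ≤ y → x + (k : ℝ) / n * (y - x) ≤ y := by
    intro k hk x y hxy
    have hn0 : (0 : ℝ) < n := by exact_mod_cast hn
    have h1 : (k : ℝ) / n ≤ 1 := by
      rw [div_le_one hn0]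
      exact_mod_cast hk.le
    nlinarith
  have hok : BlockOK a n s0 (fun i j => (tab rows K i j : ℝ) / S)
      (fun i j => (tab R K' i j : ℝ) / S) (fun i j => (U i j : ℝ) / S)
      ((K : ℝ) / S) ((K' : ℝ) / S) ((Kh : ℝ) / S) := by
    refine ⟨ha, hn, hs1, hs, by positivity, hKKr, hVVr, ?_, ?_, ?_, hKreal, ?_⟩
    · intro k hk i j
      rw [hU]
      cases hb : Nat.beq n 1
      · exact hkn k hk _ _ (hVVr i j)
      · have hn1 : n = 1 := Nat.eq_of_beq_eq_true hb
        have hk0 : k = 0 := by omega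
        rw [hk0]
        simp
    · intro k hk
      rw [hKh]
      cases hb : Nat.beq n 1
      · exact hkn k hk _ _ hKKr
      · have hn1 : n = 1 := Nat.eq_of_beq_eq_true hb
        have hk0 : k = 0 := by omega
        rw [hk0]
        simp
    · have h1 : ((6 * Kh * ((s0 - 1) * (s0 - 1) * (a - 1)) : ℕ) : ℝ) ≤
          (((a - s0) * a * S : ℕ) : ℝ) := by exact_mod_cast hside
      have ca : ((a - 1 : ℕ) : ℝ) = (a : ℝ) - 1 := by
        rw [Nat.cast_sub (by omega)]
        simp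
      have cs : ((s0 - 1 : ℕ) : ℝ) = (s0 : ℝ) - 1 := by
        rw [Nat.cast_sub (by omega)]
        simp
      have cas : ((a - s0 : ℕ) : ℝ) = (a : ℝ) - s0 := by
        rw [Nat.cast_sub (by omega)]
      push_cast [ca, cs, cas] at h1
      have h2 : 6 * ((Kh : ℝ) / S) * ((s0 : ℝ) - 1) ^ 2 * ((a : ℝ) - 1) =
          (6 * Kh * (((s0 : ℝ) - 1) * ((s0 : ℝ) - 1) * ((a : ℝ) - 1))) / S := by
        field_simp
      rw [h2, div_le_iff₀ hS']
      exact h1
    · intro i j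
      rcases Nat.lt_or_ge j (rows.getD i []).length with hj | hj
      · exact Or.inl (hentry i j hj).2
      · refine Or.inr ⟨?_, ?_⟩
        · show (tab rows K i j : ℝ) / S = _
          rw [(hout i j hj).1]
          push_cast
          ring
        · show (tab R K' i j : ℝ) / S = _
          rw [(hout i j hj).2]
          push_cast
          ring
  exact block_real hstep hok hcount hst

/-! ## All blocks -/

/-- all blocks, for the kernel -/
noncomputable def runS (S : ℕ) (bl : List (ℕ × ℕ × ℕ)) :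
    ℕ → List (List ℕ) → (List (List ℕ) → ℕ → Bool) → Bool :=
  List.rec (motive := fun _ => ℕ → List (List ℕ) → (List (List ℕ) → ℕ → Bool) → Bool)
    (fun K rows k => k rows K)
    (fun b _ ih K rows k => blockS S b.1 b.2.1 b.2.2 K rows fun R K' => ih K' R k)
    bl

/-- the lower end of the last block -/
def lastA : ℕ → List (ℕ × ℕ × ℕ) → ℕ
  | b, [] => b
  | _, (a, _, _) :: l => lastA a l

theorem runS_sound (hstep : StmtStep) {S : ℕ} (hS : 0 < S) (bl : List (ℕ × ℕ × ℕ)) :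
    ∀ (b K : ℕ) (rows : List (List ℕ)) (k : List (List ℕ) → ℕ → Bool), Counts b bl →
      State S b rows K → runS S bl K rows k = true →
      ∃ (R : List (List ℕ)) (K' : ℕ), k R K' = true ∧ State S (lastA b bl) R K' := by
  induction bl with
  | nil =>
    intro b K rows k _ hst h
    exact ⟨rows, K, h, hst⟩
  | cons x bl ih =>
    obtain ⟨a, n, s0⟩ := x
    intro b K rows k hc hst h
    obtain ⟨hc1, hc2⟩ := hc
    have h' : blockS S a n s0 K rows (fun R K' => runS S bl K' R k) = true := h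
    obtain ⟨R, K', hk, hst'⟩ := blockS_sound hstep hS hc1 hst h'
    exact ih a K' R k hc2 hst' hk

end OddCov
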