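import Mathlib

/-!
# Definitions for MP_b5285d_nt (odd covering systems, 45 ∣ lcm)

See DESIGN.md in this folder.
-/

namespace OddCov

/-- convex monotone sequences vanishing at `0` -/
structure Conv (f : ℕ → ℝ) : Prop where
  zero : f 0 = 0
  mono : Monotone f
  conv : ∀ t, 2 * f (t + 1) ≤ f t + f (t + 2)

/-- `C m` is the multiset of the residues of all classes of modulus `m`; the integer `x` avoids all
classes whose moduli are divisors `> 1` of `Q`. -/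
def Avoids (Q : ℕ) (C : ℕ → Multiset ℤ) (x : ℤ) : Prop :=
  ∀ m ∈ Q.divisors.erase 1, ∀ c ∈ C m, ¬ x ≡ c [ZMOD (m : ℤ)]

/-- the value of an additive potential at the multiplicities of `C` -/
noncomputable def Phi (Q : ℕ) (f : ℕ → ℕ → ℝ) (C : ℕ → Multiset ℤ) : ℝ :=
  ∑ m ∈ Q.divisors.erase 1, f m (Multiset.card (C m))

/-- `Good Q F`: there is an additive potential with total at most `F` which certifies that
systems of classes with potential `< 1` do not cover. -/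
def Good (Q : ℕ) (F : ℕ → ℝ) : Prop :=
  ∃ f : ℕ → ℕ → ℝ, (∀ m, Conv (f m)) ∧
    (∀ t, ∑ m ∈ Q.divisors.erase 1, f m t ≤ F t) ∧
    ∀ C : ℕ → Multiset ℤ, Phi Q f C < 1 → ∃ x : ℤ, Avoids Q C x

/-- weights of the levels `1 ≤ j ≤ γ`; their sum is `1/p` -/
noncomputable def lw (p γ j : ℕ) : ℝ :=
  if j < γ then ((p : ℝ)⁻¹) ^ j - ((p : ℝ)⁻¹) ^ (j + 1) else ((p : ℝ)⁻¹) ^ j

/-- amplification factor at coverage `t/(p-1)`, cut at `s0` -/
noncomputable def rho (p s0 t : ℕ) : ℝ := ((p : ℝ) - 1) / ((p : ℝ) - 1 - (min t s0 : ℕ))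

/-- the linear cost beyond `s0` -/
noncomputable def hin (p s0 t : ℕ) : ℝ := ((t - s0 : ℕ) : ℝ) / ((p : ℝ) - 1 - s0)

/-- growth of a potential caused by the prime `p` (exponent at most `γ`) -/
noncomputable def Xop (p γ : ℕ) (F : ℕ → ℝ) (t : ℕ) : ℝ :=
  ∑ j ∈ Finset.Icc 1 γ, ((p : ℝ)⁻¹) ^ j * (F ((j + 1) * t) - F (j * t))

/-- the share of the classes of level `i` in the growth (coefficient of `ρ`) -/
noncomputable def xs (p γ i : ℕ) (f : ℕ → ℝ) (t : ℕ) : ℝ :=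
  ∑ j ∈ Finset.Icc (max i 1) γ, lw p γ j / (j + 1) * f ((j + 1) * t)
    - (if i = 0 then f t / p else 0)

/-- `∑_{r=1}^{t} ρ_r (x_r - x_{r-1})` -/
noncomputable def vs (R : ℕ → ℝ) (x : ℕ → ℝ) (t : ℕ) : ℝ :=
  ∑ r ∈ Finset.range t, R (r + 1) * (x (r + 1) - x r)

/-- `∑_{r=1}^{k} (ρ_k - ρ_r) (x_r - x_{r-1})` -/
noncomputable def us (R : ℕ → ℝ) (x : ℕ → ℝ) (k : ℕ) : ℝ :=
  ∑ r ∈ Finset.range k, (R k - R (r + 1)) * (x (r + 1) - x r)

/-- potential of the pure classes of the prime `p` -/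
noncomputable def hp (p s0 : ℕ) (X : ℕ → ℝ) (t : ℕ) : ℝ :=
  us (rho p s0) X (min t s0) + hin p s0 t

/-- the residues `c` in the list `L` with `c ≡ y` modulo `q` -/
def pick (q : ℕ) (y : ℤ) (L : Multiset ℤ) : Multiset ℤ :=
  L.filter fun c : ℤ => c ≡ y [ZMOD (q : ℤ)]

/-- the system induced on the fibre over `y mod p^γ` -/
def fib (p γ : ℕ) (C : ℕ → Multiset ℤ) (y : ℤ) (m : ℕ) : Multiset ℤ :=
  ∑ i ∈ Finset.range (γ + 1), pick (p ^ i) y (C (p ^ i * m))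

end OddCov
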