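import Pool.Agent.Work.MP_b5285d_nt.FinalA
import Pool.Agent.Work.MP_b5285d_nt.Growth3
import Pool.Agent.Work.MP_b5285d_nt.CapFinal

/-!
# MP_b5285d_nt: the lcm of an odd covering system has at least eight prime factors

Tables on all integers `1 ≤ t ≤ T`, eleven levels of every prime.
-/

set_option maxRecDepth 100000

namespace OddCov

open Finset

namespace Few

/-! ## real part -/

/-- state on all integers: `W[i]` bounds the potential at `i + 1`, `K t ^ 2` bounds it everywhere -/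
def StL (Q : ℕ) (W : List ℕ) (K : ℕ) : Prop :=
  ∃ Fh : ℕ → ℝ, Conv Fh ∧ Good Q Fh ∧ (∀ i v : ℕ, W[i]? = some v → Fh (i + 1) ≤ (v : ℝ) / SC) ∧
    ∀ t : ℕ, Fh t ≤ (K : ℝ) / SC * (t : ℝ) ^ 2

/-- value with default -/
def val (W : List ℕ) (K n : ℕ) : ℕ := (W[n - 1]?).getD (K * n ^ 2)

theorem le_val {Fh : ℕ → ℝ} {W : List ℕ} {K : ℕ}
    (h1 : ∀ i v : ℕ, W[i]? = some v → Fh (i + 1) ≤ (v : ℝ) / SC)
    (h2 : ∀ t : ℕ, Fh t ≤ (K : ℝ) / SC * (t : ℝ) ^ 2) (n : ℕ) (hn : 1 ≤ n) :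
    Fh n ≤ (val W K n : ℝ) / SC := by
  unfold val
  rcases h : W[n - 1]? with _ | v
  · rw [Option.getD_none]
    refine (h2 n).trans (le_of_eq ?_)
    push_cast
    ring
  · rw [Option.getD_some]
    have := h1 _ _ h
    rwa [Nat.sub_add_cancel hn] at this

/-- the growth bound with eleven levels -/
theorem grow (a γ : ℕ) (Fh : ℕ → ℝ) (K R : ℝ) (v : ℕ → ℝ) (t : ℕ) (ha : 3 ≤ a) (hF : Conv Fh)
    (hK : ∀ t : ℕ, Fh t ≤ K * (t : ℝ) ^ 2) (hv : ∀ k, 1 ≤ k → k ≤ 12 → Fh (k * t) ≤ v k)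
    (hR0 : 0 ≤ R) (hRa : R ≤ a) :
    Fh t + R * Xop a γ Fh t ≤
      (1 - R / a) * v 1 + R * (∑ j ∈ Finset.range 11,
        (((a : ℝ)⁻¹) ^ (j + 1) - ((a : ℝ)⁻¹) ^ (j + 2)) * v (j + 2) +
        184 * (K * (t : ℝ) ^ 2) * ((a : ℝ)⁻¹) ^ 12) := by
  have hapos : (0 : ℝ) < a := by
    have : 0 < a := by omega
    exact_mod_cast this
  have ha3 : (3 : ℝ) ≤ a := by exact_mod_cast ha
  set q : ℝ := (a : ℝ)⁻¹ with hq
  have hq0 : 0 ≤ q := inv_nonneg.mpr hapos.le
  have hq3 : q ≤ 1 / 3 := by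
    rw [hq, one_div]
    exact inv_anti₀ (by norm_num) ha3
  have hq1 : q ≤ 1 := by linarith
  have hK0 : 0 ≤ K := by
    have h1 : Fh 0 ≤ Fh 1 := hF.mono (Nat.zero_le 1)
    have h2 := hK 1
    rw [hF.zero] at h1
    norm_num at h2
    linarith
  have hM : 0 ≤ K * (t : ℝ) ^ 2 := by positivity
  have hmono : Monotone fun m : ℕ => Fh (m * t) := by
    intro m n hmn
    exact hF.mono (Nat.mul_le_mul_right t hmn)
  have hG : ∀ m : ℕ, (fun m : ℕ => Fh (m * t)) m ≤ K * (t : ℝ) ^ 2 * (m : ℝ) ^ 2 := by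
    intro m
    have := hK (m * t)
    push_cast at this
    calc Fh (m * t) ≤ K * ((m : ℝ) * t) ^ 2 := this
      _ = K * (t : ℝ) ^ 2 * (m : ℝ) ^ 2 := by ring
  have hb := Growth3Aux.bound q (K * (t : ℝ) ^ 2) (fun m : ℕ => Fh (m * t)) hq0 hq3 hM hG hmono γ
  have hX : Xop a γ Fh t = ∑ j ∈ Icc 1 γ, q ^ j * (Fh ((j + 1) * t) - Fh (j * t)) := rfl
  rw [← hX] at hb
  have hsum : ∑ j ∈ Finset.range 11, (q ^ (j + 1) - q ^ (j + 2)) * v (j + 2) =
      (q - q ^ 2) * v 2 + (q ^ 2 - q ^ 3) * v 3 + (q ^ 3 - q ^ 4) * v 4 + (q ^ 4 - q ^ 5) * v 5 +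
      (q ^ 5 - q ^ 6) * v 6 + (q ^ 6 - q ^ 7) * v 7 + (q ^ 7 - q ^ 8) * v 8 +
      (q ^ 8 - q ^ 9) * v 9 + (q ^ 9 - q ^ 10) * v 10 + (q ^ 10 - q ^ 11) * v 11 +
      (q ^ 11 - q ^ 12) * v 12 := by
    simp only [Finset.sum_range_succ, Finset.sum_range_zero]
    norm_num
  rw [hsum]
  have hpw : ∀ n : ℕ, 0 ≤ q ^ n - q ^ (n + 1) := by
    intro n
    rw [sub_nonneg]
    exact pow_le_pow_of_le_one hq0 hq1 (Nat.le_succ n)
  have hc : ∀ n k : ℕ, 1 ≤ k → k ≤ 12 →
      (q ^ n - q ^ (n + 1)) * Fh (k * t) ≤ (q ^ n - q ^ (n + 1)) * v k :=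
    fun n k h1 h2 => mul_le_mul_of_nonneg_left (hv k h1 h2) (hpw n)
  have h2 := hc 1 2 (by norm_num) (by norm_num)
  have h3 := hc 2 3 (by norm_num) (by norm_num)
  have h4 := hc 3 4 (by norm_num) (by norm_num)
  have h5 := hc 4 5 (by norm_num) (by norm_num)
  have h6 := hc 5 6 (by norm_num) (by norm_num)
  have h7 := hc 6 7 (by norm_num) (by norm_num)
  have h8 := hc 7 8 (by norm_num) (by norm_num)
  have h9 := hc 8 9 (by norm_num) (by norm_num)
  have h10 := hc 9 10 (by norm_num) (by norm_num)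
  have h11 := hc 10 11 (by norm_num) (by norm_num)
  have h12 := hc 11 12 (by norm_num) (by norm_num)
  norm_num at h2 h3 h4 h5 h6 h7 h8 h9 h10 h11 h12
  beta_reduce at hb
  rw [one_mul] at hb
  have hRq : R * q ≤ 1 := by
    rw [hq, ← div_eq_mul_inv, div_le_one hapos]
    exact hRa
  have hRq' : R / a = R * q := by rw [hq, div_eq_mul_inv]
  rw [hRq']
  have h1 : Fh t ≤ v 1 := by
    have := hv 1 le_rfl (by norm_num)
    rwa [one_mul] at this
  have h1' : (1 - R * q) * Fh t ≤ (1 - R * q) * v 1 :=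
    mul_le_mul_of_nonneg_left h1 (by linarith)
  have hmain : Xop a γ Fh t ≤ -(q * Fh t) + ((q - q ^ 2) * v 2 + (q ^ 2 - q ^ 3) * v 3 +
      (q ^ 3 - q ^ 4) * v 4 + (q ^ 4 - q ^ 5) * v 5 + (q ^ 5 - q ^ 6) * v 6 +
      (q ^ 6 - q ^ 7) * v 7 + (q ^ 7 - q ^ 8) * v 8 + (q ^ 8 - q ^ 9) * v 9 +
      (q ^ 9 - q ^ 10) * v 10 + (q ^ 10 - q ^ 11) * v 11 + (q ^ 11 - q ^ 12) * v 12) +
      184 * (K * (t : ℝ) ^ 2) * q ^ 12 := by
    linarith
  have := mul_le_mul_of_nonneg_left hmain hR0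
  linarith

/-! ## the checker -/

/-- add `c * W(k t)` to the accumulator -/
def strideAdd (k c K : ℕ) : ℕ → List ℕ → List ℕ → List ℕ
  | t, x :: xs, P => (x + c * P.headD (K * (k * t) ^ 2)) :: strideAdd k c K (t + 1) xs (P.drop k)
  | _, [], _ => []

/-- start of the accumulator -/
def accInit (K : ℕ) : ℕ → List ℕ → List ℕ
  | t, _ :: ws => 184 * K * (t * t) :: accInit K (t + 1) ws
  | _, [] => []

/-- all levels `k = 2, …, n + 1` -/
def accAll (a K : ℕ) (W : List ℕ) : ℕ → List ℕ → List ℕ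
  | 0, acc => acc
  | n + 1, acc =>
      accAll a K W n (strideAdd (n + 2) ((a - 1) * a ^ (10 - n)) K 1 acc (W.drop (n + 1)))

/-- combination -/
def finL (a s0 : ℕ) : ℕ → List ℕ → List ℕ → List ℕ
  | t, w :: ws, x :: xs =>
      ((w * ((a * (a - 1 - min t s0) - (a - 1)) * a ^ 11) + (a - 1) * x + SC * (t - s0) * a ^ 12) /
        (a ^ 12 * (a - 1 - min t s0)) + 1) :: finL a s0 (t + 1) ws xs
  | _, _, _ => []

/-- one prime -/
def stepL (a s0 : ℕ) (W : List ℕ) (K : ℕ) : Option (List ℕ × ℕ) :=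
  if 5 ≤ a ∧ 1 ≤ s0 ∧ s0 + 2 ≤ a ∧
      K * (s0 - 1) ^ 2 * (4 * a ^ 2 - 3 * a + 1) ≤ SC * ((a - s0) * (a - 1) ^ 2) then
    some (finL a s0 1 W (accAll a K W 11 (accInit K 1 W)),
      K + (K * (3 * a - 1) * (4 * s0) + (a - 1) * SC) / (4 * s0 * (a - 1) * (a - 1 - s0)) + 1)
  else none

theorem headD_eq (d : ℕ) (u : List ℕ) : u.headD d = (u[0]?).getD d := by
  cases u <;> simp

theorem strideAdd_get (k c K : ℕ) : ∀ (i t : ℕ) (xs P : List ℕ),
    (strideAdd k c K t xs P)[i]? = (xs[i]?).map fun x =>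
      x + c * (P[k * i]?).getD (K * (k * (t + i)) ^ 2)
  | 0, t, xs, P => by
      cases xs with
      | nil => simp [strideAdd]
      | cons x xs =>
        rw [strideAdd, List.getElem?_cons_zero, List.getElem?_cons_zero, Option.map_some,
          headD_eq, mul_zero, add_zero]
  | i + 1, t, xs, P => by
      cases xs with
      | nil => simp [strideAdd]
      | cons x xs =>
        rw [strideAdd, List.getElem?_cons_succ, strideAdd_get k c K i (t + 1) xs (P.drop k),
          List.getElem?_cons_succ, List.getElem?_drop]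
        have e1 : k + k * i = k * (i + 1) := by ring
        have e2 : t + 1 + i = t + (i + 1) := by ring
        rw [e1, e2]

theorem accInit_get (K : ℕ) : ∀ (i t : ℕ) (ws : List ℕ),
    (accInit K t ws)[i]? = (ws[i]?).map fun _ => 184 * K * ((t + i) * (t + i))
  | 0, t, ws => by
      cases ws with
      | nil => simp [accInit]
      | cons w ws => simp [accInit]
  | i + 1, t, ws => by
      cases ws with
      | nil => simp [accInit]
      | cons w ws =>
        rw [accInit, List.getElem?_cons_succ, accInit_get K i (t + 1) ws,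
          List.getElem?_cons_succ]
        have e2 : t + 1 + i = t + (i + 1) := by ring
        rw [e2]

theorem accAll_get (a K : ℕ) (W : List ℕ) : ∀ (n i : ℕ) (acc : List ℕ),
    (accAll a K W n acc)[i]? = (acc[i]?).map fun x =>
      x + ∑ j ∈ Finset.range n, (a - 1) * a ^ (10 - j) * val W K ((j + 2) * (i + 1))
  | 0, i, acc => by simp [accAll]
  | n + 1, i, acc => by
      rw [accAll, accAll_get a K W n i, strideAdd_get, Option.map_map]
      congr 1
      funext x
      rw [Function.comp_apply, Finset.sum_range_succ, List.getElem?_drop]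
      have e1 : n + 1 + (n + 2) * i = (n + 2) * (i + 1) - 1 := by
        have : (n + 2) * (i + 1) = (n + 2) * i + (n + 2) := by ring
        omega
      have e2 : K * ((n + 2) * (1 + i)) ^ 2 = K * ((n + 2) * (i + 1)) ^ 2 := by ring
      rw [e1, e2]
      unfold val
      ring

theorem finL_get (a s0 : ℕ) : ∀ (i t : ℕ) (ws xs : List ℕ),
    (finL a s0 t ws xs)[i]? = (ws[i]?).bind fun w => (xs[i]?).map fun x =>
      (w * ((a * (a - 1 - min (t + i) s0) - (a - 1)) * a ^ 11) + (a - 1) * x +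
        SC * (t + i - s0) * a ^ 12) / (a ^ 12 * (a - 1 - min (t + i) s0)) + 1
  | 0, t, ws, xs => by
      cases ws with
      | nil => simp [finL]
      | cons w ws =>
        cases xs with
        | nil => simp [finL]
        | cons x xs => simp [finL]
  | i + 1, t, ws, xs => by
      cases ws with
      | nil => simp [finL]
      | cons w ws =>
        cases xs with
        | nil => simp [finL]
        | cons x xs =>
          rw [finL, List.getElem?_cons_succ, finL_get a s0 i (t + 1) ws xs,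
            List.getElem?_cons_succ, List.getElem?_cons_succ]
          have e2 : t + 1 + i = t + (i + 1) := by ring
          rw [e2]

theorem stepL_sound {a s0 K K' : ℕ} {W W' : List ℕ} (h : stepL a s0 W K = some (W', K'))
    {p γ Q : ℕ} (hp : p.Prime) (hap : a ≤ p) (hcop : Nat.Coprime p Q) (hQ : 0 < Q)
    (hSt : StL Q W K) : StL (p ^ γ * Q) W' K' := by
  unfold stepL at h
  split_ifs at h with hcond
  obtain ⟨ha, hs, hsa, hside⟩ := hcond
  rw [Option.some.injEq, Prod.mk.injEq] at h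
  obtain ⟨rfl, rfl⟩ := h
  have hSC := Cap.SC_pos
  obtain ⟨Fh, hconv, hgood, hFw, hFK⟩ := hSt
  have haR : (5 : ℝ) ≤ a := by exact_mod_cast ha
  have ha0 : (0 : ℝ) < a := by linarith
  have hs0 : (1 : ℝ) ≤ s0 := by exact_mod_cast hs
  have hsaR : (s0 : ℝ) + 2 ≤ a := by exact_mod_cast hsa
  have c1 : ((a - 1 : ℕ) : ℝ) = (a : ℝ) - 1 := by
    rw [Nat.cast_sub (by omega)]
    norm_num
  have c2 : ((a - 1 - s0 : ℕ) : ℝ) = (a : ℝ) - 1 - s0 := by
    rw [Nat.cast_sub (by omega), c1]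
  have c3 : ((a - s0 : ℕ) : ℝ) = (a : ℝ) - s0 := Nat.cast_sub (by omega)
  have c4 : ((3 * a - 1 : ℕ) : ℝ) = 3 * (a : ℝ) - 1 := by
    rw [Nat.cast_sub (by omega)]
    push_cast
    ring
  have c5 : ((4 * a ^ 2 - 3 * a + 1 : ℕ) : ℝ) = 4 * (a : ℝ) ^ 2 - 3 * a + 1 := by
    rw [Nat.cast_add, Nat.cast_sub (by nlinarith)]
    push_cast
    ring
  have hSide : Side a s0 ((K : ℝ) / SC) := by
    unfold Side
    have h1 : (K : ℝ) * ((s0 - 1 : ℕ) : ℝ) ^ 2 * ((4 * a ^ 2 - 3 * a + 1 : ℕ) : ℝ) ≤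
        SC * (((a - s0 : ℕ) : ℝ) * ((a - 1 : ℕ) : ℝ) ^ 2) := by exact_mod_cast hside
    rw [c5, c3, c1] at h1
    have e : (K : ℝ) / SC * ((s0 - 1 : ℕ) : ℝ) ^ 2 * (4 * (a : ℝ) ^ 2 - 3 * a + 1) =
        ((K : ℝ) * ((s0 - 1 : ℕ) : ℝ) ^ 2 * (4 * (a : ℝ) ^ 2 - 3 * a + 1)) / SC := by ring
    rw [e, div_le_iff₀ hSC]
    linarith
  have hG := oneP_all a p γ s0 Q Fh ((K : ℝ) / SC) ha hap hp hcop hQ hs hsa hconv hgood hFK hSide
  obtain ⟨F2, hc2, hle, hG2⟩ := stmtExact _ _ hG
  refine ⟨F2, hc2, hG2, ?_, ?_⟩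
  · intro i v hv
    rw [finL_get] at hv
    rcases hw : W[i]? with _ | w
    · rw [hw] at hv
      simp at hv
    · rw [hw, Option.bind_some, accAll_get, accInit_get, hw, Option.map_some, Option.map_some,
        Option.map_some, Option.some.injEq] at hv
      refine (hle (i + 1)).trans ?_
      have hρ0 : 0 ≤ rho a s0 (i + 1) := by
        unfold rho
        have hmin : ((min (i + 1) s0 : ℕ) : ℝ) ≤ s0 := by exact_mod_cast min_le_right _ _
        apply div_nonneg <;> linarith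
      have hρa : rho a s0 (i + 1) ≤ a := by
        unfold rho
        have hmin : ((min (i + 1) s0 : ℕ) : ℝ) ≤ s0 := by exact_mod_cast min_le_right _ _
        rw [div_le_iff₀ (by linarith)]
        nlinarith
      have hg := grow a γ Fh ((K : ℝ) / SC) (rho a s0 (i + 1))
        (fun k => (val W K (k * (i + 1)) : ℝ) / SC) (i + 1) (by omega) hconv hFK
        (fun k hk _ => le_val hFw hFK _ (Nat.mul_pos hk (Nat.succ_pos i))) hρ0 hρa
      refine (add_le_add_left hg _).trans ?_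
      have hmlt : min (1 + i) s0 < a - 1 := lt_of_le_of_lt (min_le_right _ _) (by omega)
      set m := min (1 + i) s0 with hm
      have hm' : min (i + 1) s0 = m := by rw [hm, add_comm]
      have cm : ((a - 1 - m : ℕ) : ℝ) = (a : ℝ) - 1 - m := by
        rw [Nat.cast_sub hmlt.le, c1]
      have hms : m ≤ s0 := by rw [hm]; exact min_le_right _ _
      have hmR : (m : ℝ) ≤ s0 := by exact_mod_cast hms
      have hden : (0 : ℝ) < (a : ℝ) - 1 - m := by linarith
      have cam : ((a * (a - 1 - m) - (a - 1) : ℕ) : ℝ) = a * ((a : ℝ) - 1 - m) - (a - 1) := by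
        rw [Nat.cast_sub, Nat.cast_mul, cm, c1]
        have h1 : 1 ≤ a - 1 - m := by omega
        calc a - 1 ≤ a * 1 := by omega
          _ ≤ a * (a - 1 - m) := Nat.mul_le_mul_left a h1
      have hval1 : val W K (1 * (i + 1)) = w := by
        unfold val
        rw [one_mul, Nat.add_sub_cancel, hw, Option.getD_some]
      have hrho : rho a s0 (i + 1) = ((a : ℝ) - 1) / ((a : ℝ) - 1 - m) := by
        unfold rho
        rw [hm']
      have hhin : hin a s0 (i + 1) = ((i + 1 - s0 : ℕ) : ℝ) / ((a : ℝ) - 1 - m) := by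
        unfold hin
        rcases le_total (i + 1) s0 with h | h
        · rw [Nat.sub_eq_zero_of_le h]
          simp
        · have : m = s0 := by rw [← hm', Nat.min_eq_right h]
          rw [this]
      -- numerator
      set N := w * ((a * (a - 1 - m) - (a - 1)) * a ^ 11) + (a - 1) *
        (184 * K * ((1 + i) * (1 + i)) + ∑ j ∈ Finset.range 11,
          (a - 1) * a ^ (10 - j) * val W K ((j + 2) * (i + 1))) + SC * (1 + i - s0) * a ^ 12
        with hN
      have hdiv := Cap.div_add_one_ge N (a ^ 12 * (a - 1 - m))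
        (Nat.mul_pos (pow_pos (by omega) _) (by omega))
      have hv' : (v : ℝ) = ((N / (a ^ 12 * (a - 1 - m)) : ℕ) : ℝ) + 1 := by
        rw [← hv]
        push_cast
        ring
      rw [hv']
      have hcastD : ((a ^ 12 * (a - 1 - m) : ℕ) : ℝ) = (a : ℝ) ^ 12 * ((a : ℝ) - 1 - m) := by
        rw [Nat.cast_mul, cm]
        push_cast
        ring
      rw [hcastD] at hdiv
      refine le_trans (le_of_eq ?_) (div_le_div_of_nonneg_right hdiv hSC.le)
      have hsumc : ((∑ j ∈ Finset.range 11,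
          (a - 1) * a ^ (10 - j) * val W K ((j + 2) * (i + 1)) : ℕ) : ℝ) =
          ∑ j ∈ Finset.range 11, ((a : ℝ) - 1) * (a : ℝ) ^ (10 - j) *
            (val W K ((j + 2) * (i + 1)) : ℝ) := by
        push_cast [c1]
        rfl
      have hNc : (N : ℝ) = w * ((a * ((a : ℝ) - 1 - m) - (a - 1)) * (a : ℝ) ^ 11) +
          ((a : ℝ) - 1) * (184 * K * ((1 + i) * (1 + i)) +
            ∑ j ∈ Finset.range 11, ((a : ℝ) - 1) * (a : ℝ) ^ (10 - j) *
            (val W K ((j + 2) * (i + 1)) : ℝ)) + SC * ((1 + i - s0 : ℕ) : ℝ) * (a : ℝ) ^ 12 := by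
        rw [hN, Nat.cast_add, Nat.cast_add, Nat.cast_mul, Nat.cast_mul, Nat.cast_mul, cam, c1,
          Nat.cast_add, hsumc]
        push_cast
        ring
      rw [hNc, hrho, hhin, hval1]
      have hsum2 : ∑ j ∈ Finset.range 11, (((a : ℝ)⁻¹) ^ (j + 1) - ((a : ℝ)⁻¹) ^ (j + 2)) *
          ((val W K ((j + 2) * (i + 1)) : ℝ) / SC) =
          (∑ j ∈ Finset.range 11, ((a : ℝ) - 1) * (a : ℝ) ^ (10 - j) *
            (val W K ((j + 2) * (i + 1)) : ℝ)) / ((a : ℝ) ^ 12 * SC) := by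
        rw [Finset.sum_div]
        refine Finset.sum_congr rfl fun j hj => ?_
        have hj' : j ≤ 10 := by
          have := Finset.mem_range.1 hj
          omega
        have e12 : (a : ℝ) ^ 12 = (a : ℝ) ^ (10 - j) * (a : ℝ) ^ (j + 2) := by
          rw [← pow_add]
          congr 1
          omega
        rw [e12, inv_pow, inv_pow]
        have h1 : (a : ℝ) ^ (10 - j) ≠ 0 := pow_ne_zero _ ha0.ne'
        have h2 : (a : ℝ) ^ (j + 2) ≠ 0 := pow_ne_zero _ ha0.ne'
        have h3 : ((a : ℝ) ^ (j + 1))⁻¹ = a * ((a : ℝ) ^ (j + 2))⁻¹ := by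
          rw [pow_succ (a : ℝ) (j + 1)]
          field_simp
        rw [h3]
        field_simp
      rw [hsum2]
      have e1i : (1 + i - s0 : ℕ) = i + 1 - s0 := by omega
      rw [e1i, inv_pow]
      have ha12 : (a : ℝ) ^ 12 ≠ 0 := pow_ne_zero _ ha0.ne'
      set Sg := ∑ j ∈ Finset.range 11, ((a : ℝ) - 1) * (a : ℝ) ^ (10 - j) *
            (val W K ((j + 2) * (i + 1)) : ℝ) with hSg
      have hden' := hden.ne'
      have hSC' := hSC.ne'
      push_cast
      field_simp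
      ring
  · intro t
    refine (hle t).trans ?_
    have h4 := stmtQuad a γ s0 t Fh ((K : ℝ) / SC) ha hs hsa hconv hFK
    refine h4.trans (mul_le_mul_of_nonneg_right ?_ (by positivity))
    have hdiv := Cap.div_add_one_ge (K * (3 * a - 1) * (4 * s0) + (a - 1) * SC)
      (4 * s0 * (a - 1) * (a - 1 - s0))
      (Nat.mul_pos (Nat.mul_pos (by omega) (by omega)) (by omega))
    have e1 : ((K * (3 * a - 1) * (4 * s0) + (a - 1) * SC : ℕ) : ℝ) =
        K * (3 * (a : ℝ) - 1) * (4 * s0) + ((a : ℝ) - 1) * SC := by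
      rw [Nat.cast_add, Nat.cast_mul, Nat.cast_mul, Nat.cast_mul, Nat.cast_mul, c4, c1]
      norm_num
    have e2 : ((4 * s0 * (a - 1) * (a - 1 - s0) : ℕ) : ℝ) =
        4 * s0 * ((a : ℝ) - 1) * ((a : ℝ) - 1 - s0) := by
      rw [Nat.cast_mul, Nat.cast_mul, Nat.cast_mul, c2, c1]
      norm_num
    rw [e1, e2] at hdiv
    have e3 : (K : ℝ) / SC + IncK a s0 ((K : ℝ) / SC) =
        (K + (K * (3 * (a : ℝ) - 1) * (4 * s0) + ((a : ℝ) - 1) * SC) /
          (4 * s0 * ((a : ℝ) - 1) * ((a : ℝ) - 1 - s0))) / SC := by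
      unfold IncK
      have h1 : (a : ℝ) - 1 ≠ 0 := by linarith
      have h2 : (a : ℝ) - 1 - s0 ≠ 0 := by linarith
      have h3 : (s0 : ℝ) ≠ 0 := by linarith
      field_simp
    rw [e3]
    refine div_le_div_of_nonneg_right ?_ hSC.le
    push_cast
    push_cast at hdiv
    linarith

/-! ## few primes -/

/-- all prime factors are at least `a` and there are at most `n` of them -/
def FewR (a n Q : ℕ) : Prop :=
  0 < Q ∧ (∀ p : ℕ, p.Prime → p ∣ Q → a ≤ p) ∧ Q.primeFactors.card ≤ n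

theorem few_step {a b n s0 K K' : ℕ} {W W' : List ℕ} (ha : a.Prime)
    (hab : ∀ q ∈ Finset.Ioo a b, ¬ q.Prime) (hrun : stepL a s0 W K = some (W', K'))
    (h : ∀ Q, FewR b n Q → StL Q W K) : ∀ Q, FewR a (n + 1) Q → StL Q W' K' := by
  intro Q hQ
  obtain ⟨hpos, hpr, hcard⟩ := hQ
  by_cases h1 : Q = 1
  · subst h1
    have hF : FewR b n 1 := by
      refine ⟨one_pos, fun p hp hd => ?_, by simp⟩
      exact absurd (Nat.dvd_one.1 hd) hp.ne_one
    have := stepL_sound hrun (p := a) (γ := 0) (Q := 1) ha le_rfl (Nat.coprime_one_right a)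
      one_pos (h 1 hF)
    simpa using this
  · set p := Q.minFac with hp
    have hpp : p.Prime := Nat.minFac_prime h1
    have hpd : p ∣ Q := Nat.minFac_dvd Q
    have hQ0 : Q ≠ 0 := hpos.ne'
    set Q' := ordCompl[p] Q with hQ'
    have hdvd : Q' ∣ Q := Nat.ordCompl_dvd Q p
    have hpos' : 0 < Q' := Nat.ordCompl_pos p hQ0
    have hnd : ¬ p ∣ Q' := Nat.not_dvd_ordCompl hpp hQ0
    have hap : a ≤ p := hpr p hpp hpd
    have hF : FewR b n Q' := by
      refine ⟨hpos', fun q hq hd => ?_, ?_⟩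
      · have hle : p ≤ q := Nat.minFac_le_of_dvd hq.two_le (hd.trans hdvd)
        have hne : p ≠ q := by
          intro he
          exact hnd (he ▸ hd)
        have hlt : a < q := lt_of_le_of_lt hap (lt_of_le_of_ne hle hne)
        by_contra hcon
        exact hab q (Finset.mem_Ioo.2 ⟨hlt, not_le.1 hcon⟩) hq
      · have hsub : Q'.primeFactors ⊂ Q.primeFactors := by
          refine (Finset.ssubset_iff_of_subset (Nat.primeFactors_mono hdvd hQ0)).2
            ⟨p, Nat.mem_primeFactors.2 ⟨hpp, hpd, hQ0⟩, fun hmem => ?_⟩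
          exact hnd (Nat.mem_primeFactors.1 hmem).2.1
        have := Finset.card_lt_card hsub
        omega
    have e : Q = p ^ Q.factorization p * Q' := (Nat.ordProj_mul_ordCompl_eq_self Q p).symm
    rw [e]
    exact stepL_sound hrun hpp hap (Nat.coprime_ordCompl hpp hQ0) hpos' (h Q' hF)

/-- the initial state -/
theorem few_init (b T : ℕ) : ∀ Q, FewR b 0 Q → StL Q (List.replicate T 0) 0 := by
  intro Q hQ
  obtain ⟨hpos, _, hcard⟩ := hQ
  have h1 : Q = 1 := by
    have : Q.primeFactors = ∅ := Finset.card_eq_zero.1 (Nat.le_zero.1 hcard)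
    rcases Nat.primeFactors_eq_empty.1 this with h | h
    · omega
    · exact h
  subst h1
  refine ⟨fun _ => 0, ⟨rfl, fun _ _ _ => le_rfl, fun _ => by norm_num⟩, ⟨fun _ _ => 0, ?_, ?_, ?_⟩,
    fun i v _ => by positivity, fun t => by simp⟩
  · exact fun _ => ⟨rfl, fun _ _ _ => le_rfl, fun _ => by norm_num⟩
  · intro t
    simp
  · intro C _
    refine ⟨0, ?_⟩
    intro m hm
    simp at hm

/-- run over a list of primes -/
def runL : List (ℕ × ℕ) → List ℕ → ℕ → Option (List ℕ × ℕ)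
  | [], W, K => some (W, K)
  | (a, s0) :: l, W, K =>
      match stepL a s0 W K with
      | none => none
      | some (W', K') => runL l W' K'

/-- validity of a list of consecutive primes below `b` -/
def ListOKL : ℕ → List (ℕ × ℕ) → Prop
  | _, [] => True
  | b, (a, _) :: l => a.Prime ∧ (∀ q ∈ Finset.Ioo a b, ¬ q.Prime) ∧ ListOKL a l

theorem runL_sound : ∀ (l : List (ℕ × ℕ)) (b n K K' : ℕ) (W W' : List ℕ),
    runL l W K = some (W', K') → (∀ Q, FewR b n Q → StL Q W K) → ListOKL b l →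
    ∀ Q, FewR (Cap.lastC b l) (n + l.length) Q → StL Q W' K'
  | [], b, n, K, K', W, W', hrun, h, _ => by
      rw [runL, Option.some.injEq, Prod.mk.injEq] at hrun
      obtain ⟨rfl, rfl⟩ := hrun
      exact h
  | (a, s0) :: l, b, n, K, K', W, W', hrun, h, hok => by
      rw [runL] at hrun
      rcases hst : stepL a s0 W K with _ | ⟨W1, K1⟩
      · rw [hst] at hrun
        simp at hrun
      · rw [hst] at hrun
        obtain ⟨h1, h2, h3⟩ := hok
        have := runL_sound l a (n + 1) K1 K' W1 W' hrun (few_step h1 h2 hst h) h3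
        intro Q hQ
        refine this Q ?_
        rw [List.length_cons] at hQ
        have e : n + (l.length + 1) = n + 1 + l.length := by ring
        rw [e] at hQ
        exact hQ

/-- final check -/
def chkL (W : List ℕ) (K : ℕ) : Bool :=
  decide (3 ^ 11 * val W K 1 + (∑ j ∈ Finset.range 11, 4 * 3 ^ (10 - j) * val W K (j + 2)) +
    368 * K < 3 ^ 12 * SC)

theorem chkL_sound {W : List ℕ} {K : ℕ} (h : chkL W K = true) {Fh : ℕ → ℝ} (hconv : Conv Fh)
    (hFw : ∀ i v : ℕ, W[i]? = some v → Fh (i + 1) ≤ (v : ℝ) / SC)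
    (hFK : ∀ t : ℕ, Fh t ≤ (K : ℝ) / SC * (t : ℝ) ^ 2) (γ : ℕ) :
    Fh 1 + 2 * Xop 3 γ Fh 1 < 1 := by
  have hSC := Cap.SC_pos
  have hg := grow 3 γ Fh ((K : ℝ) / SC) 2 (fun k => (val W K (k * 1) : ℝ) / SC) 1 le_rfl hconv
    hFK (fun k hk _ => le_val hFw hFK _ (by omega)) (by norm_num) (by norm_num)
  refine lt_of_le_of_lt hg ?_
  have h1 := of_decide_eq_true h
  have h2 : (3 : ℝ) ^ 11 * val W K 1 + (∑ j ∈ Finset.range 11,
      4 * 3 ^ (10 - j) * (val W K (j + 2) : ℝ)) + 368 * K < 3 ^ 12 * SC := by exact_mod_cast h1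
  simp only [Finset.sum_range_succ, Finset.sum_range_zero, zero_add, Nat.reduceAdd,
    Nat.reduceSub, mul_one] at h2 ⊢
  rw [← sub_pos] at h2 ⊢
  have key : ∀ x S : ℝ, 0 < S → 0 < x → 0 < x / (3 ^ 12 * S) := by
    intro x S hS hx
    positivity
  have := key _ _ hSC h2
  refine lt_of_lt_of_eq this ?_
  push_cast
  field_simp
  ring

/-- the kernel run: six primes -/
def chkFew : Bool :=
  match runL [(19, 9), (17, 8), (13, 6), (11, 4), (7, 2), (5, 1)] (List.replicate 400 0) 0 with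
  | none => false
  | some (W, K) => chkL W K

theorem chkFew_true : chkFew = true := by decide +kernel

theorem few_main (Q : ℕ) (hQ : FewR 5 6 Q) (h3 : Nat.Coprime 3 Q) (γ : ℕ) (hγ : 1 ≤ γ)
    (r : ℕ → ℤ) : ∃ x : ℤ, Avoids (3 ^ γ * Q) (fun m => {r m}) x := by
  have h := chkFew_true
  unfold chkFew at h
  rcases hrun : runL [(19, 9), (17, 8), (13, 6), (11, 4), (7, 2), (5, 1)]
    (List.replicate 400 0) 0 with _ | ⟨W, K⟩
  · rw [hrun] at h
    simp at h
  · rw [hrun] at h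
    simp only at h
    have hs := runL_sound _ 23 0 0 K _ W hrun (few_init 23 400)
      ⟨by norm_num, by decide, by norm_num, by decide, by norm_num, by decide, by norm_num,
        by decide, by norm_num, by decide, by norm_num, by decide, trivial⟩ Q
      (by simpa [Cap.lastC] using hQ)
    obtain ⟨Fh, hconv, hgood, hFw, hFK⟩ := hs
    exact noFive_all γ Q Fh r hQ.1 h3 hγ hgood (chkL_sound h hconv hFw hFK γ)

theorem eight {S : Finset ℕ} {r : ℕ → ℤ} (hS : ∀ m ∈ S, 1 < m ∧ Odd m)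
    (hcov : ∀ x : ℤ, ∃ m ∈ S, x ≡ r m [ZMOD (m : ℤ)]) : 8 ≤ (S.lcm id).primeFactors.card := by
  by_contra hlt
  push Not at hlt
  have hL := Cap.lcm_pos S (fun m hm => (hS m hm).1)
  have hodd := Cap.lcm_odd S (fun m hm => (hS m hm).2)
  have h45 := main45 stmtGrowth3 S r hS hcov
  have h3 : 3 ∣ S.lcm id := dvd_trans (by norm_num) h45
  have hRC := Cap.rc_of _ hL hodd ∅ 5 (by simp) (Cap.no_cap _)
  set L := S.lcm id with hLdef
  have hpos : 0 < ordCompl[3] L := Nat.ordCompl_pos 3 hL.ne'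
  have hnd : ¬ 3 ∣ ordCompl[3] L := Nat.not_dvd_ordCompl Nat.prime_three hL.ne'
  have hdvd : ordCompl[3] L ∣ L := Nat.ordCompl_dvd L 3
  have hF : FewR 5 6 (ordCompl[3] L) := by
    refine ⟨hpos, fun p hp hd => (hRC.1.2 p hp hd).1, ?_⟩
    have hsub : (ordCompl[3] L).primeFactors ⊂ L.primeFactors := by
      refine (Finset.ssubset_iff_of_subset (Nat.primeFactors_mono hdvd hL.ne')).2
        ⟨3, Nat.mem_primeFactors.2 ⟨Nat.prime_three, h3, hL.ne'⟩, fun hmem => ?_⟩
      exact hnd (Nat.mem_primeFactors.1 hmem).2.1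
    have := Finset.card_lt_card hsub
    omega
  have hx := few_main _ hF (Nat.coprime_ordCompl Nat.prime_three hL.ne')
    (L.factorization 3 + 1) (by omega) r
  refine Cap.no_avoid S r (fun m hm => (hS m hm).1) hcov _
    (Nat.mul_pos (pow_pos (by norm_num) _) hpos) ?_ hx
  calc L = 3 ^ L.factorization 3 * ordCompl[3] L := (Nat.ordProj_mul_ordCompl_eq_self _ 3).symm
    _ ∣ _ := Nat.mul_dvd_mul_right (pow_dvd_pow 3 (by omega)) _

end Few

end OddCov
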