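import Pool.Agent.Work.MP_b5285d_nt.Stmts

/-!
# MP_b5285d_nt: general weight `M` in the fibre step, auxiliary functions

Generalisation of `Rho.lean`, `Hp.lean`, `HpInterp.lean`, `Total.lean` (helper61, helper73,
helper84): the number `p - 1` is replaced by a real number `M`.
-/

namespace OddCov

open Finset

/-- amplification factor at coverage `t / M`, cut at `s0` -/
noncomputable def rhoM (M : ℝ) (s0 t : ℕ) : ℝ := M / (M - (min t s0 : ℕ))

/-- the linear cost beyond `s0` -/
noncomputable def hinM (M : ℝ) (s0 t : ℕ) : ℝ := ((t - s0 : ℕ) : ℝ) / (M - s0)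

/-- potential of the pure classes -/
noncomputable def hpM (M : ℝ) (s0 : ℕ) (X : ℕ → ℝ) (t : ℕ) : ℝ :=
  us (rhoM M s0) X (min t s0) + hinM M s0 t

/-- the fibre step with a general weight -/
def StmtStepM : Prop :=
  ∀ (p γ s0 Q : ℕ) (M : ℝ) (F' F : ℕ → ℝ), p.Prime → Nat.Coprime p Q → 0 < Q → (s0 : ℝ) < M →
    M ≤ p * (M - s0) → M * ∑ j ∈ Icc 1 γ, ((p : ℝ)⁻¹) ^ j ≤ 1 → Good Q F' →
    ∑ j ∈ Icc 1 γ, ((p : ℝ)⁻¹) ^ j * F' ((j + 1) * (s0 - 1)) ≤ (M - s0 + 1) / M →
    (∀ t, F' t + rhoM M s0 t * Xop p γ F' t + hinM M s0 t ≤ F t) →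
    Good (p ^ γ * Q) F

namespace StepMAux

theorem den {M : ℝ} {s0 : ℕ} (h : (s0 : ℝ) < M) (t : ℕ) : 0 < M - (min t s0 : ℕ) := by
  have h1 : ((min t s0 : ℕ) : ℝ) ≤ (s0 : ℝ) := by exact_mod_cast min_le_right t s0
  linarith

theorem rho_mono {M : ℝ} {s0 : ℕ} (h : (s0 : ℝ) < M) : Monotone (rhoM M s0) := by
  have hs : (0 : ℝ) ≤ s0 := Nat.cast_nonneg _
  intro a b hab
  unfold rhoM
  have ha := den h a
  have hb := den h b
  have hmin : ((min a s0 : ℕ) : ℝ) ≤ (min b s0 : ℕ) := by
    exact_mod_cast min_le_min_right s0 hab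
  exact div_le_div_of_nonneg_left (by linarith) (by linarith) (by linarith)

theorem one_le_rho {M : ℝ} {s0 : ℕ} (h : (s0 : ℝ) < M) (t : ℕ) : 1 ≤ rhoM M s0 t := by
  unfold rhoM
  have ht := den h t
  rw [le_div_iff₀ ht]
  have : (0 : ℝ) ≤ (min t s0 : ℕ) := Nat.cast_nonneg _
  linarith

theorem rho_le {M : ℝ} {s0 p : ℕ} (h : (s0 : ℝ) < M) (h2 : M ≤ p * (M - s0)) (t : ℕ) :
    rhoM M s0 t ≤ p := by
  unfold rhoM
  have ht := den h t
  rw [div_le_iff₀ ht]
  have hp : (0 : ℝ) ≤ p := Nat.cast_nonneg _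
  have h1 : ((min t s0 : ℕ) : ℝ) ≤ (s0 : ℝ) := by exact_mod_cast min_le_right t s0
  nlinarith

theorem rho_interp {M : ℝ} {s0 : ℕ} (h : (s0 : ℝ) < M) (k : ℕ) (θ : ℝ) (h0 : 0 ≤ θ) (h1 : θ ≤ 1) :
    M / (M - min ((k : ℝ) + θ) s0) ≤ (1 - θ) * rhoM M s0 k + θ * rhoM M s0 (k + 1) := by
  have hs : (0 : ℝ) ≤ s0 := Nat.cast_nonneg _
  rcases Nat.lt_or_ge k s0 with hk | hk
  · have hk1 : ((k : ℝ) + 1) ≤ s0 := by exact_mod_cast hk
    have e1 : min ((k : ℝ) + θ) s0 = k + θ := min_eq_left (by linarith)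
    unfold rhoM
    rw [e1, min_eq_left hk.le, min_eq_left (show k + 1 ≤ s0 from hk)]
    push_cast
    set a : ℝ := M - k with ha
    have ha2 : 1 < a := by rw [ha]; linarith
    have hd1 : 0 < a - 1 := by linarith
    have hd2 : 0 < a - θ := by linarith
    have e2 : M - (k + θ) = a - θ := by rw [ha]; ring
    have e3 : M - (k + 1) = a - 1 := by rw [ha]; ring
    rw [e2, e3]
    have hp1 : (0 : ℝ) ≤ M := by linarith
    have key : 1 / (a - θ) ≤ (1 - θ) / a + θ / (a - 1) := by
      rw [div_add_div _ _ (by linarith) (by linarith), div_le_div_iff₀ hd2 (by positivity)]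
      nlinarith [mul_nonneg h0 (sub_nonneg.mpr h1)]
    calc M / (a - θ) = M * (1 / (a - θ)) := by ring
      _ ≤ M * ((1 - θ) / a + θ / (a - 1)) := mul_le_mul_of_nonneg_left key hp1
      _ = _ := by ring
  · have hks : ((s0 : ℝ)) ≤ k := by exact_mod_cast hk
    have e1 : min ((k : ℝ) + θ) s0 = s0 := min_eq_right (by linarith)
    unfold rhoM
    rw [e1, min_eq_right hk, min_eq_right (show s0 ≤ k + 1 by omega)]
    apply le_of_eq
    ring

theorem us_succ (R x : ℕ → ℝ) (k : ℕ) :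
    us R x (k + 1) = us R x k + (R (k + 1) - R k) * (x k - x 0) := by
  unfold us
  rw [Finset.sum_range_succ, ← Finset.sum_range_sub x k, Finset.mul_sum]
  simp only [sub_self, zero_mul, add_zero]
  rw [← Finset.sum_add_distrib]
  refine Finset.sum_congr rfl fun r _ => ?_
  ring

theorem rho_step {M : ℝ} {s0 : ℕ} (h : (s0 : ℝ) < M) (t : ℕ) (ht : t + 1 ≤ s0) :
    rhoM M s0 (t + 1) - rhoM M s0 t = M / ((M - t) * (M - t - 1)) := by
  unfold rhoM
  rw [min_eq_left ht, min_eq_left (by omega : t ≤ s0)]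
  have h2 : (t : ℝ) + 1 ≤ s0 := by exact_mod_cast ht
  have h3 : M - t ≠ 0 := by
    have : 0 < M - t := by linarith
    exact this.ne'
  have h4 : M - t - 1 ≠ 0 := by
    have : 0 < M - t - 1 := by linarith
    exact this.ne'
  have h5 : M - ((t + 1 : ℕ) : ℝ) = M - t - 1 := by
    push_cast
    ring
  rw [h5]
  field_simp
  ring

theorem hp_step_lt {M : ℝ} {s0 : ℕ} (h : (s0 : ℝ) < M) (X : ℕ → ℝ) (t : ℕ) (hX0 : X 0 = 0)
    (ht : t + 1 ≤ s0) :
    hpM M s0 X (t + 1) = hpM M s0 X t + M / ((M - t) * (M - t - 1)) * X t := by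
  unfold hpM
  rw [min_eq_left ht, min_eq_left (by omega : t ≤ s0), us_succ, rho_step h t ht, hX0]
  have h1 : hinM M s0 (t + 1) = 0 := by
    unfold hinM
    have : t + 1 - s0 = 0 := by omega
    rw [this]
    simp
  have h2 : hinM M s0 t = 0 := by
    unfold hinM
    have : t - s0 = 0 := by omega
    rw [this]
    simp
  rw [h1, h2]
  ring

theorem hp_step_ge (M : ℝ) (s0 : ℕ) (X : ℕ → ℝ) (t : ℕ) (ht : s0 ≤ t) :
    hpM M s0 X (t + 1) = hpM M s0 X t + 1 / (M - s0) := by
  unfold hpM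
  rw [min_eq_right (by omega : s0 ≤ t + 1), min_eq_right ht]
  unfold hinM
  have h : ((t + 1 - s0 : ℕ) : ℝ) = ((t - s0 : ℕ) : ℝ) + 1 := by
    have : t + 1 - s0 = (t - s0) + 1 := by omega
    rw [this]
    push_cast
    ring
  rw [h]
  ring

theorem hp_conv {M : ℝ} {s0 : ℕ} (h : (s0 : ℝ) < M) (X : ℕ → ℝ) (hmono : Monotone X)
    (hX0 : X 0 = 0) (hlast : X (s0 - 1) ≤ (M - s0 + 1) / M) : Conv (hpM M s0 X) := by
  have hXnn : ∀ t, 0 ≤ X t := fun t => by
    rw [← hX0]
    exact hmono (Nat.zero_le t)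
  have hs0 : (0 : ℝ) ≤ s0 := Nat.cast_nonneg s0
  have hM : 0 < M := by linarith
  refine ⟨?_, ?_, ?_⟩
  · unfold hpM hinM us
    simp
  · refine monotone_nat_of_le_succ fun t => ?_
    rcases Nat.lt_or_ge t s0 with ht | ht
    · rw [hp_step_lt h X t hX0 ht]
      have h2 : (t : ℝ) + 1 ≤ s0 := by exact_mod_cast ht
      have h3 : 0 ≤ M / ((M - t) * (M - t - 1)) := by
        apply div_nonneg
        · linarith
        · apply mul_nonneg <;> linarith
      have := mul_nonneg h3 (hXnn t)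
      linarith
    · rw [hp_step_ge M s0 X t ht]
      have : 0 ≤ 1 / (M - s0) := by
        apply div_nonneg
        · norm_num
        · linarith
      linarith
  · intro t
    rcases Nat.lt_or_ge (t + 1) s0 with ht | ht
    · have e1 := hp_step_lt h X t hX0 (by omega)
      have e2 := hp_step_lt h X (t + 1) hX0 ht
      rw [show t + 1 + 1 = t + 2 from rfl] at e2
      have h2 : (t : ℝ) + 2 ≤ s0 := by exact_mod_cast ht
      have hle : M / ((M - t) * (M - t - 1)) * X t ≤
          M / ((M - ((t + 1 : ℕ) : ℝ)) * (M - ((t + 1 : ℕ) : ℝ) - 1)) * X (t + 1) := by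
        have hX : X t ≤ X (t + 1) := hmono (Nat.le_succ t)
        have ha : M / ((M - t) * (M - t - 1)) ≤
            M / ((M - ((t + 1 : ℕ) : ℝ)) * (M - ((t + 1 : ℕ) : ℝ) - 1)) := by
          push_cast
          apply div_le_div_of_nonneg_left
          · linarith
          · apply mul_pos <;> linarith
          · apply mul_le_mul <;> linarith
        have hb : 0 ≤ M / ((M - t) * (M - t - 1)) := by
          apply div_nonneg
          · linarith
          · apply mul_nonneg <;> linarith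
        exact mul_le_mul ha hX (hXnn t) (le_trans hb ha)
      linarith
    · rcases Nat.lt_or_ge t s0 with ht' | ht'
      · have hts : s0 = t + 1 := by omega
        have e1 := hp_step_lt h X t hX0 (by omega)
        have e2 := hp_step_ge M s0 X (t + 1) ht
        rw [show t + 1 + 1 = t + 2 from rfl] at e2
        have h3 : s0 - 1 = t := by omega
        rw [h3] at hlast
        have h4 : (s0 : ℝ) = t + 1 := by
          rw [hts]
          push_cast
          ring
        have ht0 : (0 : ℝ) ≤ t := Nat.cast_nonneg t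
        rw [h4] at h hlast e2
        have hd1 : 0 < M - t := by linarith
        have hd2 : 0 < M - t - 1 := by linarith
        have hle : M / ((M - t) * (M - t - 1)) * X t ≤ 1 / (M - (t + 1)) := by
          have h5 : M / ((M - t) * (M - t - 1)) * X t ≤
              M / ((M - t) * (M - t - 1)) * ((M - (t + 1) + 1) / M) := by
            apply mul_le_mul_of_nonneg_left hlast
            apply div_nonneg hM.le
            exact (mul_pos hd1 hd2).le
          have h6 : M / ((M - t) * (M - t - 1)) * ((M - (t + 1) + 1) / M) =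
              1 / (M - (t + 1)) := by
            have h7 : M - (t + 1) + 1 = M - t := by ring
            have h8 : M - (t + 1) = M - t - 1 := by ring
            rw [h7, h8]
            have := hd1.ne'
            have := hd2.ne'
            have := hM.ne'
            field_simp
          linarith
        linarith
      · have e1 := hp_step_ge M s0 X t ht'
        have e2 := hp_step_ge M s0 X (t + 1) ht
        rw [show t + 1 + 1 = t + 2 from rfl] at e2
        linarith

theorem hp_interp {M : ℝ} {s0 : ℕ} (h : (s0 : ℝ) < M) (X : ℕ → ℝ) (k : ℕ) (θ : ℝ)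
    (h0 : 0 ≤ θ) (h1 : θ ≤ 1) :
    ((1 - θ) * us (rhoM M s0) X (min k s0) + θ * us (rhoM M s0) X (min (k + 1) s0)) +
        max 0 (((k : ℝ) + θ - s0) / (M - s0)) ≤
      (1 - θ) * hpM M s0 X k + θ * hpM M s0 X (k + 1) := by
  have hd : (0 : ℝ) < M - s0 := by linarith
  have key : max 0 (((k : ℝ) + θ - s0) / (M - s0)) ≤
      (1 - θ) * hinM M s0 k + θ * hinM M s0 (k + 1) := by
    unfold hinM
    rcases Nat.lt_or_ge k s0 with hk | hk
    · have hk1 : ((k : ℝ) + 1) ≤ s0 := by exact_mod_cast hk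
      rw [Nat.sub_eq_zero_of_le hk.le, Nat.sub_eq_zero_of_le (show k + 1 ≤ s0 from hk)]
      simp only [Nat.cast_zero, zero_div, mul_zero, add_zero]
      apply max_le le_rfl
      exact div_nonpos_of_nonpos_of_nonneg (by linarith) hd.le
    · have hks : ((s0 : ℝ)) ≤ k := by exact_mod_cast hk
      rw [Nat.cast_sub hk, Nat.cast_sub (show s0 ≤ k + 1 by omega)]
      push_cast
      have e : (1 - θ) * (((k : ℝ) - s0) / (M - s0)) +
          θ * (((k : ℝ) + 1 - s0) / (M - s0)) = ((k : ℝ) + θ - s0) / (M - s0) := by ring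
      rw [e]
      apply max_le _ le_rfl
      exact div_nonneg (by linarith) hd.le
  unfold hpM
  nlinarith [key]

theorem us_add_vs (R x : ℕ → ℝ) (h0 : x 0 = 0) (k : ℕ) : us R x k + vs R x k = R k * x k := by
  unfold us vs
  rw [← Finset.sum_add_distrib]
  have h1 : ∀ r ∈ range k, (R k - R (r + 1)) * (x (r + 1) - x r) + R (r + 1) * (x (r + 1) - x r) =
      R k * (x (r + 1) - x r) := fun r _ => by ring
  rw [Finset.sum_congr rfl h1, ← Finset.mul_sum, Finset.sum_range_sub, h0, sub_zero]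

theorem rho_min (M : ℝ) (s0 t : ℕ) (h : s0 ≤ t) : rhoM M s0 t = rhoM M s0 s0 := by
  unfold rhoM
  rw [min_eq_right h, min_self]

theorem key (M : ℝ) (s0 : ℕ) (X : ℕ → ℝ) (h0 : X 0 = 0) (n : ℕ) :
    vs (rhoM M s0) X (s0 + n) + us (rhoM M s0) X s0 = rhoM M s0 s0 * X (s0 + n) := by
  induction n with
  | zero => rw [add_zero, add_comm]; exact us_add_vs _ _ h0 _
  | succ n ih =>
    have h1 : vs (rhoM M s0) X (s0 + (n + 1)) = vs (rhoM M s0) X (s0 + n) +
        rhoM M s0 s0 * (X (s0 + (n + 1)) - X (s0 + n)) := by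
      rw [← add_assoc]
      unfold vs
      rw [Finset.sum_range_succ, rho_min M s0 (s0 + n + 1) (by omega)]
    rw [h1]
    linarith

theorem total (M : ℝ) (s0 : ℕ) (X : ℕ → ℝ) (t : ℕ) (h0 : X 0 = 0) :
    vs (rhoM M s0) X t + hpM M s0 X t = rhoM M s0 t * X t + hinM M s0 t := by
  unfold hpM
  rcases le_total t s0 with h | h
  · rw [min_eq_left h]
    have := us_add_vs (rhoM M s0) X h0 t
    linarith
  · rw [min_eq_right h]
    obtain ⟨n, rfl⟩ := Nat.exists_eq_add_of_le h
    have := key M s0 X h0 n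
    rw [rho_min M s0 (s0 + n) h]
    linarith

theorem hin_nonneg {M : ℝ} {s0 : ℕ} (h : (s0 : ℝ) < M) (t : ℕ) : 0 ≤ hinM M s0 t := by
  unfold hinM
  exact div_nonneg (Nat.cast_nonneg _) (by linarith)

end StepMAux

end OddCov
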